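import Mathlib
import Pool.Agent.Helper55.Chaos.OneStep

set_option autoImplicit false
set_option linter.unusedSectionVars false
set_option linter.unusedVariables false

open MeasureTheory ProbabilityTheory Finset

namespace Pool.Agent.Helper55.Chaos

lemma norm_cexp_sub_le (z : ℂ) :
    ‖Complex.exp z - (1 + z + z ^ 2 / 2)‖ ≤ ‖z‖ ^ 3 * Real.exp ‖z‖ := by
  have h := Complex.norm_exp_sub_sum_le_norm_mul_exp z 3
  have e : ∑ m ∈ range 3, z ^ m / (m.factorial : ℂ) = 1 + z + z ^ 2 / 2 := by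
    simp [Finset.sum_range_succ, Nat.factorial]
  rwa [e] at h

/-- Elementary bound for the modulus of `1 + a + i b`. -/
lemma norm_one_add_le {a b L t t1 : ℝ} (hL : 0 ≤ L) (ht : 0 ≤ t) (ht1 : t ≤ t1)
    (ha : |a| ≤ L ^ 2 * t ^ 2) (hb : |b| ≤ L ^ 2 * t ^ 2) :
    ‖(1 : ℂ) + (a : ℂ) + (b : ℂ) * Complex.I‖ ≤
      Real.exp (a + (L ^ 4 * t1 + 6 * L ^ 3) * t ^ 3) := by
  have ht10 : 0 ≤ t1 := ht.trans ht1
  by_cases hcase : -(1 / 2) ≤ a
  · have h1 : ‖(1 : ℂ) + (a : ℂ) + (b : ℂ) * Complex.I‖ ≤ 1 + a + b ^ 2 := by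
      have e1 : (1 : ℂ) + (a : ℂ) + (b : ℂ) * Complex.I =
          (((1 + a : ℝ)) : ℂ) + (b : ℂ) * Complex.I := by push_cast; ring
      rw [e1, Complex.norm_add_mul_I]
      apply Real.sqrt_le_iff.2
      constructor
      · nlinarith [sq_nonneg b]
      · nlinarith [sq_nonneg b, sq_nonneg (b ^ 2)]
    have h2 : b ^ 2 ≤ L ^ 4 * t1 * t ^ 3 := by
      calc b ^ 2 = |b| ^ 2 := (sq_abs b).symm
        _ ≤ (L ^ 2 * t ^ 2) ^ 2 := pow_le_pow_left₀ (abs_nonneg _) hb 2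
        _ = L ^ 4 * t ^ 3 * t := by ring
        _ ≤ L ^ 4 * t ^ 3 * t1 := by gcongr
        _ = _ := by ring
    calc _ ≤ 1 + a + b ^ 2 := h1
      _ ≤ (a + (L ^ 4 * t1 + 6 * L ^ 3) * t ^ 3) + 1 := by
          have : 0 ≤ 6 * L ^ 3 * t ^ 3 := by positivity
          nlinarith
      _ ≤ _ := Real.add_one_le_exp _
  · push Not at hcase
    have hbig : 1 / 2 < L ^ 2 * t ^ 2 := by
      have := (abs_le.1 ha).1
      linarith
    have hLt : (1 : ℝ) / 2 ≤ L * t := by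
      by_contra hneg
      push Not at hneg
      have h0 : 0 ≤ L * t := by positivity
      have : (L * t) ^ 2 < (1 / 2) ^ 2 := pow_lt_pow_left₀ hneg h0 two_ne_zero
      nlinarith
    have h1 : ‖(1 : ℂ) + (a : ℂ) + (b : ℂ) * Complex.I‖ ≤ 1 + |a| + |b| := by
      refine (norm_add_le _ _).trans ?_
      refine add_le_add ((norm_add_le _ _).trans ?_) ?_
      · simp
      · simp
    have h3 : L ^ 2 * t ^ 2 ≤ 2 * (L ^ 3 * t ^ 3) := by
      have : L ^ 3 * t ^ 3 = (L * t) * (L ^ 2 * t ^ 2) := by ring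
      rw [this]
      have h0 : 0 ≤ L ^ 2 * t ^ 2 := by positivity
      nlinarith
    calc _ ≤ 1 + |a| + |b| := h1
      _ ≤ (a + (L ^ 4 * t1 + 6 * L ^ 3) * t ^ 3) + 1 := by
          have h4 : 0 ≤ L ^ 4 * t1 * t ^ 3 := by positivity
          have h5 := (abs_le.1 ha).1
          nlinarith
      _ ≤ _ := Real.add_one_le_exp _

section
variable {Ω : Type*} [MeasurableSpace Ω] {P : Measure Ω} [IsProbabilityMeasure P]
  {R : Ω → ℝ} {e c t B : ℝ}

/-- Upper bound for one complex factor. -/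
lemma StepHyp.cbound (h : StepHyp P R e c t B) (he : 0 < e) {L : ℝ} (hL : 0 ≤ L)
    (hc : c = (2 * L) * ((3 + e) / e)) {Y Z : Ω → ℝ} (hY : Measurable Y) (hZ : Measurable Z)
    (hYR : ∀ ω, |Y ω| ≤ L * R ω) (hZR : ∀ ω, |Z ω| ≤ L * R ω)
    (hY0 : ∫ ω, Y ω ∂P = 0) (hZ0 : ∫ ω, Z ω ∂P = 0) {t1 : ℝ} (ht : t ≤ t1) :
    Integrable (fun ω => Complex.exp ((Y ω : ℂ) + (Z ω : ℂ) * Complex.I)) P ∧
    ‖∫ ω, Complex.exp ((Y ω : ℂ) + (Z ω : ℂ) * Complex.I) ∂P‖ ≤
      Real.exp ((∫ ω, Y ω ^ 2 ∂P) / 2 - (∫ ω, Z ω ^ 2 ∂P) / 2 +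
        ((L ^ 4 * t1 + 6 * L ^ 3) + 8 * L ^ 3 * B * Real.exp (L ^ 2 * t1 ^ 2)) * t ^ 3) := by
  have hL2 : 0 ≤ 2 * L := by linarith
  obtain ⟨hi2, hsq⟩ := h.sq_le he
  obtain ⟨hi3, hcu⟩ := h.cube_le he hL2 hc
  have hc0 : 0 ≤ c := by rw [hc]; positivity
  have hB := h.B_one hc0
  have ht0 := h.t0
  have ht10 : 0 ≤ t1 := ht0.trans ht
  have hLc : L ≤ c := by
    rw [hc]
    have : 1 ≤ (3 + e) / e := by rw [le_div_iff₀ he]; linarith
    nlinarith
  have hmz : Measurable fun ω => (Y ω : ℂ) + (Z ω : ℂ) * Complex.I := by fun_prop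
  have hexpi : Integrable (fun ω => Complex.exp ((Y ω : ℂ) + (Z ω : ℂ) * Complex.I)) P := by
    refine h.int2.mono' (Complex.measurable_exp.comp hmz).aestronglyMeasurable
      (Filter.Eventually.of_forall fun ω => ?_)
    rw [Complex.norm_exp]
    simp only [Complex.add_re, Complex.ofReal_re, Complex.mul_re, Complex.I_re, mul_zero,
      Complex.ofReal_im, Complex.I_im, zero_mul, sub_zero, add_zero]
    rw [Real.exp_le_exp]
    calc Y ω ≤ |Y ω| := le_abs_self _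
      _ ≤ L * R ω := hYR ω
      _ ≤ c * R ω := mul_le_mul_of_nonneg_right hLc (h.nonneg ω)
  have sqi : ∀ {W : Ω → ℝ}, Measurable W → (∀ ω, |W ω| ≤ L * R ω) →
      Integrable (fun ω => W ω ^ 2) P ∧ (∫ ω, W ω ^ 2 ∂P) ≤ L ^ 2 * t ^ 2 := by
    intro W hW hWR
    have hWsq : Integrable (fun ω => W ω ^ 2) P := by
      refine (hi2.const_mul (L ^ 2)).mono' (hW.pow_const 2).aestronglyMeasurable
        (Filter.Eventually.of_forall fun ω => ?_)
      rw [Real.norm_of_nonneg (sq_nonneg _), ← mul_pow, ← sq_abs]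
      exact pow_le_pow_left₀ (abs_nonneg _) (hWR ω) 2
    refine ⟨hWsq, ?_⟩
    calc (∫ ω, W ω ^ 2 ∂P) ≤ ∫ ω, L ^ 2 * R ω ^ 2 ∂P := by
          apply integral_mono hWsq (hi2.const_mul _)
          intro ω
          simp only
          rw [← mul_pow, ← sq_abs]
          exact pow_le_pow_left₀ (abs_nonneg _) (hWR ω) 2
      _ = L ^ 2 * ∫ ω, R ω ^ 2 ∂P := integral_const_mul _ _
      _ ≤ L ^ 2 * t ^ 2 := mul_le_mul_of_nonneg_left hsq (sq_nonneg _)
  obtain ⟨hYsq, hY2⟩ := sqi hY hYR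
  obtain ⟨hZsq, hZ2⟩ := sqi hZ hZR
  have inti : ∀ {W : Ω → ℝ}, Measurable W → Integrable (fun ω => W ω ^ 2) P → Integrable W P := by
    intro W hW hWsq
    refine ((integrable_const (1 : ℝ)).add hWsq).mono' hW.aestronglyMeasurable
      (Filter.Eventually.of_forall fun ω => ?_)
    simp only [Pi.add_apply, Real.norm_eq_abs]
    nlinarith [sq_nonneg (|W ω| - 1), sq_abs (W ω), abs_nonneg (W ω)]
  have hYi := inti hY hYsq
  have hZi := inti hZ hZsq
  have hYZ : Integrable (fun ω => Y ω * Z ω) P := by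
    refine (hYsq.add hZsq).mono' (hY.mul hZ).aestronglyMeasurable
      (Filter.Eventually.of_forall fun ω => ?_)
    simp only [Pi.add_apply, Real.norm_eq_abs]
    rw [abs_le]
    constructor <;> nlinarith [sq_nonneg (Y ω + Z ω), sq_nonneg (Y ω - Z ω), sq_nonneg (Y ω),
      sq_nonneg (Z ω)]
  have hYZb : |∫ ω, Y ω * Z ω ∂P| ≤ L ^ 2 * t ^ 2 := by
    calc |∫ ω, Y ω * Z ω ∂P| ≤ ∫ ω, |Y ω * Z ω| ∂P := abs_integral_le_integral_abs
      _ ≤ ∫ ω, L ^ 2 * R ω ^ 2 ∂P := by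
          apply integral_mono hYZ.abs (hi2.const_mul _)
          intro ω
          simp only
          rw [abs_mul]
          calc |Y ω| * |Z ω| ≤ (L * R ω) * (L * R ω) :=
                mul_le_mul (hYR ω) (hZR ω) (abs_nonneg _) (mul_nonneg hL (h.nonneg ω))
            _ = _ := by ring
      _ = L ^ 2 * ∫ ω, R ω ^ 2 ∂P := integral_const_mul _ _
      _ ≤ L ^ 2 * t ^ 2 := mul_le_mul_of_nonneg_left hsq (sq_nonneg _)
  set a : ℝ := (∫ ω, Y ω ^ 2 ∂P) / 2 - (∫ ω, Z ω ^ 2 ∂P) / 2 with ha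
  set b : ℝ := ∫ ω, Y ω * Z ω ∂P with hb
  have hYn : 0 ≤ ∫ ω, Y ω ^ 2 ∂P := integral_nonneg fun ω => sq_nonneg _
  have hZn : 0 ≤ ∫ ω, Z ω ^ 2 ∂P := integral_nonneg fun ω => sq_nonneg _
  have haL : |a| ≤ L ^ 2 * t ^ 2 := by
    rw [abs_le, ha]
    constructor <;> linarith
  refine ⟨hexpi, ?_⟩
  set z : Ω → ℂ := fun ω => (Y ω : ℂ) + (Z ω : ℂ) * Complex.I with hz
  have hYc : Integrable (fun ω => (Y ω : ℂ)) P := hYi.ofReal
  have hZc : Integrable (fun ω => (Z ω : ℂ)) P := hZi.ofReal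
  have hpoly : ∀ ω, (1 : ℂ) + z ω + z ω ^ 2 / 2 = 1 + ((Y ω : ℂ) + (Z ω : ℂ) * Complex.I) +
      ((((Y ω ^ 2 : ℝ) : ℂ)) / 2 - (((Z ω ^ 2 : ℝ) : ℂ)) / 2 +
        (((Y ω * Z ω : ℝ) : ℂ)) * Complex.I) := by
    intro ω
    simp only [hz]
    push_cast
    have := Complex.I_sq
    linear_combination ((Z ω : ℂ) ^ 2 / 2) * this
  have hY2c : Integrable (fun ω => ((Y ω ^ 2 : ℝ) : ℂ)) P := hYsq.ofReal
  have hZ2c : Integrable (fun ω => ((Z ω ^ 2 : ℝ) : ℂ)) P := hZsq.ofReal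
  have hYZc : Integrable (fun ω => ((Y ω * Z ω : ℝ) : ℂ)) P := hYZ.ofReal
  have hpi : Integrable (fun ω => (1 : ℂ) + z ω + z ω ^ 2 / 2) P := by
    simp_rw [hpoly]
    exact ((integrable_const _).add (hYc.add (hZc.mul_const _))).add
      (((hY2c.div_const _).sub (hZ2c.div_const _)).add (hYZc.mul_const _))
  have hpint : ∫ ω, ((1 : ℂ) + z ω + z ω ^ 2 / 2) ∂P = (1 : ℂ) + (a : ℂ) + (b : ℂ) * Complex.I := by
    simp_rw [hpoly]
    have i1 : Integrable (fun ω => (Y ω : ℂ) + (Z ω : ℂ) * Complex.I) P :=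
      hYc.add (hZc.mul_const _)
    have i2 : Integrable (fun ω => (1 : ℂ) + ((Y ω : ℂ) + (Z ω : ℂ) * Complex.I)) P :=
      (integrable_const _).add i1
    have i3 : Integrable (fun ω => (((Y ω ^ 2 : ℝ) : ℂ)) / 2 - (((Z ω ^ 2 : ℝ) : ℂ)) / 2) P :=
      (hY2c.div_const _).sub (hZ2c.div_const _)
    have i4 : Integrable (fun ω => (((Y ω ^ 2 : ℝ) : ℂ)) / 2 - (((Z ω ^ 2 : ℝ) : ℂ)) / 2 +
        (((Y ω * Z ω : ℝ) : ℂ)) * Complex.I) P := i3.add (hYZc.mul_const _)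
    rw [integral_add i2 i4, integral_add (integrable_const _) i1,
      integral_add hYc (hZc.mul_const _), integral_mul_const,
      integral_add i3 (hYZc.mul_const _),
      integral_sub (hY2c.div_const _) (hZ2c.div_const _), integral_div, integral_div,
      integral_mul_const, integral_complex_ofReal, integral_complex_ofReal,
      integral_complex_ofReal, integral_complex_ofReal,
      integral_complex_ofReal, hY0, hZ0]
    simp only [integral_const, probReal_univ, one_smul, Complex.ofReal_zero, zero_mul, add_zero]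
    rw [ha, hb]
    push_cast
    ring
  have herr : ‖∫ ω, Complex.exp (z ω) ∂P - ((1 : ℂ) + (a : ℂ) + (b : ℂ) * Complex.I)‖ ≤
      8 * L ^ 3 * B * t ^ 3 := by
    rw [← hpint, ← integral_sub hexpi hpi]
    calc ‖∫ ω, (Complex.exp (z ω) - (1 + z ω + z ω ^ 2 / 2)) ∂P‖
        ≤ ∫ ω, 8 * L ^ 3 * (R ω ^ 3 * Real.exp (2 * L * R ω)) ∂P := by
          refine (norm_integral_le_integral_norm _).trans ?_
          apply integral_mono_of_nonneg (Filter.Eventually.of_forall fun ω => norm_nonneg _)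
            (hi3.const_mul _) (Filter.Eventually.of_forall fun ω => ?_)
          simp only
          refine (norm_cexp_sub_le _).trans ?_
          have hzn : ‖z ω‖ ≤ 2 * L * R ω := by
            calc ‖z ω‖ ≤ ‖(Y ω : ℂ)‖ + ‖(Z ω : ℂ) * Complex.I‖ := norm_add_le _ _
              _ = |Y ω| + |Z ω| := by simp
              _ ≤ 2 * L * R ω := by have := hYR ω; have := hZR ω; linarith
          calc ‖z ω‖ ^ 3 * Real.exp ‖z ω‖ ≤ (2 * L * R ω) ^ 3 * Real.exp (2 * L * R ω) :=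
                mul_le_mul (pow_le_pow_left₀ (norm_nonneg _) hzn 3)
                  (Real.exp_le_exp.2 hzn) (Real.exp_pos _).le
                  (pow_nonneg (mul_nonneg hL2 (h.nonneg ω)) 3)
            _ = _ := by ring
      _ = 8 * L ^ 3 * ∫ ω, R ω ^ 3 * Real.exp (2 * L * R ω) ∂P := integral_const_mul _ _
      _ ≤ 8 * L ^ 3 * (t ^ 3 * B) := mul_le_mul_of_nonneg_left hcu (by positivity)
      _ = _ := by ring
  have hmain := norm_one_add_le hL ht0 ht haL hYZb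
  set E1 : ℝ := (L ^ 4 * t1 + 6 * L ^ 3) * t ^ 3 with hE1
  have hE10 : 0 ≤ E1 := by positivity
  set E2 : ℝ := 8 * L ^ 3 * B * t ^ 3 with hE2
  have hE20 : 0 ≤ E2 := by positivity
  have hat : -(L ^ 2 * t1 ^ 2) ≤ a := by
    have h1 := (abs_le.1 haL).1
    have h2 : L ^ 2 * t ^ 2 ≤ L ^ 2 * t1 ^ 2 := by gcongr
    linarith
  calc ‖∫ ω, Complex.exp (z ω) ∂P‖
      = ‖(∫ ω, Complex.exp (z ω) ∂P - ((1 : ℂ) + (a : ℂ) + (b : ℂ) * Complex.I)) +
        ((1 : ℂ) + (a : ℂ) + (b : ℂ) * Complex.I)‖ := by congr 1; ring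
    _ ≤ E2 + Real.exp (a + E1) := (norm_add_le _ _).trans (add_le_add herr hmain)
    _ ≤ Real.exp (a + E1) * (1 + E2 * Real.exp (L ^ 2 * t1 ^ 2)) := by
        have h1 : 1 ≤ Real.exp (a + E1) * Real.exp (L ^ 2 * t1 ^ 2) := by
          rw [← Real.exp_add, Real.one_le_exp_iff]
          linarith
        nlinarith
    _ ≤ Real.exp (a + E1) * Real.exp (E2 * Real.exp (L ^ 2 * t1 ^ 2)) := by
        apply mul_le_mul_of_nonneg_left _ (Real.exp_pos _).le
        linarith [Real.add_one_le_exp (E2 * Real.exp (L ^ 2 * t1 ^ 2))]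
    _ = _ := by
        rw [← Real.exp_add, hE1, hE2]
        congr 1
        ring

end

end Pool.Agent.Helper55.Chaos
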