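import Mathlib
import Pool.Agent.Helper55.Chaos.Mass
import Pool.Agent.Helper55.Tail.CStep

set_option autoImplicit false
set_option linter.unusedSectionVars false
set_option linter.unusedVariables false

open MeasureTheory ProbabilityTheory Finset
open scoped ENNReal

namespace Pool.Agent.Helper55.Chaos

section
variable {Ω T : Type*} [MeasurableSpace Ω] {P : Measure Ω} [IsProbabilityMeasure P]
  [TopologicalSpace T] {X : ℕ → Ω → T → ℝ}

/-- Multi-point exponential moments with an imaginary part. -/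
theorem FieldHyp.cexp_est (h : FieldHyp P X) (ι : Type) [Fintype ι] (L : ℝ) (hL : 0 ≤ L) :
    ∃ C : ℝ, 0 ≤ C ∧ ∀ (pt : ι → T) (lam mu : ι → ℕ → ℝ), (∀ i k, |lam i k| ≤ L) →
      (∀ i k, |mu i k| ≤ L) → ∀ n : ℕ,
      ‖∫ ω, Complex.exp (((∑ k ∈ range n, Yk X pt lam k ω : ℝ) : ℂ) +
        ((∑ k ∈ range n, Yk X pt mu k ω : ℝ) : ℂ) * Complex.I) ∂P‖ ≤
        Real.exp ((∑ k ∈ range n, ∫ ω, Yk X pt lam k ω ^ 2 ∂P) / 2 -
          (∑ k ∈ range n, ∫ ω, Yk X pt mu k ω ^ 2 ∂P) / 2 + C) := by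
  obtain ⟨e, he, B3, hB3⟩ := h.mom3
  set c : ℝ := (2 * L) * ((3 + e) / e) with hc
  have hc0 : 0 ≤ c := by rw [hc]; positivity
  obtain ⟨B0, hB0, hB0'⟩ := h.absexp (c * Fintype.card ι) (by positivity)
  set B : ℝ := 1 + Fintype.card ι * B0 with hB
  have hBpos : 0 ≤ B := by positivity
  set s : ℝ := 3 / (3 + e) with hs
  have hs0 : 0 < s := by positivity
  have hs1 : s ≤ 1 := by rw [hs, div_le_one (by positivity)]; linarith
  set T3 : ℝ := max (((Fintype.card ι : ℝ) ^ (2 + e)) ^ s * (Fintype.card ι * B3)) 0 with hT3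
  have hT30 : 0 ≤ T3 := le_max_right _ _
  have hstep : ∀ (pt : ι → T) (k : ℕ), StepHyp P (Rk X pt k) e c
      ((∫ ω, Rk X pt k ω ^ (3 + e) ∂P) ^ (1 / (3 + e))) B := by
    intro pt k
    have h0 : 0 ≤ ∫ ω, Rk X pt k ω ^ (3 + e) ∂P :=
      integral_nonneg fun ω => Real.rpow_nonneg (Rk_nonneg pt k ω) _
    refine ⟨h.Rk_meas pt k, Rk_nonneg pt k, (h.Rk_int pt k he).1, (h.Rk_exp pt k hc0 hB0').1,
      Real.rpow_nonneg h0 _, ?_, (h.Rk_exp pt k hc0 hB0').2⟩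
    rw [← Real.rpow_mul h0]
    have : 1 / (3 + e) * (3 + e) = 1 := by field_simp
    rw [this, Real.rpow_one]
  have hcube : ∀ (pt : ι → T) (n : ℕ),
      ∑ k ∈ range n, ((∫ ω, Rk X pt k ω ^ (3 + e) ∂P) ^ (1 / (3 + e))) ^ 3 ≤ T3 := by
    intro pt n
    have hk : ∀ k, ((∫ ω, Rk X pt k ω ^ (3 + e) ∂P) ^ (1 / (3 + e))) ^ 3 ≤
        ((Fintype.card ι : ℝ) ^ (2 + e)) ^ s *
          ∑ i, (∫ ω, |X k ω (pt i)| ^ (3 + e) ∂P) ^ s := by
      intro k
      have h0 : 0 ≤ ∫ ω, Rk X pt k ω ^ (3 + e) ∂P :=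
        integral_nonneg fun ω => Real.rpow_nonneg (Rk_nonneg pt k ω) _
      have h1 : ((∫ ω, Rk X pt k ω ^ (3 + e) ∂P) ^ (1 / (3 + e))) ^ 3 =
          (∫ ω, Rk X pt k ω ^ (3 + e) ∂P) ^ s := by
        rw [← Real.rpow_natCast, ← Real.rpow_mul h0]
        congr 1
        rw [hs]; push_cast; ring
      rw [h1]
      have ha : ∀ i, 0 ≤ ∫ ω, |X k ω (pt i)| ^ (3 + e) ∂P := fun i =>
        integral_nonneg fun ω => Real.rpow_nonneg (abs_nonneg _) _
      calc (∫ ω, Rk X pt k ω ^ (3 + e) ∂P) ^ s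
          ≤ ((Fintype.card ι : ℝ) ^ (2 + e) * ∑ i, ∫ ω, |X k ω (pt i)| ^ (3 + e) ∂P) ^ s :=
            Real.rpow_le_rpow h0 (h.Rk_int pt k he).2 hs0.le
        _ = ((Fintype.card ι : ℝ) ^ (2 + e)) ^ s *
            (∑ i, ∫ ω, |X k ω (pt i)| ^ (3 + e) ∂P) ^ s :=
            Real.mul_rpow (by positivity) (Finset.sum_nonneg fun i _ => ha i)
        _ ≤ _ := mul_le_mul_of_nonneg_left (sum_rpow_le _ _ ha hs0 hs1) (by positivity)
    calc ∑ k ∈ range n, ((∫ ω, Rk X pt k ω ^ (3 + e) ∂P) ^ (1 / (3 + e))) ^ 3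
        ≤ ∑ k ∈ range n, ((Fintype.card ι : ℝ) ^ (2 + e)) ^ s *
          ∑ i, (∫ ω, |X k ω (pt i)| ^ (3 + e) ∂P) ^ s := Finset.sum_le_sum fun k _ => hk k
      _ = ((Fintype.card ι : ℝ) ^ (2 + e)) ^ s *
          ∑ i, ∑ k ∈ range n, (∫ ω, |X k ω (pt i)| ^ (3 + e) ∂P) ^ s := by
          rw [← Finset.mul_sum, Finset.sum_comm]
      _ ≤ ((Fintype.card ι : ℝ) ^ (2 + e)) ^ s * ∑ _i : ι, B3 := by
          apply mul_le_mul_of_nonneg_left _ (by positivity)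
          exact Finset.sum_le_sum fun i _ => hB3 (pt i) n
      _ = ((Fintype.card ι : ℝ) ^ (2 + e)) ^ s * (Fintype.card ι * B3) := by simp
      _ ≤ T3 := le_max_left _ _
  set t1 : ℝ := 1 + T3 with ht1
  have hkt : ∀ (pt : ι → T) (k : ℕ), (∫ ω, Rk X pt k ω ^ (3 + e) ∂P) ^ (1 / (3 + e)) ≤ t1 := by
    intro pt k
    set t := (∫ ω, Rk X pt k ω ^ (3 + e) ∂P) ^ (1 / (3 + e)) with ht
    have ht0 : 0 ≤ t := (hstep pt k).t0
    have h1 : t ^ 3 ≤ T3 := by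
      refine le_trans ?_ (hcube pt (k + 1))
      exact Finset.single_le_sum
        (f := fun k => ((∫ ω, Rk X pt k ω ^ (3 + e) ∂P) ^ (1 / (3 + e))) ^ 3)
        (fun j _ => pow_nonneg (hstep pt j).t0 3) (Finset.mem_range.2 (Nat.lt_succ_self k))
    by_cases h2 : t ≤ 1
    · linarith
    · push Not at h2
      have : t ≤ t ^ 3 := by nlinarith [sq_nonneg t, mul_pos (by linarith : 0 < t) (by linarith : 0 < t - 1)]
      linarith
  set C2 : ℝ := (L ^ 4 * t1 + 6 * L ^ 3) + 8 * L ^ 3 * B * Real.exp (L ^ 2 * t1 ^ 2) with hC2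
  have ht10 : 0 ≤ t1 := by positivity
  have hC20 : 0 ≤ C2 := by positivity
  refine ⟨C2 * T3, by positivity, fun pt lam mu hlam hmu n => ?_⟩
  have hb := fun k => (hstep pt k).cbound he hL hc (h.Yk_meas pt lam k) (h.Yk_meas pt mu k)
    (Yk_abs_le pt lam hlam k) (Yk_abs_le pt mu hmu k) (h.Yk_int pt lam k) (h.Yk_int pt mu k)
    (hkt pt k)
  set F : ℕ → Ω → ℂ := fun k ω => Complex.exp ((Yk X pt lam k ω : ℂ) +
    (Yk X pt mu k ω : ℂ) * Complex.I) with hF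
  have hind : iIndepFun F P := by
    have := h.indep.comp (fun k => fun f : T → ℝ => Complex.exp
      (((∑ i, lam i k * f (pt i) : ℝ) : ℂ) + ((∑ i, mu i k * f (pt i) : ℝ) : ℂ) * Complex.I)) (by
      intro k
      have m1 : Measurable fun f : T → ℝ => ∑ i, lam i k * f (pt i) :=
        Finset.measurable_sum _ fun i _ => (measurable_pi_apply (pt i)).const_mul _
      have m2 : Measurable fun f : T → ℝ => ∑ i, mu i k * f (pt i) :=
        Finset.measurable_sum _ fun i _ => (measurable_pi_apply (pt i)).const_mul _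
      exact Complex.measurable_exp.comp ((Complex.measurable_ofReal.comp m1).add
        ((Complex.measurable_ofReal.comp m2).mul_const _)))
    exact this
  have hprod : ∫ ω, Complex.exp (((∑ k ∈ range n, Yk X pt lam k ω : ℝ) : ℂ) +
        ((∑ k ∈ range n, Yk X pt mu k ω : ℝ) : ℂ) * Complex.I) ∂P =
      ∏ k ∈ range n, ∫ ω, F k ω ∂P := by
    have h1 : ∀ ω, Complex.exp (((∑ k ∈ range n, Yk X pt lam k ω : ℝ) : ℂ) +
        ((∑ k ∈ range n, Yk X pt mu k ω : ℝ) : ℂ) * Complex.I) = ∏ k : Fin n, F k ω := by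
      intro ω
      rw [Fin.prod_univ_eq_prod_range (fun k => F k ω) n]
      simp only [hF]
      rw [← Complex.exp_sum]
      congr 1
      push_cast
      rw [Finset.sum_add_distrib, Finset.sum_mul]
    simp_rw [h1]
    have h2 : iIndepFun (fun k : Fin n => F k) P := hind.precomp Fin.val_injective
    rw [h2.integral_fun_prod_eq_prod_integral (fun k => (hb k).1.aestronglyMeasurable)]
    exact Fin.prod_univ_eq_prod_range (fun k => ∫ ω, F k ω ∂P) n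
  rw [hprod, norm_prod]
  calc ∏ k ∈ range n, ‖∫ ω, F k ω ∂P‖
      ≤ ∏ k ∈ range n, Real.exp ((∫ ω, Yk X pt lam k ω ^ 2 ∂P) / 2 -
          (∫ ω, Yk X pt mu k ω ^ 2 ∂P) / 2 + C2 *
          ((∫ ω, Rk X pt k ω ^ (3 + e) ∂P) ^ (1 / (3 + e))) ^ 3) :=
        Finset.prod_le_prod (fun k _ => norm_nonneg _) (fun k _ => (hb k).2)
    _ = Real.exp ((∑ k ∈ range n, ∫ ω, Yk X pt lam k ω ^ 2 ∂P) / 2 -
          (∑ k ∈ range n, ∫ ω, Yk X pt mu k ω ^ 2 ∂P) / 2 + C2 *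
          ∑ k ∈ range n, ((∫ ω, Rk X pt k ω ^ (3 + e) ∂P) ^ (1 / (3 + e))) ^ 3) := by
        rw [← Real.exp_sum, Finset.sum_add_distrib, Finset.sum_sub_distrib, Finset.sum_div,
          Finset.sum_div, Finset.mul_sum]
    _ ≤ _ := by
        rw [Real.exp_le_exp]
        have h1 := mul_le_mul_of_nonneg_left (hcube pt n) hC20
        linarith

end

end Pool.Agent.Helper55.Chaos
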