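import Mathlib
import Pool.Agent.Helper55.Chaos.Weights

set_option autoImplicit false
set_option linter.unusedSectionVars false
set_option linter.unusedVariables false

open MeasureTheory ProbabilityTheory Finset
open scoped ENNReal

namespace Pool.Agent.Helper55.Chaos

/-- The scales `s j = j log 2`. -/
noncomputable def sc (j : ℕ) : ℝ := j * Real.log 2

/-- The exponent of the local factor. -/
noncomputable def om (lam A : ℝ) (j : ℕ) (v : ℝ) : ℝ :=
  -(Real.log (1 + sc j) / 2) - lam * |v - A * sc j| / Real.sqrt (1 + sc j)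

lemma sc_nonneg (j : ℕ) : 0 ≤ sc j :=
  mul_nonneg (Nat.cast_nonneg j) (Real.log_pos (by norm_num)).le

lemma sc_succ (j : ℕ) : sc (j + 1) = sc j + Real.log 2 := by
  unfold sc; push_cast; ring

lemma sc_mono {i j : ℕ} (h : i ≤ j) : sc i ≤ sc j := by
  unfold sc
  exact mul_le_mul_of_nonneg_right (by exact_mod_cast h) (Real.log_pos (by norm_num)).le

lemma sc_zero : sc 0 = 0 := by simp [sc]

/-- The bounded increasing function with derivative `exp (-c |u - w|)`. -/
noncomputable def Phi (c w u : ℝ) : ℝ :=
  if u ≤ w then Real.exp (-(c * (w - u))) / c else 2 / c - Real.exp (-(c * (u - w))) / c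

lemma Phi_nonneg {c : ℝ} (hc : 0 < c) (w u : ℝ) : 0 ≤ Phi c w u := by
  unfold Phi
  split_ifs with h
  · positivity
  · push Not at h
    have h1 : Real.exp (-(c * (u - w))) ≤ 1 := by
      rw [Real.exp_le_one_iff]
      have : 0 ≤ c * (u - w) := mul_nonneg hc.le (by linarith)
      linarith
    rw [← sub_div]
    apply div_nonneg _ hc.le
    linarith

lemma Phi_le {c : ℝ} (hc : 0 < c) (w u : ℝ) : Phi c w u ≤ 2 / c := by
  unfold Phi
  split_ifs with h
  · rw [div_le_div_iff_of_pos_right hc]
    have : Real.exp (-(c * (w - u))) ≤ 1 := by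
      rw [Real.exp_le_one_iff]
      have : 0 ≤ c * (w - u) := mul_nonneg hc.le (by linarith)
      linarith
    linarith
  · have : 0 ≤ Real.exp (-(c * (u - w))) / c := by positivity
    linarith

/-- Lower bound of increments. -/
lemma Phi_incr {c : ℝ} (hc : 0 < c) (w : ℝ) {u v : ℝ} (huv : u ≤ v) :
    (v - u) * Real.exp (-(c * |u - w|) - c * (v - u)) ≤ Phi c w v - Phi c w u := by
  -- elementary inequality
  have key : ∀ t : ℝ, 0 ≤ t → t * Real.exp (-(c * t)) ≤ (1 - Real.exp (-(c * t))) / c := by
    intro t ht
    rw [le_div_iff₀ hc]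
    have h1 : c * t + 1 ≤ Real.exp (c * t) := Real.add_one_le_exp _
    have h2 : Real.exp (-(c * t)) * Real.exp (c * t) = 1 := by rw [← Real.exp_add]; simp
    have h3 : 0 < Real.exp (-(c * t)) := Real.exp_pos _
    nlinarith
  have key2 : ∀ t : ℝ, 0 ≤ t → t ≤ (Real.exp (c * t) - 1) / c := by
    intro t ht
    rw [le_div_iff₀ hc]
    have h1 : c * t + 1 ≤ Real.exp (c * t) := Real.add_one_le_exp _
    nlinarith
  unfold Phi
  by_cases h1 : v ≤ w
  · have h2 : u ≤ w := huv.trans h1
    rw [if_pos h1, if_pos h2, abs_of_nonpos (by linarith)]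
    have h3 := key2 (v - u) (by linarith)
    have e1 : Real.exp (-(c * (w - v))) = Real.exp (-(c * (w - u))) * Real.exp (c * (v - u)) := by
      rw [← Real.exp_add]; congr 1; ring
    rw [e1]
    have h4 : 0 < Real.exp (-(c * (w - u))) := Real.exp_pos _
    have h5 : Real.exp (-(c * -(u - w)) - c * (v - u)) ≤ Real.exp (-(c * (w - u))) := by
      rw [Real.exp_le_exp]
      have : 0 ≤ c * (v - u) := mul_nonneg hc.le (by linarith)
      linarith
    calc (v - u) * Real.exp (-(c * -(u - w)) - c * (v - u))
        ≤ (v - u) * Real.exp (-(c * (w - u))) :=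
          mul_le_mul_of_nonneg_left h5 (by linarith)
      _ ≤ ((Real.exp (c * (v - u)) - 1) / c) * Real.exp (-(c * (w - u))) :=
          mul_le_mul_of_nonneg_right h3 h4.le
      _ = _ := by ring
  · push Not at h1
    rw [if_neg (not_le.2 h1)]
    by_cases h2 : u ≤ w
    · rw [if_pos h2, abs_of_nonpos (by linarith)]
      -- split at w
      have h3 := key2 (w - u) (by linarith)
      have h4 := key (v - w) (by linarith)
      have h5 : 0 < Real.exp (-(c * (w - u))) := Real.exp_pos _
      have h6 : Real.exp (-(c * (w - u))) * Real.exp (c * (w - u)) = 1 := by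
        rw [← Real.exp_add]; simp
      have h7 : (w - u) * Real.exp (-(c * (w - u))) ≤ (1 - Real.exp (-(c * (w - u)))) / c := by
        calc (w - u) * Real.exp (-(c * (w - u)))
            ≤ ((Real.exp (c * (w - u)) - 1) / c) * Real.exp (-(c * (w - u))) :=
              mul_le_mul_of_nonneg_right h3 h5.le
          _ = (Real.exp (-(c * (w - u))) * Real.exp (c * (w - u)) -
              Real.exp (-(c * (w - u)))) / c := by ring
          _ = _ := by rw [h6]
      have h8 : Real.exp (-(c * -(u - w)) - c * (v - u)) ≤ Real.exp (-(c * (w - u))) := by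
        rw [Real.exp_le_exp]
        have : 0 ≤ c * (v - u) := mul_nonneg hc.le (by linarith)
        linarith
      have h9 : Real.exp (-(c * -(u - w)) - c * (v - u)) ≤ Real.exp (-(c * (v - w))) := by
        rw [Real.exp_le_exp]
        have : 0 ≤ c * (w - u) := mul_nonneg hc.le (by linarith)
        linarith
      calc (v - u) * Real.exp (-(c * -(u - w)) - c * (v - u))
          = (w - u) * Real.exp (-(c * -(u - w)) - c * (v - u)) +
            (v - w) * Real.exp (-(c * -(u - w)) - c * (v - u)) := by ring
        _ ≤ (w - u) * Real.exp (-(c * (w - u))) + (v - w) * Real.exp (-(c * (v - w))) :=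
            add_le_add (mul_le_mul_of_nonneg_left h8 (by linarith))
              (mul_le_mul_of_nonneg_left h9 (by linarith))
        _ ≤ (1 - Real.exp (-(c * (w - u)))) / c + (1 - Real.exp (-(c * (v - w)))) / c :=
            add_le_add h7 h4
        _ = _ := by ring
    · rw [if_neg h2]
      push Not at h2
      rw [abs_of_pos (by linarith)]
      have h4 := key (v - u) (by linarith)
      have e1 : Real.exp (-(c * (v - w))) = Real.exp (-(c * (u - w))) * Real.exp (-(c * (v - u))) := by
        rw [← Real.exp_add]; congr 1; ring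
      have e2 : Real.exp (-(c * (u - w)) - c * (v - u)) =
          Real.exp (-(c * (u - w))) * Real.exp (-(c * (v - u))) := by
        rw [← Real.exp_add]; congr 1
      rw [e1, e2]
      have h5 : 0 < Real.exp (-(c * (u - w))) := Real.exp_pos _
      calc (v - u) * (Real.exp (-(c * (u - w))) * Real.exp (-(c * (v - u))))
          = ((v - u) * Real.exp (-(c * (v - u)))) * Real.exp (-(c * (u - w))) := by ring
        _ ≤ ((1 - Real.exp (-(c * (v - u)))) / c) * Real.exp (-(c * (u - w))) :=
            mul_le_mul_of_nonneg_right h4 h5.le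
        _ = _ := by ring

/-- Uniform bound for the sums of the local factors (real version). -/
lemma om_sum_real {lam A : ℝ} (hlam : 0 < lam) (hA : 0 < A) :
    ∃ C : ℝ, 0 < C ∧ ∀ (v : ℝ) (J : ℕ), ∑ j ∈ range J, Real.exp (om lam A j v) ≤ C := by
  have hl2 : 0 < Real.log 2 := Real.log_pos (by norm_num)
  have hl2' : Real.log 2 ≤ 1 := by
    have := Real.log_le_sub_one_of_pos (show (0 : ℝ) < 2 by norm_num)
    linarith
  set c : ℝ := lam * A with hc
  have hc0 : 0 < c := mul_pos hlam hA
  refine ⟨(3 / Real.log 2) * Real.exp c * (2 / c), by positivity, fun v J => ?_⟩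
  -- the centre
  set w : ℝ := Real.sqrt (max ((v + A) / A) 0) with hw
  have hw0 : 0 ≤ w := Real.sqrt_nonneg _
  have hterm : ∀ j : ℕ, Real.exp (om lam A j v) ≤
      (3 / Real.log 2) * Real.exp c * (Phi c w (Real.sqrt (1 + sc (j + 1))) -
        Phi c w (Real.sqrt (1 + sc j))) := by
    intro j
    have hs := sc_nonneg j
    set u := Real.sqrt (1 + sc j) with hu
    set u' := Real.sqrt (1 + sc (j + 1)) with hu'
    have hu1 : 1 ≤ u := by rw [hu]; exact Real.one_le_sqrt.2 (by linarith)
    have husq : u ^ 2 = 1 + sc j := Real.sq_sqrt (by linarith)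
    have hu'sq : u' ^ 2 = 1 + sc j + Real.log 2 := by
      rw [hu', Real.sq_sqrt (by have := sc_nonneg (j + 1); linarith), sc_succ]; ring
    have hu'0 : 0 ≤ u' := Real.sqrt_nonneg _
    have huu' : u ≤ u' := Real.sqrt_le_sqrt (by rw [sc_succ]; linarith)
    have hdiff : (u' - u) * (u' + u) = Real.log 2 := by nlinarith
    have hdle : u' - u ≤ 1 := by nlinarith
    have hdge : Real.log 2 / (3 * u) ≤ u' - u := by
      rw [div_le_iff₀ (by positivity)]
      have h1 : u' + u ≤ 3 * u := by linarith
      nlinarith
    -- the exponent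
    have hexp : c * |u - w| ≤ lam * |v - A * sc j| / u := by
      rw [le_div_iff₀ (by linarith)]
      have h1 : A * (|u - w| * u) ≤ |v - A * sc j| := by
        rcases le_total 0 ((v + A) / A) with h2 | h2
        · have hwsq : w ^ 2 = (v + A) / A := by
            rw [hw, max_eq_left h2, Real.sq_sqrt h2]
          have h3 : v - A * sc j = A * (w ^ 2 - u ^ 2) := by
            rw [hwsq, husq]; field_simp; ring
          rw [h3, abs_mul, abs_of_pos hA]
          apply mul_le_mul_of_nonneg_left _ hA.le
          have h4 : w ^ 2 - u ^ 2 = (w - u) * (w + u) := by ring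
          rw [h4, abs_mul, abs_of_pos (by linarith : 0 < w + u), abs_sub_comm]
          apply mul_le_mul_of_nonneg_left _ (abs_nonneg _)
          linarith
        · have hw0' : w = 0 := by rw [hw, max_eq_right h2, Real.sqrt_zero]
          have h3 : v + A ≤ 0 := by
            by_contra h5
            push Not at h5
            have : 0 < (v + A) / A := div_pos h5 hA
            linarith
          rw [hw0', sub_zero, abs_of_pos (by linarith : 0 < u)]
          have h4 : u * u = 1 + sc j := by rw [← husq]; ring
          rw [h4]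
          have h5 : 0 ≤ A * sc j := by positivity
          rw [abs_of_nonpos (by linarith)]
          linarith
      calc c * |u - w| * u = lam * (A * (|u - w| * u)) := by rw [hc]; ring
        _ ≤ lam * |v - A * sc j| := mul_le_mul_of_nonneg_left h1 hlam.le
    have hom : Real.exp (om lam A j v) ≤ (1 / u) * Real.exp (-(c * |u - w|)) := by
      have h1 : 1 / u = Real.exp (-(Real.log (1 + sc j) / 2)) := by
        rw [← husq, Real.log_pow, Real.exp_neg]
        have : ((2 : ℕ) : ℝ) * Real.log u / 2 = Real.log u := by push_cast; ring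
        rw [this, Real.exp_log (by linarith), one_div]
      rw [h1, ← Real.exp_add]
      apply Real.exp_le_exp.2
      unfold om
      rw [← hu]
      linarith
    have hinc := Phi_incr hc0 w huu'
    have h10 : Real.exp (-(c * |u - w|)) ≤
        Real.exp c * Real.exp (-(c * |u - w|) - c * (u' - u)) := by
      rw [← Real.exp_add]
      apply Real.exp_le_exp.2
      nlinarith
    calc Real.exp (om lam A j v) ≤ (1 / u) * Real.exp (-(c * |u - w|)) := hom
      _ ≤ (1 / u) * (Real.exp c * Real.exp (-(c * |u - w|) - c * (u' - u))) :=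
          mul_le_mul_of_nonneg_left h10 (by positivity)
      _ = (3 / Real.log 2) * Real.exp c * ((Real.log 2 / (3 * u)) *
          Real.exp (-(c * |u - w|) - c * (u' - u))) := by
          field_simp
      _ ≤ (3 / Real.log 2) * Real.exp c * ((u' - u) *
          Real.exp (-(c * |u - w|) - c * (u' - u))) := by
          apply mul_le_mul_of_nonneg_left _ (by positivity)
          exact mul_le_mul_of_nonneg_right hdge (Real.exp_pos _).le
      _ ≤ _ := mul_le_mul_of_nonneg_left hinc (by positivity)
  calc ∑ j ∈ range J, Real.exp (om lam A j v)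
      ≤ ∑ j ∈ range J, (3 / Real.log 2) * Real.exp c *
        (Phi c w (Real.sqrt (1 + sc (j + 1))) - Phi c w (Real.sqrt (1 + sc j))) :=
        Finset.sum_le_sum fun j _ => hterm j
    _ = (3 / Real.log 2) * Real.exp c * (Phi c w (Real.sqrt (1 + sc J)) -
        Phi c w (Real.sqrt (1 + sc 0))) := by
        rw [← Finset.mul_sum, Finset.sum_range_sub (fun j => Phi c w (Real.sqrt (1 + sc j)))]
    _ ≤ _ := by
        apply mul_le_mul_of_nonneg_left _ (by positivity)
        have h1 := Phi_le hc0 w (Real.sqrt (1 + sc J))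
        have h2 := Phi_nonneg hc0 w (Real.sqrt (1 + sc 0))
        linarith

/-- Uniform bound for the sums of the local factors. -/
lemma om_sum {lam A : ℝ} (hlam : 0 < lam) (hA : 0 < A) :
    ∃ C : ℝ, ∀ (v : ℝ) (J : ℕ), ∑ j ∈ range J, ee (om lam A j v) ≤ ee C := by
  obtain ⟨C, hC, hsum⟩ := om_sum_real hlam hA
  refine ⟨Real.log C, fun v J => ?_⟩
  unfold ee
  rw [← ENNReal.ofReal_sum_of_nonneg fun j _ => (Real.exp_pos _).le, Real.exp_log hC]
  exact ENNReal.ofReal_le_ofReal (hsum v J)

end Pool.Agent.Helper55.Chaos
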