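import Mathlib

set_option autoImplicit false
set_option linter.unusedSectionVars false
set_option linter.unusedVariables false

open MeasureTheory ProbabilityTheory Finset

namespace Pool.Agent.Helper55.Chaos

/-- A nonnegative function whose Fourier transform has compact support. -/
noncomputable def Fej (u : ℝ) : ℝ := ∫ t in (0 : ℝ)..1, (1 - t) * Real.cos (t * u)

lemma Fej_eq {u : ℝ} (hu : u ≠ 0) : Fej u = (1 - Real.cos u) / u ^ 2 := by
  unfold Fej
  have hder : ∀ t ∈ Set.uIcc (0 : ℝ) 1, HasDerivAt
      (fun t => (1 - t) * Real.sin (t * u) / u - Real.cos (t * u) / u ^ 2)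
      ((1 - t) * Real.cos (t * u)) t := by
    intro t _
    have h1 : HasDerivAt (fun t => t * u) u t := by
      simpa using (hasDerivAt_id t).mul_const u
    have h2 : HasDerivAt (fun t => Real.sin (t * u)) (Real.cos (t * u) * u) t := h1.sin
    have h3 : HasDerivAt (fun t => Real.cos (t * u)) (-Real.sin (t * u) * u) t := h1.cos
    have h4 : HasDerivAt (fun t : ℝ => 1 - t) (-1) t := by
      simpa using (hasDerivAt_id t).const_sub 1
    have h5 := ((h4.mul h2).div_const u).sub (h3.div_const (u ^ 2))
    refine h5.congr_deriv ?_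
    field_simp
    ring
  rw [intervalIntegral.integral_eq_sub_of_hasDerivAt hder]
  · field_simp
    simp
    ring
  · apply Continuous.intervalIntegrable
    fun_prop

lemma Fej_nonneg (u : ℝ) : 0 ≤ Fej u := by
  by_cases hu : u = 0
  · subst hu
    unfold Fej
    apply intervalIntegral.integral_nonneg (by norm_num)
    intro t ht
    simp only [mul_zero, Real.cos_zero, mul_one]
    linarith [ht.2]
  · rw [Fej_eq hu]
    exact div_nonneg (by linarith [Real.cos_le_one u]) (sq_nonneg u)

lemma Fej_ge {u : ℝ} (hu : |u| ≤ 1) : 1 / 4 ≤ Fej u := by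
  unfold Fej
  have h1 : ∫ t in (0 : ℝ)..1, (1 - t) * (1 / 2) = 1 / 4 := by
    rw [intervalIntegral.integral_mul_const, intervalIntegral.integral_sub]
    · simp; norm_num
    · exact Continuous.intervalIntegrable (by fun_prop) _ _
    · exact Continuous.intervalIntegrable (by fun_prop) _ _
  rw [← h1]
  apply intervalIntegral.integral_mono_on (by norm_num)
  · exact Continuous.intervalIntegrable (by fun_prop) _ _
  · exact Continuous.intervalIntegrable (by fun_prop) _ _
  · intro t ht
    apply mul_le_mul_of_nonneg_left _ (by linarith [ht.2])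
    have h2 := Real.one_sub_sq_div_two_le_cos (x := t * u)
    have h3 : (t * u) ^ 2 ≤ 1 := by
      rw [← sq_abs, abs_mul, abs_of_nonneg ht.1]
      have : t * |u| ≤ 1 := by
        calc t * |u| ≤ 1 * 1 := mul_le_mul ht.2 hu (abs_nonneg _) zero_le_one
          _ = 1 := one_mul 1
      have h0 : 0 ≤ t * |u| := mul_nonneg ht.1 (abs_nonneg _)
      nlinarith
    linarith

lemma Fej_cont : Continuous Fej := by
  unfold Fej
  exact intervalIntegral.continuous_parametric_intervalIntegral_of_continuous' (by fun_prop) 0 1

lemma gauss_int {a : ℝ} (ha : 0 ≤ a) :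
    ∫ t in (0 : ℝ)..1, Real.exp (-(a * t ^ 2)) ≤ 2 / Real.sqrt (1 + a) := by
  by_cases h1 : a ≤ 1
  · have h2 : ∫ t in (0 : ℝ)..1, Real.exp (-(a * t ^ 2)) ≤ ∫ t in (0 : ℝ)..1, (1 : ℝ) := by
      apply intervalIntegral.integral_mono_on (by norm_num)
      · exact Continuous.intervalIntegrable (by fun_prop) _ _
      · exact Continuous.intervalIntegrable (by fun_prop) _ _
      · intro t ht
        rw [Real.exp_le_one_iff]
        have : 0 ≤ a * t ^ 2 := by positivity
        linarith
    refine h2.trans ?_
    simp only [intervalIntegral.integral_const, sub_zero, smul_eq_mul, mul_one]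
    rw [le_div_iff₀ (by positivity), one_mul]
    apply Real.sqrt_le_iff.2
    constructor <;> linarith
  · push Not at h1
    have ha0 : 0 < a := by linarith
    rw [intervalIntegral.integral_of_le (by norm_num)]
    have hi : IntegrableOn (fun t : ℝ => Real.exp (-a * t ^ 2)) (Set.Ioi 0) :=
      (integrable_exp_neg_mul_sq ha0).integrableOn
    calc ∫ t in Set.Ioc (0 : ℝ) 1, Real.exp (-(a * t ^ 2))
        = ∫ t in Set.Ioc (0 : ℝ) 1, Real.exp (-a * t ^ 2) := by
          simp only [neg_mul]
      _ ≤ ∫ t in Set.Ioi (0 : ℝ), Real.exp (-a * t ^ 2) := by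
          apply setIntegral_mono_set hi
          · exact Filter.Eventually.of_forall fun t => (Real.exp_pos _).le
          · exact Filter.Eventually.of_forall fun t ht => ht.1
      _ = Real.sqrt (Real.pi / a) / 2 := integral_gaussian_Ioi a
      _ ≤ 2 / Real.sqrt (1 + a) := by
          rw [le_div_iff₀ (by positivity), div_mul_eq_mul_div, div_le_iff₀ (by norm_num),
            ← Real.sqrt_mul (by positivity)]
          apply Real.sqrt_le_iff.2
          refine ⟨by norm_num, ?_⟩
          have hpi := Real.pi_le_four
          have hpi0 := Real.pi_pos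
          rw [div_mul_eq_mul_div, div_le_iff₀ ha0]
          nlinarith

end Pool.Agent.Helper55.Chaos
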