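import Mathlib
import Pool.Agent.Helper55.Tail.CField
import Pool.Agent.Helper55.Tail.Fej

set_option autoImplicit false
set_option linter.unusedSectionVars false
set_option linter.unusedVariables false

open MeasureTheory ProbabilityTheory Finset
open scoped ENNReal

namespace Pool.Agent.Helper55.Chaos

section
variable {Ω T : Type*} [MeasurableSpace Ω] {P : Measure Ω} [IsProbabilityMeasure P]
  [MetricSpace T] [SecondCountableTopology T] [MeasurableSpace T] [BorelSpace T] [Nonempty T]
  {X : ℕ → Ω → T → ℝ}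

lemma FieldHyp.K_diag_nonneg (h : FieldHyp P X) (n : ℕ) (x : T) : 0 ≤ K P X n x x := by
  unfold K
  exact Finset.sum_nonneg fun k _ => integral_nonneg fun ω => mul_self_nonneg _

/-- Complex exponential moments at levels. -/
theorem FieldHyp.cexp_lev (h : FieldHyp P X) (ι : Type) [Fintype ι] (L : ℝ) (hL : 0 ≤ L) :
    ∃ C : ℝ, 0 ≤ C ∧ ∀ (pt : ι → T) (a : ι → ℝ) (lev : ι → ℕ), (∀ i, |a i| ≤ L) →
      ∀ (x : T) (m : ℕ) (s : ℝ), |s| ≤ L →
      ‖∫ ω, Complex.exp (((∑ i, a i * S X (lev i) ω (pt i) : ℝ) : ℂ) +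
        ((s * S X m ω x : ℝ) : ℂ) * Complex.I) ∂P‖ ≤
      Real.exp ((∑ i, ∑ j, a i * a j * K P X (min (lev i) (lev j)) (pt i) (pt j)) / 2 -
        s ^ 2 * K P X m x x / 2 + C) := by
  obtain ⟨C, hC, hest⟩ := h.cexp_est (Option ι) L hL
  refine ⟨C, hC, fun pt a lev ha x m s hs => ?_⟩
  set pt' : Option ι → T := fun o => o.elim x pt with hpt
  set a' : Option ι → ℝ := fun o => o.elim 0 a with ha'
  set s' : Option ι → ℝ := fun o => o.elim s (fun _ => 0) with hs'
  set lev' : Option ι → ℕ := fun o => o.elim m lev with hlev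
  have hn : ∀ i, lev' i ≤ Finset.univ.sup lev' := fun i => Finset.le_sup (Finset.mem_univ i)
  have h1 := hest pt' (coef a' lev') (coef s' lev') (fun i k => by
    unfold coef; split_ifs
    · match i with
      | none => simpa [ha'] using hL
      | some i => exact ha i
    · simpa using hL) (fun i k => by
    unfold coef; split_ifs
    · match i with
      | none => exact hs
      | some i => simpa [hs'] using hL
    · simpa using hL) (Finset.univ.sup lev')
  rw [h.sum_sq pt' a' lev' _ hn, h.sum_sq pt' s' lev' _ hn] at h1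
  simp_rw [sum_Yk pt' a' lev' _ hn, sum_Yk pt' s' lev' _ hn] at h1
  simp only [Fintype.sum_option, hpt, ha', hs', hlev, Option.elim, zero_mul, mul_zero,
    Finset.sum_const_zero, zero_add, add_zero, min_self] at h1
  have e1 : s * s * K P X m x x = s ^ 2 * K P X m x x := by ring
  rw [e1] at h1
  exact h1

/-- The local estimate. -/
theorem FieldHyp.local_est (h : FieldHyp P X) (ι : Type) [Fintype ι] (L c : ℝ) (hc : 0 < c)
    (hcL : c ≤ L) :
    ∃ C : ℝ, 0 ≤ C ∧ ∀ (pt : ι → T) (a : ι → ℝ) (lev : ι → ℕ), (∀ i, |a i| ≤ L) →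
      ∀ (x : T) (m : ℕ) (v : ℝ),
      ∫⁻ ω, ee (∑ i, a i * S X (lev i) ω (pt i)) *
        ENNReal.ofReal (Fej (c * S X m ω x - v)) ∂P ≤
      ee ((∑ i, ∑ j, a i * a j * K P X (min (lev i) (lev j)) (pt i) (pt j)) / 2 + C -
        Real.log (1 + K P X m x x) / 2) := by
  have hL : 0 ≤ L := hc.le.trans hcL
  obtain ⟨C, hC, hest⟩ := h.cexp_lev ι L hL
  obtain ⟨C', hC', hest'⟩ := h.exp_lev ι L hL
  set c2 : ℝ := min 1 (c ^ 2 / 2) with hc2
  have hc20 : 0 < c2 := lt_min one_pos (by positivity)
  refine ⟨C + Real.log 2 - Real.log c2 / 2, ?_, fun pt a lev ha x m v => ?_⟩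
  · have h1 : Real.log c2 ≤ 0 := Real.log_nonpos hc20.le (min_le_left _ _)
    have h2 : 0 < Real.log 2 := Real.log_pos (by norm_num)
    linarith
  obtain ⟨hint, -, -⟩ := hest' pt a lev ha
  set Y : Ω → ℝ := fun ω => ∑ i, a i * S X (lev i) ω (pt i) with hY
  set Z : Ω → ℝ := fun ω => c * S X m ω x with hZ
  have hYm : Measurable Y := Finset.measurable_sum _ fun i _ => (h.S_meas _ _).const_mul _
  have hZm : Measurable Z := (h.S_meas _ _).const_mul _
  set Q : ℝ := ∑ i, ∑ j, a i * a j * K P X (min (lev i) (lev j)) (pt i) (pt j) with hQ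
  set Kx : ℝ := K P X m x x with hKx
  have hKx0 : 0 ≤ Kx := h.K_diag_nonneg m x
  -- the pointwise integrand
  have hFm : Measurable (Function.uncurry fun (ω : Ω) (t : ℝ) =>
      Real.exp (Y ω) * ((1 - t) * Real.cos (t * (Z ω - v)))) := by
    have e1 : Measurable fun p : Ω × ℝ => Y p.1 := hYm.comp measurable_fst
    have e2 : Measurable fun p : Ω × ℝ => Z p.1 := hZm.comp measurable_fst
    have e3 : Measurable fun p : Ω × ℝ => p.2 := measurable_snd
    exact (Real.measurable_exp.comp e1).mul ((measurable_const.sub e3).mul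
      (Real.measurable_cos.comp (e3.mul (e2.sub measurable_const))))
  have hFi : Integrable (Function.uncurry fun (ω : Ω) (t : ℝ) =>
      Real.exp (Y ω) * ((1 - t) * Real.cos (t * (Z ω - v))))
      (P.prod (volume.restrict (Set.Ioc (0 : ℝ) 1))) := by
    have h1 : Integrable (fun p : Ω × ℝ => Real.exp (Y p.1) * 1)
        (P.prod (volume.restrict (Set.Ioc (0 : ℝ) 1))) :=
      Integrable.mul_prod (f := fun ω => Real.exp (Y ω)) (g := fun _ : ℝ => (1 : ℝ)) hint
        (integrable_const _)
    have hae : ∀ᵐ p : Ω × ℝ ∂(P.prod (volume.restrict (Set.Ioc (0 : ℝ) 1))),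
        p.2 ∈ Set.Ioc (0 : ℝ) 1 := by
      have h2 : ∀ᵐ t ∂(volume.restrict (Set.Ioc (0 : ℝ) 1)), t ∈ Set.Ioc (0 : ℝ) 1 :=
        ae_restrict_mem measurableSet_Ioc
      exact Measure.quasiMeasurePreserving_snd.ae h2
    refine h1.mono' hFm.aestronglyMeasurable ?_
    filter_upwards [hae] with p hp
    simp only [Function.uncurry, mul_one, Real.norm_eq_abs, abs_mul, Real.abs_exp]
    have h3 : |1 - p.2| ≤ 1 := by rw [abs_le]; constructor <;> linarith [hp.1, hp.2]
    have h4 := Real.abs_cos_le_one (p.2 * (Z p.1 - v))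
    calc Real.exp (Y p.1) * (|1 - p.2| * |Real.cos (p.2 * (Z p.1 - v))|)
        ≤ Real.exp (Y p.1) * (1 * 1) := by
          apply mul_le_mul_of_nonneg_left _ (Real.exp_pos _).le
          exact mul_le_mul h3 h4 (abs_nonneg _) zero_le_one
      _ = _ := by ring
  have hswap : ∫ ω, Real.exp (Y ω) * Fej (Z ω - v) ∂P =
      ∫ t in Set.Ioc (0 : ℝ) 1, ∫ ω, Real.exp (Y ω) * ((1 - t) * Real.cos (t * (Z ω - v))) ∂P := by
    rw [← integral_integral_swap hFi]
    apply integral_congr_ae
    refine Filter.Eventually.of_forall fun ω => ?_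
    simp only
    unfold Fej
    rw [intervalIntegral.integral_of_le (by norm_num), ← integral_const_mul]
  have hin : ∀ t ∈ Set.Ioc (0 : ℝ) 1,
      ∫ ω, Real.exp (Y ω) * ((1 - t) * Real.cos (t * (Z ω - v))) ∂P ≤
        Real.exp (Q / 2 + C) * Real.exp (-((c ^ 2 * Kx / 2) * t ^ 2)) := by
    intro t ht
    have hts : |t * c| ≤ L := by
      rw [abs_of_pos (mul_pos ht.1 hc)]
      nlinarith [ht.2]
    have h1 := hest pt a lev ha x m (t * c) hts
    have hre : ∫ ω, Real.exp (Y ω) * ((1 - t) * Real.cos (t * (Z ω - v))) ∂P =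
        (1 - t) * (Complex.exp (-((t * v : ℝ) : ℂ) * Complex.I) *
          ∫ ω, Complex.exp ((Y ω : ℂ) + ((t * c * S X m ω x : ℝ) : ℂ) * Complex.I) ∂P).re := by
      rw [← integral_const_mul]
      have hci : Integrable (fun ω => Complex.exp (-((t * v : ℝ) : ℂ) * Complex.I) *
          Complex.exp ((Y ω : ℂ) + ((t * c * S X m ω x : ℝ) : ℂ) * Complex.I)) P := by
        refine hint.mono' ?_ (Filter.Eventually.of_forall fun ω => ?_)
        · have m1 : Measurable fun ω => (Y ω : ℂ) := Complex.measurable_ofReal.comp hYm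
          have m2 : Measurable fun ω => ((t * c * S X m ω x : ℝ) : ℂ) :=
            Complex.measurable_ofReal.comp ((h.S_meas _ _).const_mul _)
          exact ((Complex.measurable_exp.comp (m1.add (m2.mul_const _))).const_mul
            _).aestronglyMeasurable
        · rw [← Complex.exp_add, Complex.norm_exp]
          apply le_of_eq
          congr 1
          simp [hY]
      have h2 := integral_re hci
      have h3 : (∫ ω, Complex.exp (-((t * v : ℝ) : ℂ) * Complex.I) *
          Complex.exp ((Y ω : ℂ) + ((t * c * S X m ω x : ℝ) : ℂ) * Complex.I) ∂P).re =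
          ∫ ω, (Complex.exp (-((t * v : ℝ) : ℂ) * Complex.I) *
          Complex.exp ((Y ω : ℂ) + ((t * c * S X m ω x : ℝ) : ℂ) * Complex.I)).re ∂P := by
        simpa using h2.symm
      rw [h3, ← integral_const_mul]
      apply integral_congr_ae
      refine Filter.Eventually.of_forall fun ω => ?_
      simp only
      rw [← Complex.exp_add]
      have e1 : -((t * v : ℝ) : ℂ) * Complex.I + ((Y ω : ℂ) +
          ((t * c * S X m ω x : ℝ) : ℂ) * Complex.I) =
          (Y ω : ℂ) + ((t * (Z ω - v) : ℝ) : ℂ) * Complex.I := by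
        simp only [hZ]
        push_cast
        ring
      rw [e1, Complex.exp_re]
      simp
      ring
    rw [hre]
    have h4 : (Complex.exp (-((t * v : ℝ) : ℂ) * Complex.I) *
          ∫ ω, Complex.exp ((Y ω : ℂ) + ((t * c * S X m ω x : ℝ) : ℂ) * Complex.I) ∂P).re ≤
        Real.exp (Q / 2 - (t * c) ^ 2 * Kx / 2 + C) := by
      refine (Complex.re_le_norm _).trans ?_
      rw [norm_mul]
      have e2 : ‖Complex.exp (-((t * v : ℝ) : ℂ) * Complex.I)‖ = 1 := by
        rw [Complex.norm_exp]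
        simp
      rw [e2, one_mul]
      exact h1
    have h5 : 0 ≤ 1 - t := by linarith [ht.2]
    have h6 : 1 - t ≤ 1 := by linarith [ht.1]
    calc _ ≤ (1 - t) * Real.exp (Q / 2 - (t * c) ^ 2 * Kx / 2 + C) :=
          mul_le_mul_of_nonneg_left h4 h5
      _ ≤ 1 * Real.exp (Q / 2 - (t * c) ^ 2 * Kx / 2 + C) :=
          mul_le_mul_of_nonneg_right h6 (Real.exp_pos _).le
      _ = _ := by
          rw [one_mul, ← Real.exp_add]
          congr 1
          ring
  have hmain : ∫ ω, Real.exp (Y ω) * Fej (Z ω - v) ∂P ≤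
      Real.exp (Q / 2 + C) * (2 / Real.sqrt (1 + c ^ 2 * Kx / 2)) := by
    rw [hswap]
    have hG := gauss_int (a := c ^ 2 * Kx / 2) (by positivity)
    calc ∫ t in Set.Ioc (0 : ℝ) 1,
          ∫ ω, Real.exp (Y ω) * ((1 - t) * Real.cos (t * (Z ω - v))) ∂P
        ≤ ∫ t in Set.Ioc (0 : ℝ) 1,
          Real.exp (Q / 2 + C) * Real.exp (-((c ^ 2 * Kx / 2) * t ^ 2)) := by
          apply setIntegral_mono_on hFi.integral_prod_right _ measurableSet_Ioc hin
          apply Integrable.const_mul
          rw [← IntegrableOn, ← intervalIntegrable_iff_integrableOn_Ioc_of_le (by norm_num)]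
          exact Continuous.intervalIntegrable (by fun_prop) _ _
      _ = Real.exp (Q / 2 + C) * ∫ t in (0 : ℝ)..1,
          Real.exp (-((c ^ 2 * Kx / 2) * t ^ 2)) := by
          rw [integral_const_mul, intervalIntegral.integral_of_le (by norm_num)]
      _ ≤ _ := mul_le_mul_of_nonneg_left hG (Real.exp_pos _).le
  -- conversion
  have hFejm : Measurable fun ω => Fej (Z ω - v) :=
    Fej_cont.measurable.comp (hZm.sub measurable_const)
  have hconv : ∫⁻ ω, ee (Y ω) * ENNReal.ofReal (Fej (Z ω - v)) ∂P =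
      ENNReal.ofReal (∫ ω, Real.exp (Y ω) * Fej (Z ω - v) ∂P) := by
    rw [ofReal_integral_eq_lintegral_ofReal]
    · apply lintegral_congr
      intro ω
      unfold ee
      rw [ENNReal.ofReal_mul (Real.exp_pos _).le]
    · have h1 := hFi.integral_prod_left
      refine h1.congr (Filter.Eventually.of_forall fun ω => ?_)
      simp only [Function.uncurry]
      unfold Fej
      rw [intervalIntegral.integral_of_le (by norm_num), ← integral_const_mul]
    · exact Filter.Eventually.of_forall fun ω => mul_nonneg (Real.exp_pos _).le (Fej_nonneg _)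
  rw [hconv]
  unfold ee
  apply ENNReal.ofReal_le_ofReal
  refine hmain.trans ?_
  have hb : c2 * (1 + Kx) ≤ 1 + c ^ 2 * Kx / 2 := by
    have h1 : c2 ≤ 1 := min_le_left _ _
    have h2 : c2 ≤ c ^ 2 / 2 := min_le_right _ _
    nlinarith
  have hsq : Real.exp ((Real.log c2 + Real.log (1 + Kx)) / 2) ≤ Real.sqrt (1 + c ^ 2 * Kx / 2) := by
    apply Real.le_sqrt_of_sq_le
    rw [← Real.exp_nat_mul]
    have e1 : ((2 : ℕ) : ℝ) * ((Real.log c2 + Real.log (1 + Kx)) / 2) =
        Real.log c2 + Real.log (1 + Kx) := by push_cast; ring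
    rw [e1, Real.exp_add, Real.exp_log hc20, Real.exp_log (by linarith)]
    exact hb
  have hpos : 0 < Real.exp ((Real.log c2 + Real.log (1 + Kx)) / 2) := Real.exp_pos _
  calc Real.exp (Q / 2 + C) * (2 / Real.sqrt (1 + c ^ 2 * Kx / 2))
      ≤ Real.exp (Q / 2 + C) * (2 / Real.exp ((Real.log c2 + Real.log (1 + Kx)) / 2)) := by
        apply mul_le_mul_of_nonneg_left _ (Real.exp_pos _).le
        exact div_le_div_of_nonneg_left (by norm_num) hpos hsq
    _ = _ := by
        have e2 : (2 : ℝ) = Real.exp (Real.log 2) := (Real.exp_log (by norm_num)).symm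
        rw [show (2 : ℝ) / Real.exp ((Real.log c2 + Real.log (1 + Kx)) / 2) =
          Real.exp (Real.log 2) / Real.exp ((Real.log c2 + Real.log (1 + Kx)) / 2) by rw [← e2],
          ← Real.exp_sub, ← Real.exp_add]
        congr 1
        ring

end

end Pool.Agent.Helper55.Chaos
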