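import Mathlib
import Pool.Agent.Helper55.Chaos.Holder
import Pool.Agent.Helper55.Chaos.Weights
import Pool.Agent.Helper55.Chaos.Rec

set_option autoImplicit false
set_option linter.unusedSectionVars false
set_option linter.unusedVariables false

open MeasureTheory ProbabilityTheory Finset
open scoped ENNReal

namespace Pool.Agent.Helper55.Chaos

/-- A weighted measure with its Gaussian data. -/
structure Wt (Ω T : Type*) [MeasurableSpace Ω] where
  μ : Measure Ω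
  Lam : ℝ
  ka : ℕ → T → ℝ

section
variable {Ω T : Type*} [MeasurableSpace Ω] {P : Measure Ω} [IsProbabilityMeasure P]
  [MetricSpace T] [SecondCountableTopology T] [MeasurableSpace T] [BorelSpace T] [Nonempty T]
  {X : ℕ → Ω → T → ℝ}

/-- A family of weighted measures with uniform exponential estimates. -/
structure WFam (P : Measure Ω) (X : ℕ → Ω → T → ℝ) (F : Set (Wt Ω T)) : Prop where
  sf : ∀ w ∈ F, SFinite w.μ
  gen : ∀ (N : ℕ) (b L : ℝ), 0 ≤ L → |b| ≤ L → ∃ C : ℝ, 0 ≤ C ∧ ∀ w ∈ F,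
    ∀ (xs : Fin N → T) (x0 y : T) (n m : ℕ) (u v : ℝ), m ≤ n → |u| ≤ L → |v| ≤ L →
    ∫⁻ ω, ee (tilt X b n xs ω + u * S X m ω x0 + v * S X n ω y) ∂w.μ ≤
      ee (w.Lam + b * ∑ i, w.ka n (xs i) + u * w.ka m x0 + v * w.ka n y +
        (b ^ 2 * QF P X n xs + u ^ 2 * K P X m x0 x0 + v ^ 2 * K P X n y y +
          2 * u * b * ∑ i, K P X m (xs i) x0 + 2 * v * b * ∑ i, K P X n (xs i) y +
          2 * u * v * K P X m x0 y) / 2 + C)

/-- Tonelli for a weighted measure. -/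
lemma FieldHyp.wtonelli (h : FieldHyp P X) (μ : Measure Ω) [SFinite μ] (ν : Measure T) [SFinite ν]
    (b : ℝ) (n : ℕ) (Q : Set T) {g : Ω → ℝ≥0∞} (hg : Measurable g) :
    ∫⁻ ω, g ω * mass P ν X b n Q ω ∂μ = ∫⁻ x in Q, (∫⁻ ω, g ω * Dn P X b n ω x ∂μ) ∂ν := by
  unfold mass
  have h1 : ∀ ω, g ω * ∫⁻ x in Q, Dn P X b n ω x ∂ν = ∫⁻ x in Q, g ω * Dn P X b n ω x ∂ν := by
    intro ω
    rw [lintegral_const_mul _ (h.Dn_meas_left b n ω)]
  simp_rw [h1]
  apply lintegral_lintegral_swap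
  apply Measurable.aemeasurable
  have h2 := h.Dn_meas_uncurry b n
  have h3 : Measurable fun p : Ω × T => Dn P X b n p.1 p.2 := h2.comp measurable_swap
  exact (hg.comp measurable_fst).mul h3

/-- Integrating against the density. -/
lemma FieldHyp.wint_D (h : FieldHyp P X) (μ : Measure Ω) {b CD : ℝ}
    (hD : ∀ (n : ℕ) (ω : Ω) (x : T),
      Dn P X b n ω x ≤ ee (b * S X n ω x - b ^ 2 * K P X n x x / 2 + CD) ∧
      ee (b * S X n ω x - b ^ 2 * K P X n x x / 2 - CD) ≤ Dn P X b n ω x)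
    {f : Ω → ℝ} (hf : Measurable f) (n : ℕ) (y : T) :
    ∫⁻ ω, ee (f ω) * Dn P X b n ω y ∂μ ≤
      (∫⁻ ω, ee (f ω + b * S X n ω y) ∂μ) * ee (CD - b ^ 2 * K P X n y y / 2) := by
  have hm : Measurable fun ω => ee (f ω + b * S X n ω y) :=
    measurable_ee (hf.add ((h.S_meas n y).const_mul _))
  rw [← lintegral_mul_const _ hm]
  apply lintegral_mono
  intro ω
  simp only
  rw [ee_add (f ω), mul_assoc]
  refine mul_le_mul_right ((hD n ω y).1.trans (le_of_eq ?_)) _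
  rw [← ee_add]; congr 1; ring

end

section
variable {Ω T : Type*} [MeasurableSpace Ω] {P : Measure Ω} [IsProbabilityMeasure P]
  [MetricSpace T] [SecondCountableTopology T] [MeasurableSpace T] [BorelSpace T] [Nonempty T]
  {X : ℕ → Ω → T → ℝ} (ν : Measure T) [IsFiniteMeasure ν]

/-- Hoelder lemma for exponents `q ≤ 1`. -/
theorem FieldHyp.wlemmaH (h : FieldHyp P X) {F : Set (Wt Ω T)} (hF : WFam P X F)
    (N : ℕ) (b q C2 : ℝ) (hb : 0 < b) (hq : 0 < q)
    (hq1 : q ≤ 1) :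
    ∃ C : ℝ, ∀ w ∈ F, ∀ (n m : ℕ) (xs : Fin N → T) (x0 : T) (Q : Set T) (s lk : ℝ)
      (l : Fin N → ℝ),
      MeasurableSet Q → m ≤ n → K P X m x0 x0 ≤ s + C2 → (∀ y ∈ Q, s - C2 ≤ K P X m x0 y) →
      (∀ i, ∀ y ∈ Q, K P X n (xs i) y ≤ l i) → (∀ y ∈ Q, w.ka n y ≤ lk) →
      ∫⁻ ω, ee (tilt X b n xs ω) * (mass P ν X b n Q ω) ^ q ∂w.μ ≤
        ee (w.Lam + b * ∑ i, w.ka n (xs i) + q * b * lk +
          (b ^ 2 * QF P X n xs / 2 + b ^ 2 * q * (q - 1) * s / 2 + q * b ^ 2 * ∑ i, l i + C)) *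
          (ν Q) ^ q := by
  obtain ⟨C, hC, hgen⟩ := hF.gen N b b hb.le (by rw [abs_of_pos hb])
  obtain ⟨CD, hCD, hD⟩ := h.Dn_bounds b
  refine ⟨C + CD + 2 * b ^ 2 * |C2|, ?_⟩
  intro W hW n m xs x0 Q s lk l hQ hmn hs1 hs2 hl hlk
  have := hF.sf W hW
  have hgen := hgen W hW
  -- the two functions
  set w : Ω → ℝ≥0∞ := fun ω => ee (tilt X b n xs ω + (q * b) * S X m ω x0) with hw
  set z : Ω → ℝ≥0∞ := fun ω => ee (tilt X b n xs ω + ((q - 1) * b) * S X m ω x0) *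
    mass P ν X b n Q ω with hz
  have hwm : Measurable w :=
    measurable_ee ((h.tilt_meas b n xs).add ((h.S_meas m x0).const_mul _))
  have hgm : Measurable (fun ω => ee (tilt X b n xs ω + ((q - 1) * b) * S X m ω x0)) :=
    measurable_ee ((h.tilt_meas b n xs).add ((h.S_meas m x0).const_mul _))
  have hzm : Measurable z := hgm.mul (h.mass_meas ν b n Q)
  have hpt : ∀ ω, ee (tilt X b n xs ω) * (mass P ν X b n Q ω) ^ q = w ω ^ (1 - q) * z ω ^ q := by
    intro ω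
    simp only [hw, hz]
    rw [ENNReal.mul_rpow_of_nonneg _ _ hq.le, ee_rpow, ee_rpow, ← mul_assoc, ← ee_add]
    congr 2
    ring
  simp_rw [hpt]
  refine (ENNReal.lintegral_mul_norm_pow_le hwm.aemeasurable hzm.aemeasurable
    (by linarith : (0 : ℝ) ≤ 1 - q) hq.le (by ring)).trans ?_
  have hC2 : C2 ≤ |C2| := le_abs_self _
  have hC2' : -|C2| ≤ C2 := neg_abs_le _
  have hb2 : 0 ≤ b ^ 2 := sq_nonneg b
  have habs1 : |q * b| ≤ b := by
    rw [abs_of_nonneg (by positivity)]; nlinarith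
  have habs2 : |(q - 1) * b| ≤ b := by
    rw [abs_mul, abs_of_pos hb, abs_of_nonpos (by linarith)]; nlinarith
  set sg : ℝ := ∑ i, K P X m (xs i) x0 with hsg
  set kx : ℝ := ∑ i, W.ka n (xs i) with hkx
  set k0 : ℝ := W.ka m x0 with hk0
  -- first factor
  have hf1 : ∫⁻ ω, w ω ∂W.μ ≤ ee (W.Lam + b * kx + (q * b) * k0 + (b ^ 2 * QF P X n xs +
      (q * b) ^ 2 * K P X m x0 x0 + 2 * (q * b) * b * sg) / 2 + C) := by
    have := hgen xs x0 x0 n m (q * b) 0 hmn habs1 (by simpa using hb.le)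
    simpa [hw, hsg, hkx, hk0] using this
  -- second factor
  have hf2 : ∫⁻ ω, z ω ∂W.μ ≤ ee (W.Lam + b * kx + ((q - 1) * b) * k0 + b * lk +
      (b ^ 2 * QF P X n xs + ((q - 1) * b) ^ 2 * K P X m x0 x0 +
      2 * ((q - 1) * b) * b * sg + 2 * b * b * (∑ i, l i) +
      2 * ((q - 1) * b) * b * (s - C2)) / 2 + C + CD) * ν Q := by
    simp only [hz]
    rw [h.wtonelli W.μ ν b n Q hgm]
    have hin : ∀ y ∈ Q, ∫⁻ ω, ee (tilt X b n xs ω + ((q - 1) * b) * S X m ω x0) *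
        Dn P X b n ω y ∂W.μ ≤ ee (W.Lam + b * kx + ((q - 1) * b) * k0 + b * lk +
      (b ^ 2 * QF P X n xs + ((q - 1) * b) ^ 2 * K P X m x0 x0 +
      2 * ((q - 1) * b) * b * sg + 2 * b * b * (∑ i, l i) +
      2 * ((q - 1) * b) * b * (s - C2)) / 2 + C + CD) := by
      intro y hy
      have h1 := hgen xs x0 y n m ((q - 1) * b) b hmn habs2 (by rw [abs_of_pos hb])
      calc ∫⁻ ω, ee (tilt X b n xs ω + ((q - 1) * b) * S X m ω x0) * Dn P X b n ω y ∂W.μ
          ≤ (∫⁻ ω, ee (tilt X b n xs ω + ((q - 1) * b) * S X m ω x0 + b * S X n ω y) ∂W.μ) *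
            ee (CD - b ^ 2 * K P X n y y / 2) :=
            h.wint_D W.μ hD ((h.tilt_meas b n xs).add ((h.S_meas m x0).const_mul _)) n y
        _ ≤ _ := by
            refine (mul_le_mul_left h1 _).trans ?_
            rw [← ee_add]
            apply ee_mono
            have h2 : ∑ i, K P X n (xs i) y ≤ ∑ i, l i := Finset.sum_le_sum fun i _ => hl i y hy
            have h3 := hs2 y hy
            have h4 : b * b * ∑ i, K P X n (xs i) y ≤ b * b * ∑ i, l i :=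
              mul_le_mul_of_nonneg_left h2 (by positivity)
            have h5 : (1 - q) * b * b * (s - C2) ≤ (1 - q) * b * b * K P X m x0 y :=
              mul_le_mul_of_nonneg_left h3
                (mul_nonneg (mul_nonneg (by linarith) hb.le) hb.le)
            have h6 : b * W.ka n y ≤ b * lk := mul_le_mul_of_nonneg_left (hlk y hy) hb.le
            rw [← hsg]
            nlinarith
    calc ∫⁻ x in Q, (∫⁻ ω, ee (tilt X b n xs ω + ((q - 1) * b) * S X m ω x0) *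
          Dn P X b n ω x ∂W.μ) ∂ν ≤ ∫⁻ x in Q, ee (W.Lam + b * kx + ((q - 1) * b) * k0 + b * lk +
          (b ^ 2 * QF P X n xs +
          ((q - 1) * b) ^ 2 * K P X m x0 x0 +
      2 * ((q - 1) * b) * b * sg + 2 * b * b * (∑ i, l i) +
      2 * ((q - 1) * b) * b * (s - C2)) / 2 + C + CD) ∂ν := setLIntegral_mono' hQ hin
      _ = _ := by rw [setLIntegral_const]
  calc (∫⁻ ω, w ω ∂W.μ) ^ (1 - q) * (∫⁻ ω, z ω ∂W.μ) ^ q
      ≤ (ee (W.Lam + b * kx + (q * b) * k0 + (b ^ 2 * QF P X n xs +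
      (q * b) ^ 2 * K P X m x0 x0 +
      2 * (q * b) * b * sg) / 2 + C)) ^ (1 - q) * (ee (W.Lam + b * kx + ((q - 1) * b) * k0 +
        b * lk + (b ^ 2 * QF P X n xs +
        ((q - 1) * b) ^ 2 * K P X m x0 x0 +
      2 * ((q - 1) * b) * b * sg + 2 * b * b * (∑ i, l i) +
      2 * ((q - 1) * b) * b * (s - C2)) / 2 + C + CD) * ν Q) ^ q :=
        mul_le_mul' (ENNReal.rpow_le_rpow hf1 (by linarith)) (ENNReal.rpow_le_rpow hf2 hq.le)
    _ ≤ _ := by
        rw [ENNReal.mul_rpow_of_nonneg _ _ hq.le, ee_rpow, ee_rpow, ← mul_assoc, ← ee_add]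
        refine mul_le_mul_left (ee_mono ?_) _
        have hK : q * (1 - q) * b ^ 2 * K P X m x0 x0 ≤ q * (1 - q) * b ^ 2 * (s + |C2|) :=
          mul_le_mul_of_nonneg_left (by linarith)
            (mul_nonneg (mul_nonneg hq.le (by linarith)) hb2)
        have hK2 : q * (1 - q) * b ^ 2 * C2 ≤ q * (1 - q) * b ^ 2 * |C2| :=
          mul_le_mul_of_nonneg_left hC2
            (mul_nonneg (mul_nonneg hq.le (by linarith)) hb2)
        have hK3 : q * (1 - q) * b ^ 2 * |C2| ≤ b ^ 2 * |C2| := by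
          have : q * (1 - q) ≤ 1 := by nlinarith
          have h0 : 0 ≤ b ^ 2 * |C2| := by positivity
          nlinarith
        have hqCD : q * CD ≤ CD := by nlinarith
        have hqC : (1 - q) * C + q * C = C := by ring
        nlinarith

/-- Jensen lemma for exponents `q ≥ 1`. -/
theorem FieldHyp.wlemmaJ (h : FieldHyp P X) {F : Set (Wt Ω T)} (hF : WFam P X F)
    (N : ℕ) (b q C2 : ℝ) (hb : 0 < b) (hq : 1 ≤ q) :
    ∃ C : ℝ, ∀ w ∈ F, ∀ (n : ℕ) (xs : Fin N → T) (Q : Set T) (s lk : ℝ) (l : Fin N → ℝ),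
      MeasurableSet Q → (∀ y ∈ Q, K P X n y y ≤ s + C2) →
      (∀ i, ∀ y ∈ Q, K P X n (xs i) y ≤ l i) → (∀ y ∈ Q, w.ka n y ≤ lk) →
      ∫⁻ ω, ee (tilt X b n xs ω) * (mass P ν X b n Q ω) ^ q ∂w.μ ≤
        ee (w.Lam + b * ∑ i, w.ka n (xs i) + q * b * lk +
          (b ^ 2 * QF P X n xs / 2 + b ^ 2 * q * (q - 1) * s / 2 + q * b ^ 2 * ∑ i, l i + C)) *
          (ν Q) ^ q := by
  have hq0 : 0 < q := by linarith
  obtain ⟨C, hC, hgen⟩ := hF.gen N b (q * b) (by positivity)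
    (by rw [abs_of_pos hb]; nlinarith)
  obtain ⟨CD, hCD, hD⟩ := h.Dn_bounds b
  refine ⟨C + q * CD + b ^ 2 * q * (q - 1) * |C2| / 2, ?_⟩
  intro W hW n xs Q s lk l hQ hs hl hlk
  have := hF.sf W hW
  have hgen := hgen W hW
  set kx : ℝ := ∑ i, W.ka n (xs i) with hkx
  have hin : ∀ y ∈ Q, ∫⁻ ω, ee (tilt X b n xs ω) * (Dn P X b n ω y) ^ q ∂W.μ ≤
      ee (W.Lam + b * kx + q * b * lk + (b ^ 2 * QF P X n xs / 2 + b ^ 2 * q * (q - 1) * s / 2 +
        q * b ^ 2 * ∑ i, l i +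
        (C + q * CD + b ^ 2 * q * (q - 1) * |C2| / 2))) := by
    intro y hy
    have h1 := hgen xs y y n n 0 (q * b) le_rfl (by simp; positivity)
      (by rw [abs_of_pos (by positivity)])
    have hm : Measurable fun ω => ee (tilt X b n xs ω + 0 * S X n ω y + (q * b) * S X n ω y) :=
      measurable_ee (((h.tilt_meas b n xs).add ((h.S_meas n y).const_mul _)).add
        ((h.S_meas n y).const_mul _))
    calc ∫⁻ ω, ee (tilt X b n xs ω) * (Dn P X b n ω y) ^ q ∂W.μ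
        ≤ ∫⁻ ω, ee (tilt X b n xs ω + 0 * S X n ω y + (q * b) * S X n ω y) *
          ee (q * CD - q * (b ^ 2 * K P X n y y / 2)) ∂W.μ := by
          apply lintegral_mono
          intro ω
          simp only
          refine (mul_le_mul_right (ENNReal.rpow_le_rpow (hD n ω y).1 hq0.le) _).trans
            (le_of_eq ?_)
          rw [ee_rpow, ← ee_add, ← ee_add]
          congr 1
          ring
      _ = (∫⁻ ω, ee (tilt X b n xs ω + 0 * S X n ω y + (q * b) * S X n ω y) ∂W.μ) *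
          ee (q * CD - q * (b ^ 2 * K P X n y y / 2)) := lintegral_mul_const _ hm
      _ ≤ _ := by
          refine (mul_le_mul_left h1 _).trans ?_
          rw [← ee_add]
          apply ee_mono
          have h2 : ∑ i, K P X n (xs i) y ≤ ∑ i, l i := Finset.sum_le_sum fun i _ => hl i y hy
          have h4 : q * b * b * ∑ i, K P X n (xs i) y ≤ q * b * b * ∑ i, l i :=
            mul_le_mul_of_nonneg_left h2 (by positivity)
          have h5 : q * (q - 1) * b ^ 2 * K P X n y y ≤ q * (q - 1) * b ^ 2 * (s + |C2|) :=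
            mul_le_mul_of_nonneg_left ((hs y hy).trans (by linarith [le_abs_self C2]))
              (mul_nonneg (mul_nonneg hq0.le (by linarith)) (sq_nonneg b))
          have h6 : q * b * W.ka n y ≤ q * b * lk :=
            mul_le_mul_of_nonneg_left (hlk y hy) (by positivity)
          nlinarith
  have hjm : Measurable fun p : Ω × T => (Dn P X b n p.1 p.2) ^ q :=
    ((h.Dn_meas_uncurry b n).comp measurable_swap).pow_const q
  have htm : Measurable fun ω => ee (tilt X b n xs ω) := measurable_ee (h.tilt_meas b n xs)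
  have hIm : Measurable fun ω => ∫⁻ y in Q, (Dn P X b n ω y) ^ q ∂ν :=
    hjm.lintegral_prod_right'
  have hprodm : Measurable fun ω => ee (tilt X b n xs ω) *
      ∫⁻ y in Q, (Dn P X b n ω y) ^ q ∂ν := htm.mul hIm
  calc ∫⁻ ω, ee (tilt X b n xs ω) * (mass P ν X b n Q ω) ^ q ∂W.μ
      ≤ ∫⁻ ω, ee (tilt X b n xs ω) * ((ν Q) ^ (q - 1) *
        ∫⁻ y in Q, (Dn P X b n ω y) ^ q ∂ν) ∂W.μ := by
        apply lintegral_mono
        intro ω
        exact mul_le_mul_right (h.mass_rpow_le ν b n Q hq ω) _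
    _ = (ν Q) ^ (q - 1) * ∫⁻ ω, ee (tilt X b n xs ω) *
        ∫⁻ y in Q, (Dn P X b n ω y) ^ q ∂ν ∂W.μ := by
        rw [← lintegral_const_mul _ hprodm]
        congr 1
        funext ω
        ring
    _ = (ν Q) ^ (q - 1) * ∫⁻ y in Q, (∫⁻ ω, ee (tilt X b n xs ω) *
        (Dn P X b n ω y) ^ q ∂W.μ) ∂ν := by
        congr 1
        have h1 : ∀ ω, ee (tilt X b n xs ω) * ∫⁻ y in Q, (Dn P X b n ω y) ^ q ∂ν =
            ∫⁻ y in Q, ee (tilt X b n xs ω) * (Dn P X b n ω y) ^ q ∂ν := by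
          intro ω
          rw [lintegral_const_mul _ ((h.Dn_meas_left b n ω).pow_const q)]
        simp_rw [h1]
        apply lintegral_lintegral_swap
        exact ((htm.comp measurable_fst).mul hjm).aemeasurable
    _ ≤ (ν Q) ^ (q - 1) * ∫⁻ y in Q, ee (W.Lam + b * kx + q * b * lk +
        (b ^ 2 * QF P X n xs / 2 +
        b ^ 2 * q * (q - 1) * s / 2 + q * b ^ 2 * ∑ i, l i +
        (C + q * CD + b ^ 2 * q * (q - 1) * |C2| / 2))) ∂ν :=
        mul_le_mul_right (setLIntegral_mono' hQ hin) _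
    _ = _ := by
        rw [setLIntegral_const, mul_comm, mul_assoc]
        congr 1
        rw [mul_comm]
        nth_rewrite 2 [← ENNReal.rpow_one (ν Q)]
        by_cases h0 : ν Q = 0
        · rw [h0, ENNReal.zero_rpow_of_pos hq0]
          simp
        · rw [← ENNReal.rpow_add _ _ h0 (measure_ne_top ν Q)]
          congr 1
          ring

/-- Both cases at the terminal scale `m = n`. -/
theorem FieldHyp.wlemmaT (h : FieldHyp P X) {F : Set (Wt Ω T)} (hF : WFam P X F)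
    (N : ℕ) (b q C2 : ℝ) (hb : 0 < b) (hq : 0 < q) :
    ∃ C : ℝ, ∀ w ∈ F, ∀ (n : ℕ) (xs : Fin N → T) (x0 : T) (Q : Set T) (s lk : ℝ)
      (l : Fin N → ℝ),
      MeasurableSet Q → (∀ y, K P X n y y ≤ s + C2) →
      (∀ y ∈ Q, s - C2 ≤ K P X n x0 y) →
      (∀ i, ∀ y ∈ Q, K P X n (xs i) y ≤ l i) → (∀ y ∈ Q, w.ka n y ≤ lk) →
      ∫⁻ ω, ee (tilt X b n xs ω) * (mass P ν X b n Q ω) ^ q ∂w.μ ≤
        ee (w.Lam + b * ∑ i, w.ka n (xs i) + q * b * lk +
          (b ^ 2 * QF P X n xs / 2 + b ^ 2 * q * (q - 1) * s / 2 + q * b ^ 2 * ∑ i, l i + C)) *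
          (ν Q) ^ q := by
  rcases le_total q 1 with h1 | h1
  · obtain ⟨C, hC⟩ := h.wlemmaH ν hF N b q C2 hb hq h1
    exact ⟨C, fun w hw n xs x0 Q s lk l hQ hs1 hs2 hl hlk =>
      hC w hw n n xs x0 Q s lk l hQ le_rfl (hs1 x0) hs2 hl hlk⟩
  · obtain ⟨C, hC⟩ := h.wlemmaJ ν hF N b q C2 hb h1
    exact ⟨C, fun w hw n xs x0 Q s lk l hQ hs1 hs2 hl hlk =>
      hC w hw n xs Q s lk l hQ (fun y _ => hs1 y) hl hlk⟩

end

end Pool.Agent.Helper55.Chaos
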