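import Mathlib
import Pool.Agent.Helper55.Tail.WFam

set_option autoImplicit false
set_option linter.unusedSectionVars false
set_option linter.unusedVariables false

open MeasureTheory ProbabilityTheory Finset
open scoped ENNReal

namespace Pool.Agent.Helper55.Chaos

section
variable {Ω T : Type*} [MeasurableSpace Ω] {P : Measure Ω} [IsProbabilityMeasure P]
  [MetricSpace T] [SecondCountableTopology T] [MeasurableSpace T] [BorelSpace T] [Nonempty T]
  {X : ℕ → Ω → T → ℝ} {ν : Measure T} [IsFiniteMeasure ν] {d : ℝ} {σ : ℕ → ℝ} {δ C0 cv : ℝ}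

/-- The main estimate as a statement about `(q, N)`, weighted version. -/
def WClaim (P : Measure Ω) (X : ℕ → Ω → T → ℝ) (ν : Measure T) (d : ℝ) (σ : ℕ → ℝ) (U : Set T)
    (F : Set (Wt Ω T)) (b q : ℝ) (N : ℕ) : Prop :=
  ∃ C : ℝ, ∀ w ∈ F, ∀ (n : ℕ) (r lk : ℝ) (xs : Fin N → T) (x0 : T) (Q : Set T),
    MeasurableSet Q →
    0 < r → r ≤ 1 → Real.exp (-σ n) ≤ r → x0 ∈ U → (∀ i, xs i ∈ U) → Q ⊆ U →
    (∀ y ∈ Q, dist x0 y ≤ 2 * r) → (∀ i, ∀ y ∈ Q, r ≤ dist (xs i) y) →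
    (∀ y ∈ Q, w.ka n y ≤ lk) →
    ∫⁻ ω, ee (tilt X b n xs ω) * (mass P ν X b n Q ω) ^ q ∂w.μ ≤
      ee (w.Lam + b * ∑ i, w.ka n (xs i) + q * b * lk +
        (b ^ 2 * QF P X n xs / 2 + q * b ^ 2 * ∑ i, Lg (xs i) x0 r +
        (d * q - b ^ 2 * q * (q - 1) / 2) * Real.log r + C))

/-- The terminal estimate, weighted version. -/
def WTClaim (P : Measure Ω) (X : ℕ → Ω → T → ℝ) (ν : Measure T) (d : ℝ) (σ : ℕ → ℝ) (U : Set T)
    (F : Set (Wt Ω T)) (b q : ℝ) (N : ℕ) : Prop :=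
  ∃ C : ℝ, ∀ w ∈ F, ∀ (n : ℕ) (xs : Fin N → T) (x0 : T) (Q : Set T) (lk : ℝ) (l : Fin N → ℝ),
    MeasurableSet Q →
    x0 ∈ U → Q ⊆ U →
    (∀ y ∈ Q, dist x0 y ≤ 2 * Real.exp (-σ n)) → (∀ i, ∀ y ∈ Q, K P X n (xs i) y ≤ l i) →
    (∀ y ∈ Q, w.ka n y ≤ lk) →
    ∫⁻ ω, ee (tilt X b n xs ω) * (mass P ν X b n Q ω) ^ q ∂w.μ ≤
      ee (w.Lam + b * ∑ i, w.ka n (xs i) + q * b * lk +
        (b ^ 2 * QF P X n xs / 2 + q * b ^ 2 * ∑ i, l i -
        (d * q - b ^ 2 * q * (q - 1) / 2) * σ n + C))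

theorem FieldHyp.wtclaim (h : FieldHyp P X) (hl : LogHyp P X ν d σ δ C0 cv) {U : Set T}
    {F : Set (Wt Ω T)} (hF : WFam P X F)
    (hU : ∀ x ∈ U, ∀ y ∈ U, dist x y ≤ δ) {b q : ℝ} (hb : 0 < b) (hq : 0 < q) (N : ℕ) :
    WTClaim P X ν d σ U F b q N := by
  obtain ⟨C, hC⟩ := h.wlemmaT ν hF N b q (C0 + Real.log 2) hb hq
  have hlog2 : 0 < Real.log 2 := Real.log_pos (by norm_num)
  refine ⟨C + q * (cv + d * Real.log 2), ?_⟩
  intro w hw n xs x0 Q lk l hQ hx0 hQU hQ0 hQl hlk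
  have h1 := hC w hw n xs x0 Q (σ n) lk l hQ
    (fun y => by have := (abs_le.1 (hl.diag n y)).2; linarith)
    (fun y hy => by
      have := hl.K_ge n (hU x0 hx0 y (hQU hy)) (Real.exp_pos _) (hQ0 y hy) le_rfl
      rw [Real.log_exp] at this
      linarith) hQl hlk
  refine h1.trans ?_
  have h2 := hl.vol_rpow (Real.exp_pos (-σ n)) hq.le hQ0
  rw [Real.log_exp] at h2
  refine (mul_le_mul_right h2 _).trans ?_
  rw [← ee_add]
  apply ee_mono
  apply le_of_eq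
  ring

/-- The base case `q ≤ 1`. -/
theorem FieldHyp.wclaim_base (h : FieldHyp P X) (hl : LogHyp P X ν d σ δ C0 cv) {U : Set T}
    {F : Set (Wt Ω T)} (hF : WFam P X F)
    (hU : ∀ x ∈ U, ∀ y ∈ U, dist x y ≤ δ) {b q : ℝ} (hb : 0 < b) (hq : 0 < q) (hq1 : q ≤ 1)
    (N : ℕ) : WClaim P X ν d σ U F b q N := by
  have hlog2 : 0 < Real.log 2 := Real.log_pos (by norm_num)
  have hC0 := hl.C0_nonneg
  obtain ⟨C, hC⟩ := h.wlemmaH ν hF N b q (C0 + C0 + Real.log 2) hb hq hq1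
  refine ⟨C + q * (cv + d * Real.log 2) + q * b ^ 2 * (N * (Real.log 3 + C0)), ?_⟩
  intro w hw n r lk xs x0 Q hQ hr hr1 hnr hx0 hxs hQU hQ0 hQx hlk
  -- choose the level `m`
  have hex : ∃ m, -Real.log r ≤ σ m := by
    refine ⟨n, ?_⟩
    have := Real.log_le_log (Real.exp_pos _) hnr
    rw [Real.log_exp] at this
    linarith
  classical
  set m := Nat.find hex with hm
  have hm1 : -Real.log r ≤ σ m := Nat.find_spec hex
  have hmn : m ≤ n := by
    apply Nat.find_min' hex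
    have := Real.log_le_log (Real.exp_pos _) hnr
    rw [Real.log_exp] at this
    linarith
  have hm2 : σ m ≤ -Real.log r + C0 := by
    rcases Nat.eq_zero_or_pos m with h0 | h0
    · rw [h0, hl.sig0]
      have := Real.log_nonpos hr.le hr1
      linarith
    · obtain ⟨k, hk⟩ : ∃ k, m = k + 1 := ⟨m - 1, by omega⟩
      have h3 : ¬ (-Real.log r ≤ σ k) := Nat.find_min hex (by omega)
      push Not at h3
      have := hl.incr k
      rw [hk]; linarith
  have hmr : Real.exp (-σ m) ≤ r := by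
    calc Real.exp (-σ m) ≤ Real.exp (Real.log r) := Real.exp_le_exp.2 (by linarith)
      _ = r := Real.exp_log hr
  have h1 := hC w hw n m xs x0 Q (σ m) lk (fun i => Lg (xs i) x0 r + (Real.log 3 + C0)) hQ hmn
    (by have := (abs_le.1 (hl.diag m x0)).2; linarith)
    (fun y hy => by
      have := hl.K_ge m (hU x0 hx0 y (hQU hy)) hr (hQ0 y hy) hmr
      linarith)
    (fun i y hy => by
      have h2 := hQx i y hy
      have h3 := hl.K_le_log n (hU _ (hxs i) y (hQU hy)) (lt_of_lt_of_le hr h2)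
      have h4 := log_dist_le hr h2 (hQ0 y hy)
      linarith) hlk
  refine h1.trans ?_
  refine (mul_le_mul_right (hl.vol_rpow hr hq.le hQ0) _).trans ?_
  rw [← ee_add]
  apply ee_mono
  rw [Finset.sum_add_distrib]
  simp only [Finset.sum_const, Finset.card_univ, Fintype.card_fin, nsmul_eq_mul]
  have h5 : b ^ 2 * q * (1 - q) * (-Real.log r) ≤ b ^ 2 * q * (1 - q) * σ m :=
    mul_le_mul_of_nonneg_left hm1 (mul_nonneg (by positivity) (by linarith))
  nlinarith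

end

end Pool.Agent.Helper55.Chaos
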