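import Mathlib
import Pool.Agent.Helper55.Tail.WRec
import Pool.Agent.Helper55.Tail.Local

set_option autoImplicit false
set_option linter.unusedSectionVars false
set_option linter.unusedVariables false

open MeasureTheory ProbabilityTheory Finset
open scoped ENNReal

namespace Pool.Agent.Helper55.Chaos

section
variable {Ω T : Type*} [MeasurableSpace Ω] {P : Measure Ω} [IsProbabilityMeasure P]
  [MetricSpace T] [SecondCountableTopology T] [MeasurableSpace T] [BorelSpace T] [Nonempty T]
  {X : ℕ → Ω → T → ℝ} {ν : Measure T} [IsFiniteMeasure ν] {d : ℝ} {σ : ℕ → ℝ} {δ C0 cv : ℝ}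

theorem FieldHyp.wclaim_all (h : FieldHyp P X) (hl : LogHyp P X ν d σ δ C0 cv) {U : Set T}
    {F : Set (Wt Ω T)} (hF : WFam P X F)
    (hU : ∀ x ∈ U, ∀ y ∈ U, dist x y ≤ δ) {b : ℝ} (hb : 0 < b) (k : ℕ) :
    ∀ q : ℝ, 0 < q → q ≤ k + 1 → b ^ 2 * q / 2 < d → ∀ N, WClaim P X ν d σ U F b q N := by
  induction k with
  | zero =>
    intro q hq hq1 _ N
    exact h.wclaim_base hl hF hU hb hq (by simpa using hq1) N
  | succ k ih =>
    intro q hq hq1 hqd N
    by_cases h1 : q ≤ 1
    · exact h.wclaim_base hl hF hU hb hq h1 N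
    · push Not at h1
      have hq' : 0 < q - 1 := by linarith
      have hqd' : b ^ 2 * (q - 1) / 2 < d := by
        have : 0 < b ^ 2 := by positivity
        nlinarith
      have := h.wclaim_step hl hF hU hb hq' (by
        have : q - 1 + 1 = q := by ring
        rw [this]; linarith) N
        (ih (q - 1) hq' (by push_cast at hq1; linarith) hqd' (N + 1))
        (h.wtclaim hl hF hU hb hq' (N + 1))
      simpa using this

/-- Moments of a set for a weighted measure, no extra points, both kinds of sets. -/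
theorem FieldHyp.wmass (h : FieldHyp P X) (hl : LogHyp P X ν d σ δ C0 cv) {U : Set T}
    {F : Set (Wt Ω T)} (hF : WFam P X F)
    (hU : ∀ x ∈ U, ∀ y ∈ U, dist x y ≤ δ) {b q : ℝ} (hb : 0 < b) (hq : 0 < q)
    (hqd : b ^ 2 * q / 2 < d) :
    ∃ C : ℝ, ∀ w ∈ F, ∀ (n : ℕ) (s lk : ℝ) (x0 : T) (Q : Set T), MeasurableSet Q →
      0 ≤ s → s ≤ σ n → x0 ∈ U → Q ⊆ U →
      (∀ y ∈ Q, dist x0 y ≤ 2 * Real.exp (-s)) → (∀ y ∈ Q, w.ka n y ≤ lk) →
      ∫⁻ ω, (mass P ν X b n Q ω) ^ q ∂w.μ ≤
        ee (w.Lam + q * b * lk - (d * q - b ^ 2 * q * (q - 1) / 2) * s + C) := by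
  obtain ⟨C, hC⟩ := h.wclaim_all hl hF hU hb ⌈q⌉₊ q hq
    ((Nat.le_ceil q).trans (by linarith)) hqd 0
  refine ⟨C, ?_⟩
  intro w hw n s lk x0 Q hQ hs hsn hx0 hQU hQd hk
  have h1 := hC w hw n (Real.exp (-s)) lk (fun i => x0) x0 Q hQ (Real.exp_pos _)
    (Real.exp_le_one_iff.2 (by linarith)) (Real.exp_le_exp.2 (by linarith)) hx0 (fun i => hx0)
    hQU hQd (fun i => i.elim0) hk
  simp only [tilt, QF, Finset.univ_eq_empty, Finset.sum_empty, ee_zero, one_mul, mul_zero,
    add_zero, zero_div, zero_add, Real.log_exp] at h1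
  refine h1.trans (ee_mono (le_of_eq ?_))
  ring

/-- The index of the weights: `(x, n', m0, m1, al, ga, v)`. -/
noncomputable def wtOf (P : Measure Ω) (X : ℕ → Ω → T → ℝ) (b : ℝ) (x : T) (n' m0 m1 : ℕ)
    (al ga v : ℝ) : Wt Ω T where
  μ := P.withDensity fun ω => ee (b * S X n' ω x + al * S X m0 ω x + ga * S X m1 ω x) *
    ENNReal.ofReal (Fej (b * S X m0 ω x - v))
  Lam := (b ^ 2 * K P X n' x x + al ^ 2 * K P X m0 x x + ga ^ 2 * K P X m1 x x +
    2 * b * al * K P X (min n' m0) x x + 2 * b * ga * K P X (min n' m1) x x +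
    2 * al * ga * K P X (min m0 m1) x x) / 2 - Real.log (1 + K P X m0 x x) / 2
  ka := fun n y => b * K P X (min n n') x y + al * K P X (min n m0) x y +
    ga * K P X (min n m1) x y

/-- The family of weights. -/
def wtFam (P : Measure Ω) (X : ℕ → Ω → T → ℝ) (b L : ℝ) : Set (Wt Ω T) :=
  {w | ∃ (x : T) (n' m0 m1 : ℕ) (al ga v : ℝ), |al| ≤ L ∧ |ga| ≤ L ∧
    w = wtOf P X b x n' m0 m1 al ga v}

theorem FieldHyp.wtFam_hyp (h : FieldHyp P X) {b : ℝ} (hb : 0 < b) {L0 : ℝ} (hL0 : 0 ≤ L0) :
    WFam P X (wtFam P X b L0) := by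
  constructor
  · rintro w ⟨x, n', m0, m1, al, ga, v, -, -, rfl⟩
    unfold wtOf
    infer_instance
  · intro N b' L hL hb'
    obtain ⟨C, hC, hest⟩ := h.local_est (Fin N ⊕ Fin 5) (max (max L L0) b) b hb (le_max_right _ _)
    refine ⟨C, hC, ?_⟩
    rintro w ⟨x, n', m0, m1, al, ga, vv, hal, hga, rfl⟩ xs x0 y n m u v hmn hu hv
    set pt : Fin N ⊕ Fin 5 → T := Sum.elim xs ![x0, y, x, x, x] with hpt
    set a : Fin N ⊕ Fin 5 → ℝ := Sum.elim (fun _ => b') ![u, v, b, al, ga] with ha
    set lev : Fin N ⊕ Fin 5 → ℕ := Sum.elim (fun _ => n) ![m, n, n', m0, m1] with hlev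
    have hM1 : L ≤ max (max L L0) b := (le_max_left _ _).trans (le_max_left _ _)
    have hM2 : L0 ≤ max (max L L0) b := (le_max_right _ _).trans (le_max_left _ _)
    have hM3 : b ≤ max (max L L0) b := le_max_right _ _
    have hbnd : ∀ i, |a i| ≤ max (max L L0) b := by
      intro i
      rcases i with i | i
      · exact hb'.trans hM1
      · fin_cases i
        · exact hu.trans hM1
        · exact hv.trans hM1
        · show |b| ≤ _
          rw [abs_of_pos hb]; exact hM3
        · exact hal.trans hM2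
        · exact hga.trans hM2
    have h1 := hest pt a lev hbnd x m0 vv
    have hsum : ∀ ω, ∑ i, a i * S X (lev i) ω (pt i) =
        (tilt X b' n xs ω + u * S X m ω x0 + v * S X n ω y) +
        (b * S X n' ω x + al * S X m0 ω x + ga * S X m1 ω x) := by
      intro ω
      rw [Fintype.sum_sum_type]
      simp only [ha, hlev, hpt, Sum.elim_inl, Sum.elim_inr, Fin.sum_univ_five, tilt]
      simp
      ring
    have hdens : ∫⁻ ω, ee (tilt X b' n xs ω + u * S X m ω x0 + v * S X n ω y)
        ∂(wtOf P X b x n' m0 m1 al ga vv).μ =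
        ∫⁻ ω, ee (∑ i, a i * S X (lev i) ω (pt i)) *
          ENNReal.ofReal (Fej (b * S X m0 ω x - vv)) ∂P := by
      unfold wtOf
      simp only
      have hm1 : Measurable fun ω => ee (tilt X b' n xs ω + u * S X m ω x0 + v * S X n ω y) :=
        measurable_ee (((h.tilt_meas b' n xs).add ((h.S_meas m x0).const_mul _)).add
          ((h.S_meas n y).const_mul _))
      have hm2 : Measurable fun ω => ee (b * S X n' ω x + al * S X m0 ω x + ga * S X m1 ω x) *
          ENNReal.ofReal (Fej (b * S X m0 ω x - vv)) := by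
        exact (measurable_ee ((((h.S_meas _ _).const_mul _).add
            ((h.S_meas _ _).const_mul _)).add ((h.S_meas _ _).const_mul _))).mul
          (Fej_cont.measurable.comp
            (((h.S_meas _ _).const_mul _).sub measurable_const)).ennreal_ofReal
      rw [lintegral_withDensity_eq_lintegral_mul _ hm2 hm1]
      apply lintegral_congr
      intro ω
      simp only [Pi.mul_apply]
      rw [hsum ω, ee_add (tilt X b' n xs ω + u * S X m ω x0 + v * S X n ω y)
        (b * S X n' ω x + al * S X m0 ω x + ga * S X m1 ω x)]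
      ring
    rw [hdens]
    refine h1.trans (ee_mono (le_of_eq ?_))
    have hquad : ∑ i, ∑ j, a i * a j * K P X (min (lev i) (lev j)) (pt i) (pt j) =
      b' ^ 2 * QF P X n xs + u ^ 2 * K P X m x0 x0 + v ^ 2 * K P X n y y +
          2 * u * b' * ∑ i, K P X m (xs i) x0 + 2 * v * b' * ∑ i, K P X n (xs i) y +
          2 * u * v * K P X m x0 y +
      (b ^ 2 * K P X n' x x + al ^ 2 * K P X m0 x x + ga ^ 2 * K P X m1 x x +
        2 * b * al * K P X (min n' m0) x x + 2 * b * ga * K P X (min n' m1) x x +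
        2 * al * ga * K P X (min m0 m1) x x) +
      2 * (b' * ∑ i, (b * K P X (min n n') x (xs i) + al * K P X (min n m0) x (xs i) +
          ga * K P X (min n m1) x (xs i)) +
        u * (b * K P X (min m n') x x0 + al * K P X (min m m0) x x0 +
          ga * K P X (min m m1) x x0) +
        v * (b * K P X (min n n') x y + al * K P X (min n m0) x y +
          ga * K P X (min n m1) x y)) := by
      rw [Fintype.sum_sum_type]
      simp only [Fintype.sum_sum_type, ha, hlev, hpt, Sum.elim_inl, Sum.elim_inr,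
        Fin.sum_univ_five, Matrix.cons_val_zero, Matrix.cons_val_one, Matrix.cons_val]
      simp only [min_self, min_eq_left hmn, min_eq_right hmn, min_comm n' n, min_comm m0 n,
        min_comm m1 n, min_comm n' m, min_comm m0 m, min_comm m1 m, min_comm m0 n',
        min_comm m1 n', min_comm m1 m0, Finset.sum_add_distrib, ← Finset.mul_sum]
      have e1 : ∀ k (z : T), ∑ i, K P X k z (xs i) = ∑ i, K P X k (xs i) z := fun k z =>
        Finset.sum_congr rfl fun i _ => K_symm _ _ _
      rw [K_symm m y x0, K_symm (min m n') x0 x, K_symm (min m m0) x0 x, K_symm (min m m1) x0 x,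
        K_symm (min n n') y x, K_symm (min n m0) y x, K_symm (min n m1) y x]
      have eQ : ∑ j, ∑ i, K P X n (xs i) (xs j) = QF P X n xs := Finset.sum_comm
      simp only [e1]
      rw [eQ]
      ring
    rw [hquad]
    unfold wtOf
    simp only
    ring

end

end Pool.Agent.Helper55.Chaos
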