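import Mathlib
import Pool.Agent.Helper55.Tail.WAll
import Pool.Agent.Helper55.Tail.OmSum

set_option autoImplicit false
set_option linter.unusedSectionVars false
set_option linter.unusedVariables false

open MeasureTheory ProbabilityTheory Finset
open scoped ENNReal

namespace Pool.Agent.Helper55.Chaos

section
variable {Ω T : Type*} [MeasurableSpace Ω] {P : Measure Ω} [IsProbabilityMeasure P]
  [MetricSpace T] [SecondCountableTopology T] [MeasurableSpace T] [BorelSpace T] [Nonempty T]
  {X : ℕ → Ω → T → ℝ} {ν : Measure T} [IsFiniteMeasure ν] {d : ℝ} {σ : ℕ → ℝ} {δ C0 cv : ℝ}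

open Classical in
/-- The first level at which the variance reaches the scale `j`. -/
noncomputable def lev (σ : ℕ → ℝ) (j : ℕ) : ℕ :=
  if h : ∃ m, sc j ≤ σ m then Nat.find h else 0

lemma LogHyp.lev_ex (hl : LogHyp P X ν d σ δ C0 cv) (j : ℕ) : ∃ m, sc j ≤ σ m :=
  (hl.top.eventually_ge_atTop (sc j)).exists

lemma LogHyp.lev_ge (hl : LogHyp P X ν d σ δ C0 cv) (j : ℕ) : sc j ≤ σ (lev σ j) := by
  classical
  unfold lev
  rw [dif_pos (hl.lev_ex j)]
  exact Nat.find_spec (hl.lev_ex j)

lemma LogHyp.lev_min (hl : LogHyp P X ν d σ δ C0 cv) {j n : ℕ} (h : sc j ≤ σ n) :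
    lev σ j ≤ n := by
  classical
  unfold lev
  rw [dif_pos (hl.lev_ex j)]
  exact Nat.find_min' _ h

lemma LogHyp.lev_le (hl : LogHyp P X ν d σ δ C0 cv) (j : ℕ) : σ (lev σ j) ≤ sc j + C0 := by
  rcases Nat.eq_zero_or_pos (lev σ j) with h0 | h0
  · rw [h0, hl.sig0]
    have := sc_nonneg j
    have := hl.C0_nonneg
    linarith
  · obtain ⟨k, hk⟩ : ∃ k, lev σ j = k + 1 := ⟨lev σ j - 1, by omega⟩
    have h3 : ¬ (sc j ≤ σ k) := fun h => by
      have := hl.lev_min h
      omega
    push Not at h3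
    have := hl.incr k
    rw [hk]; linarith

lemma LogHyp.lev_mono (hl : LogHyp P X ν d σ δ C0 cv) {i j : ℕ} (h : i ≤ j) :
    lev σ i ≤ lev σ j :=
  hl.lev_min ((sc_mono h).trans (hl.lev_ge j))

lemma LogHyp.min_lev (hl : LogHyp P X ν d σ δ C0 cv) (i j : ℕ) :
    min (lev σ i) (lev σ j) = lev σ (min i j) := by
  rcases le_total i j with h | h
  · rw [min_eq_left (hl.lev_mono h), min_eq_left h]
  · rw [min_eq_right (hl.lev_mono h), min_eq_right h]

lemma LogHyp.lev_zero (hl : LogHyp P X ν d σ δ C0 cv) : lev σ 0 = 0 := by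
  have h1 : lev σ 0 ≤ 0 := hl.lev_min (by rw [sc_zero, hl.sig0])
  omega

/-- The number of scales below level `n`. -/
noncomputable def Jn (σ : ℕ → ℝ) (n : ℕ) : ℕ := ⌊σ n / Real.log 2⌋₊

lemma LogHyp.sig_nonneg (hl : LogHyp P X ν d σ δ C0 cv) (n : ℕ) : 0 ≤ σ n := by
  rw [← hl.sig0]; exact hl.mono (Nat.zero_le n)

lemma LogHyp.Jn_le (hl : LogHyp P X ν d σ δ C0 cv) (n : ℕ) : sc (Jn σ n) ≤ σ n := by
  have hl2 : 0 < Real.log 2 := Real.log_pos (by norm_num)
  unfold sc Jn
  have := Nat.floor_le (div_nonneg (hl.sig_nonneg n) hl2.le)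
  rwa [le_div_iff₀ hl2] at this

lemma LogHyp.Jn_lt (hl : LogHyp P X ν d σ δ C0 cv) (n : ℕ) :
    σ n < sc (Jn σ n) + Real.log 2 := by
  have hl2 : 0 < Real.log 2 := Real.log_pos (by norm_num)
  unfold sc Jn
  have := Nat.lt_floor_add_one (σ n / Real.log 2)
  rw [div_lt_iff₀ hl2] at this
  linarith

lemma LogHyp.lev_le_n (hl : LogHyp P X ν d σ δ C0 cv) {n j : ℕ} (hj : j ≤ Jn σ n) :
    lev σ j ≤ n := hl.lev_min ((sc_mono hj).trans (hl.Jn_le n))

/-- Points at distance about `2^{-j}` (or at most that, for the last scale). -/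
def near (x y : T) (j J : ℕ) : Prop :=
  dist x y ≤ Real.exp (-sc j) ∧ (j < J → Real.exp (-sc (j + 1)) < dist x y)

/-- The constant in the kernel estimates. -/
noncomputable def C1of (C0 : ℝ) : ℝ := 2 * C0 + Real.log 2

lemma LogHyp.K_diag_lev (hl : LogHyp P X ν d σ δ C0 cv) (j : ℕ) (x : T) :
    |K P X (lev σ j) x x - sc j| ≤ C1of C0 := by
  have hl2 : 0 < Real.log 2 := Real.log_pos (by norm_num)
  have h1 := abs_le.1 (hl.diag (lev σ j) x)
  have h2 := hl.lev_ge j
  have h3 := hl.lev_le j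
  have h4 := hl.C0_nonneg
  unfold C1of
  rw [abs_le]
  constructor <;> linarith [h1.1, h1.2]

lemma LogHyp.K_near_lev (hl : LogHyp P X ν d σ δ C0 cv) {n i j : ℕ} {x y : T}
    (hxy : dist x y ≤ δ) (hi : i ≤ Jn σ n) (hj : j ≤ Jn σ n) (hnear : near x y j (Jn σ n)) :
    |K P X (lev σ i) x y - min (sc i) (sc j)| ≤ C1of C0 := by
  have hl2 : 0 < Real.log 2 := Real.log_pos (by norm_num)
  have h1 := abs_le.1 (hl.K_Lg (lev σ i) hxy)
  have h2 := hl.lev_ge i
  have h3 := hl.lev_le i
  have h4 := hl.C0_nonneg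
  -- bounds for the logarithm
  have hub : Lg x y (Real.exp (-σ (lev σ i))) ≤ min (sc i) (sc j) + Real.log 2 + C0 := by
    rcases lt_or_ge j (Jn σ n) with hjJ | hjJ
    · have h5 := hnear.2 hjJ
      have h6 : Lg x y (Real.exp (-σ (lev σ i))) ≤ sc j + Real.log 2 := by
        unfold Lg
        have h7 := Real.log_le_log (Real.exp_pos _)
          (h5.le.trans (le_max_left (dist x y) (Real.exp (-σ (lev σ i)))))
        rw [Real.log_exp, sc_succ] at h7
        linarith
      have h8 : Lg x y (Real.exp (-σ (lev σ i))) ≤ sc i + C0 := by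
        unfold Lg
        have h7 := Real.log_le_log (Real.exp_pos _)
          (le_max_right (dist x y) (Real.exp (-σ (lev σ i))))
        rw [Real.log_exp] at h7
        linarith
      rcases min_choice (sc i) (sc j) with h9 | h9 <;> rw [h9] <;> linarith
    · have h8 : Lg x y (Real.exp (-σ (lev σ i))) ≤ sc i + C0 := by
        unfold Lg
        have h7 := Real.log_le_log (Real.exp_pos _)
          (le_max_right (dist x y) (Real.exp (-σ (lev σ i))))
        rw [Real.log_exp] at h7
        linarith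
      have h9 : min (sc i) (sc j) = sc i := min_eq_left (sc_mono (hi.trans hjJ))
      rw [h9]; linarith
  have hlb : min (sc i) (sc j) ≤ Lg x y (Real.exp (-σ (lev σ i))) := by
    unfold Lg
    have h5 : max (dist x y) (Real.exp (-σ (lev σ i))) ≤ Real.exp (-min (sc i) (sc j)) := by
      apply max_le
      · refine hnear.1.trans (Real.exp_le_exp.2 ?_)
        have := min_le_right (sc i) (sc j)
        linarith
      · refine Real.exp_le_exp.2 ?_
        have := min_le_left (sc i) (sc j)
        linarith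
    have h6 := Real.log_le_log (lt_of_lt_of_le (Real.exp_pos _) (le_max_right _ _)) h5
    rw [Real.log_exp] at h6
    linarith
  unfold C1of
  rw [abs_le]
  constructor <;> linarith [h1.1, h1.2]

lemma LogHyp.K_near_n (hl : LogHyp P X ν d σ δ C0 cv) {n j : ℕ} {x y : T}
    (hxy : dist x y ≤ δ) (hj : j ≤ Jn σ n) (hnear : near x y j (Jn σ n)) :
    |K P X n x y - sc j| ≤ C1of C0 := by
  have hl2 : 0 < Real.log 2 := Real.log_pos (by norm_num)
  have h1 := abs_le.1 (hl.K_Lg n hxy)
  have h2 := hl.Jn_le n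
  have h3 := hl.Jn_lt n
  have h4 := hl.C0_nonneg
  have hub : Lg x y (Real.exp (-σ n)) ≤ sc j + Real.log 2 := by
    rcases lt_or_ge j (Jn σ n) with hjJ | hjJ
    · have h5 := hnear.2 hjJ
      unfold Lg
      have h7 := Real.log_le_log (Real.exp_pos _)
        (h5.le.trans (le_max_left (dist x y) (Real.exp (-σ n))))
      rw [Real.log_exp, sc_succ] at h7
      linarith
    · unfold Lg
      have h7 := Real.log_le_log (Real.exp_pos _)
        (le_max_right (dist x y) (Real.exp (-σ n)))
      rw [Real.log_exp] at h7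
      have h8 : j = Jn σ n := le_antisymm hj hjJ
      rw [h8]
      linarith
  have hlb : sc j ≤ Lg x y (Real.exp (-σ n)) := by
    unfold Lg
    have h5 : max (dist x y) (Real.exp (-σ n)) ≤ Real.exp (-sc j) := by
      apply max_le hnear.1
      exact Real.exp_le_exp.2 (by have := sc_mono hj; linarith)
    have h6 := Real.log_le_log (lt_of_lt_of_le (Real.exp_pos _) (le_max_right _ _)) h5
    rw [Real.log_exp] at h6
    linarith
  unfold C1of
  rw [abs_le]
  constructor <;> linarith [h1.1, h1.2]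

/-- Every point at distance at most one from `x` is near `x` at some scale. -/
lemma near_cover {x y : T} (J : ℕ) (h : dist x y ≤ 1) : ∃ j ≤ J, near x y j J := by
  classical
  have hl2 : 0 < Real.log 2 := Real.log_pos (by norm_num)
  by_cases h1 : dist x y ≤ Real.exp (-sc J)
  · exact ⟨J, le_rfl, h1, fun h2 => absurd h2 (lt_irrefl _)⟩
  · push Not at h1
    have hex : ∃ j, Real.exp (-sc j) < dist x y := ⟨J, h1⟩
    have h3 := Nat.find_spec hex
    have h4 : Nat.find hex ≤ J := Nat.find_min' hex h1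
    have h6 : 0 < Nat.find hex := by
      rcases Nat.eq_zero_or_pos (Nat.find hex) with h0 | h0
      · exfalso
        rw [h0, sc_zero, neg_zero, Real.exp_zero] at h3
        linarith
      · exact h0
    obtain ⟨j', hj'⟩ : ∃ j', Nat.find hex = j' + 1 := ⟨Nat.find hex - 1, by omega⟩
    refine ⟨j', by omega, ?_, fun _ => ?_⟩
    · have h7 : ¬ (Real.exp (-sc j') < dist x y) := Nat.find_min hex (by omega)
      push Not at h7
      exact h7
    · rw [← hj']; exact h3

end

end Pool.Agent.Helper55.Chaos
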