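import Mathlib
import Pool.Agent.Helper55.Tail.Scales

set_option autoImplicit false
set_option linter.unusedSectionVars false
set_option linter.unusedVariables false

open MeasureTheory ProbabilityTheory Finset
open scoped ENNReal

namespace Pool.Agent.Helper55.Chaos

/-- The log-Laplace exponent of the tilted walk. -/
noncomputable def ff (b be z : ℝ) : ℝ := b ^ 2 * z * (z - be) / 2

lemma err_le {c K k C : ℝ} (h : |K - k| ≤ C) : c * K ≤ c * k + |c| * C := by
  have h1 : c * (K - k) ≤ |c| * |K - k| := by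
    rw [← abs_mul]; exact le_abs_self _
  have h2 : |c| * |K - k| ≤ |c| * C := mul_le_mul_of_nonneg_left h (abs_nonneg _)
  linarith [mul_sub c K k]

/-- The exponent inequality. -/
lemma expo_ineq {b d be C1 Lm q : ℝ} (hd : d = b ^ 2 * (be + 1) / 2) (hC1 : 0 ≤ C1)
    (hLm : 0 ≤ Lm) (hq : 0 ≤ q) {al ga a s mn Kn K0 K1 K01 : ℝ} (hal : |al| ≤ Lm)
    (hga : |ga| ≤ Lm) (h0 : |K0 - a| ≤ C1) (h1 : |K1 - s| ≤ C1) (h01 : |K01 - mn| ≤ C1)
    (hK0 : 0 ≤ K0) (ha : 0 ≤ a) :
    -(b ^ 2 * Kn / 2) - (b ^ 2 / 2 + d) * (al * a + ga * s) +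
      ((b ^ 2 * Kn + (al * b) ^ 2 * K0 + (ga * b) ^ 2 * K1 + 2 * b * (al * b) * K0 +
        2 * b * (ga * b) * K1 + 2 * (al * b) * (ga * b) * K01) / 2 - Real.log (1 + K0) / 2) +
      q * b * (b * s + al * b * mn + ga * b * s) + q * b ^ 2 * (1 + 2 * Lm) * C1 -
      (d * q - b ^ 2 * q * (q - 1) / 2) * s ≤
    ff b be al * a + ff b be (ga + q) * s + b ^ 2 * al * (ga + q) * mn -
      Real.log (1 + a) / 2 + (b ^ 2 * (Lm ^ 2 + 2 * Lm) * C1 + b ^ 2 * Lm ^ 2 * C1 +
        q * b ^ 2 * (1 + 2 * Lm) * C1 + Real.log (1 + C1) / 2) := by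
  have hb2 : 0 ≤ b ^ 2 := sq_nonneg b
  have hal2 : al ^ 2 ≤ Lm ^ 2 := by rw [← sq_abs]; exact pow_le_pow_left₀ (abs_nonneg _) hal 2
  have hga2 : ga ^ 2 ≤ Lm ^ 2 := by rw [← sq_abs]; exact pow_le_pow_left₀ (abs_nonneg _) hga 2
  have e0 := err_le (c := b ^ 2 * (al ^ 2 + 2 * al) / 2) h0
  have e1 := err_le (c := b ^ 2 * (ga ^ 2 + 2 * ga) / 2) h1
  have e2 := err_le (c := b ^ 2 * (al * ga)) h01
  have c0 : |b ^ 2 * (al ^ 2 + 2 * al) / 2| ≤ b ^ 2 * (Lm ^ 2 + 2 * Lm) / 2 := by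
    rw [abs_div, abs_mul, abs_of_nonneg hb2, abs_two]
    have : |al ^ 2 + 2 * al| ≤ Lm ^ 2 + 2 * Lm := by
      refine (abs_add_le _ _).trans ?_
      rw [abs_mul, abs_two, abs_of_nonneg (sq_nonneg al)]
      linarith
    have := mul_le_mul_of_nonneg_left this hb2
    linarith
  have c1 : |b ^ 2 * (ga ^ 2 + 2 * ga) / 2| ≤ b ^ 2 * (Lm ^ 2 + 2 * Lm) / 2 := by
    rw [abs_div, abs_mul, abs_of_nonneg hb2, abs_two]
    have : |ga ^ 2 + 2 * ga| ≤ Lm ^ 2 + 2 * Lm := by
      refine (abs_add_le _ _).trans ?_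
      rw [abs_mul, abs_two, abs_of_nonneg (sq_nonneg ga)]
      linarith
    have := mul_le_mul_of_nonneg_left this hb2
    linarith
  have c2 : |b ^ 2 * (al * ga)| ≤ b ^ 2 * Lm ^ 2 := by
    rw [abs_mul, abs_of_nonneg hb2, abs_mul]
    apply mul_le_mul_of_nonneg_left _ hb2
    calc |al| * |ga| ≤ Lm * Lm := mul_le_mul hal hga (abs_nonneg _) hLm
      _ = Lm ^ 2 := by ring
  have d0 := mul_le_mul_of_nonneg_right c0 hC1
  have d1 := mul_le_mul_of_nonneg_right c1 hC1
  have d2 := mul_le_mul_of_nonneg_right c2 hC1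
  have hlog : Real.log (1 + a) ≤ Real.log (1 + K0) + Real.log (1 + C1) := by
    rw [← Real.log_mul (by linarith) (by linarith)]
    apply Real.log_le_log (by linarith)
    have := (abs_le.1 h0).1
    nlinarith
  unfold ff
  subst hd
  nlinarith

section
variable {Ω T : Type*} [MeasurableSpace Ω] {P : Measure Ω} [IsProbabilityMeasure P]
  [MetricSpace T] [SecondCountableTopology T] [MeasurableSpace T] [BorelSpace T] [Nonempty T]
  {X : ℕ → Ω → T → ℝ} {ν : Measure T} [IsFiniteMeasure ν] {d : ℝ} {σ : ℕ → ℝ} {δ C0 cv : ℝ}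

/-- The walk. -/
noncomputable def Vj (X : ℕ → Ω → T → ℝ) (b d : ℝ) (σ : ℕ → ℝ) (j : ℕ) (ω : Ω) (x : T) : ℝ :=
  b * S X (lev σ j) ω x - (b ^ 2 / 2 + d) * sc j

lemma FieldHyp.Vj_meas (h : FieldHyp P X) (b d : ℝ) (σ : ℕ → ℝ) (j : ℕ) (x : T) :
    Measurable fun ω => Vj X b d σ j ω x := by
  unfold Vj
  exact ((h.S_meas _ _).const_mul _).sub measurable_const

/-- General estimate with a window and the mass of a set at scale `j`. -/
theorem FieldHyp.gen1 (h : FieldHyp P X) (hl : LogHyp P X ν d σ δ C0 cv) {U : Set T}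
    (hU : ∀ x ∈ U, ∀ y ∈ U, dist x y ≤ δ) {b be q Lm : ℝ} (hb : 0 < b)
    (hd : d = b ^ 2 * (be + 1) / 2) (hLm : 0 ≤ Lm) (hq : 0 < q) (hqd : q < be + 1) :
    ∃ C : ℝ, ∀ (n : ℕ) (x : T) (j0 j : ℕ) (al ga v : ℝ) (Q : Set T), x ∈ U → j0 ≤ Jn σ n →
      j ≤ Jn σ n → |al| ≤ Lm → |ga| ≤ Lm → MeasurableSet Q → Q ⊆ U →
      (∀ y ∈ Q, near x y j (Jn σ n)) →
      ∫⁻ ω, Dn P X b n ω x * ee (al * Vj X b d σ j0 ω x + ga * Vj X b d σ j ω x) *
        ENNReal.ofReal (Fej (Vj X b d σ j0 ω x - v)) * (mass P ν X b n Q ω) ^ q ∂P ≤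
      ee (ff b be al * sc j0 + ff b be (ga + q) * sc j +
        b ^ 2 * al * (ga + q) * min (sc j0) (sc j) - Real.log (1 + sc j0) / 2 + C) := by
  have hC0 := hl.C0_nonneg
  have hl2 : 0 < Real.log 2 := Real.log_pos (by norm_num)
  have hC1 : 0 ≤ C1of C0 := by unfold C1of; linarith
  obtain ⟨CD, hCD, hD⟩ := h.Dn_bounds b
  have hqd' : b ^ 2 * q / 2 < d := by
    have : 0 < b ^ 2 := by positivity
    rw [hd]; nlinarith
  obtain ⟨C, hC⟩ := h.wmass hl (h.wtFam_hyp hb (L0 := Lm * b) (by positivity)) hU hb hq hqd'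
  refine ⟨CD + C + (b ^ 2 * (Lm ^ 2 + 2 * Lm) * C1of C0 + b ^ 2 * Lm ^ 2 * C1of C0 +
        q * b ^ 2 * (1 + 2 * Lm) * C1of C0 + Real.log (1 + C1of C0) / 2), ?_⟩
  intro n x j0 j al ga v Q hx hj0 hj hal hga hQ hQU hnear
  set m0 := lev σ j0 with hm0
  set m1 := lev σ j with hm1
  have hm0n : m0 ≤ n := hl.lev_le_n hj0
  have hm1n : m1 ≤ n := hl.lev_le_n hj
  set w : Wt Ω T := wtOf P X b x n m0 m1 (al * b) (ga * b) (v + (b ^ 2 / 2 + d) * sc j0) with hw
  have hwF : w ∈ wtFam P X b (Lm * b) := by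
    refine ⟨x, n, m0, m1, al * b, ga * b, _, ?_, ?_, rfl⟩
    · rw [abs_mul, abs_of_pos hb]; exact mul_le_mul_of_nonneg_right hal hb.le
    · rw [abs_mul, abs_of_pos hb]; exact mul_le_mul_of_nonneg_right hga hb.le
  have hlk : ∀ y ∈ Q, w.ka n y ≤ b * sc j + al * b * min (sc j0) (sc j) + ga * b * sc j +
      b * (1 + 2 * Lm) * C1of C0 := by
    intro y hy
    have hxy := hU x hx y (hQU hy)
    have k1 := hl.K_near_n hxy hj (hnear y hy)
    have k2 := hl.K_near_lev hxy hj0 hj (hnear y hy)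
    have k3 := hl.K_near_lev hxy hj hj (hnear y hy)
    rw [min_self] at k3
    rw [hw]
    unfold wtOf
    simp only [min_self, min_eq_right hm0n, min_eq_right hm1n]
    have e1 := err_le (c := b) k1
    have e2 := err_le (c := al * b) k2
    have e3 := err_le (c := ga * b) k3
    rw [abs_of_pos hb] at e1
    have c2 : |al * b| * C1of C0 ≤ Lm * b * C1of C0 := by
      rw [abs_mul, abs_of_pos hb]
      exact mul_le_mul_of_nonneg_right (mul_le_mul_of_nonneg_right hal hb.le) hC1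
    have c3 : |ga * b| * C1of C0 ≤ Lm * b * C1of C0 := by
      rw [abs_mul, abs_of_pos hb]
      exact mul_le_mul_of_nonneg_right (mul_le_mul_of_nonneg_right hga hb.le) hC1
    rw [← hm0] at e2
    rw [← hm1] at e3
    linarith
  have hmassm : Measurable fun ω => (mass P ν X b n Q ω) ^ q := (h.mass_meas ν b n Q).pow_const q
  have hWm : Measurable fun ω => ee (b * S X n ω x + al * b * S X m0 ω x + ga * b * S X m1 ω x) *
      ENNReal.ofReal (Fej (b * S X m0 ω x - (v + (b ^ 2 / 2 + d) * sc j0))) :=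
    (measurable_ee ((((h.S_meas _ _).const_mul _).add
      ((h.S_meas _ _).const_mul _)).add ((h.S_meas _ _).const_mul _))).mul
      (Fej_cont.measurable.comp (((h.S_meas _ _).const_mul _).sub measurable_const)).ennreal_ofReal
  have hWmm : Measurable fun ω =>
      (ee (b * S X n ω x + al * b * S X m0 ω x + ga * b * S X m1 ω x) *
      ENNReal.ofReal (Fej (b * S X m0 ω x - (v + (b ^ 2 / 2 + d) * sc j0)))) *
      (mass P ν X b n Q ω) ^ q := hWm.mul hmassm
  have h1 := hC w hwF n (sc j) _ x Q hQ (sc_nonneg j) ((sc_mono hj).trans (hl.Jn_le n)) hx hQU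
    (fun y hy => (hnear y hy).1.trans (by linarith [Real.exp_pos (-sc j)])) hlk
  have hpt : ∀ ω, Dn P X b n ω x * ee (al * Vj X b d σ j0 ω x + ga * Vj X b d σ j ω x) *
        ENNReal.ofReal (Fej (Vj X b d σ j0 ω x - v)) * (mass P ν X b n Q ω) ^ q ≤
      ee (CD - b ^ 2 * K P X n x x / 2 - (b ^ 2 / 2 + d) * (al * sc j0 + ga * sc j)) *
      ((ee (b * S X n ω x + al * b * S X m0 ω x + ga * b * S X m1 ω x) *
      ENNReal.ofReal (Fej (b * S X m0 ω x - (v + (b ^ 2 / 2 + d) * sc j0)))) *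
        (mass P ν X b n Q ω) ^ q) := by
    intro ω
    have e1 : Vj X b d σ j0 ω x - v = b * S X m0 ω x - (v + (b ^ 2 / 2 + d) * sc j0) := by
      unfold Vj; rw [← hm0]; ring
    rw [e1]
    have e2 : Dn P X b n ω x * ee (al * Vj X b d σ j0 ω x + ga * Vj X b d σ j ω x) ≤
        ee (CD - b ^ 2 * K P X n x x / 2 - (b ^ 2 / 2 + d) * (al * sc j0 + ga * sc j)) *
        ee (b * S X n ω x + al * b * S X m0 ω x + ga * b * S X m1 ω x) := by
      refine (mul_le_mul_left (hD n ω x).1 _).trans (le_of_eq ?_)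
      rw [← ee_add, ← ee_add]
      congr 1
      unfold Vj
      rw [← hm0, ← hm1]
      ring
    calc _ ≤ (ee (CD - b ^ 2 * K P X n x x / 2 - (b ^ 2 / 2 + d) * (al * sc j0 + ga * sc j)) *
        ee (b * S X n ω x + al * b * S X m0 ω x + ga * b * S X m1 ω x)) *
        ENNReal.ofReal (Fej (b * S X m0 ω x - (v + (b ^ 2 / 2 + d) * sc j0))) *
        (mass P ν X b n Q ω) ^ q := mul_le_mul_left (mul_le_mul_left e2 _) _
      _ = _ := by ring
  calc _ ≤ ∫⁻ ω, ee (CD - b ^ 2 * K P X n x x / 2 - (b ^ 2 / 2 + d) *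
      (al * sc j0 + ga * sc j)) *
      ((ee (b * S X n ω x + al * b * S X m0 ω x + ga * b * S X m1 ω x) *
      ENNReal.ofReal (Fej (b * S X m0 ω x - (v + (b ^ 2 / 2 + d) * sc j0)))) *
        (mass P ν X b n Q ω) ^ q) ∂P := lintegral_mono hpt
    _ = ee (CD - b ^ 2 * K P X n x x / 2 - (b ^ 2 / 2 + d) * (al * sc j0 + ga * sc j)) *
        ∫⁻ ω, (mass P ν X b n Q ω) ^ q ∂w.μ := by
        rw [lintegral_const_mul _ hWmm, hw]
        unfold wtOf
        simp only
        rw [lintegral_withDensity_eq_lintegral_mul _ hWm hmassm]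
        rfl
    _ ≤ _ := by
        refine (mul_le_mul_right h1 _).trans ?_
        rw [← ee_add]
        apply ee_mono
        have hex := expo_ineq (b := b) (d := d) (be := be) (C1 := C1of C0) (Lm := Lm) (q := q) hd
          hC1 hLm hq.le (al := al) (ga := ga) (a := sc j0) (s := sc j)
          (mn := min (sc j0) (sc j)) (Kn := K P X n x x) (K0 := K P X m0 x x)
          (K1 := K P X m1 x x) (K01 := K P X (min m0 m1) x x) hal hga
          (hl.K_diag_lev j0 x) (hl.K_diag_lev j x) (by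
            rw [hm0, hm1, hl.min_lev]
            have := hl.K_diag_lev (min j0 j) x
            have e3 : sc (min j0 j) = min (sc j0) (sc j) := by
              rcases le_total j0 j with h5 | h5
              · rw [min_eq_left h5, min_eq_left (sc_mono h5)]
              · rw [min_eq_right h5, min_eq_right (sc_mono h5)]
            rw [← e3]; exact this)
          (h.K_diag_nonneg _ _) (sc_nonneg j0)
        rw [hw]
        unfold wtOf
        simp only [min_eq_right hm0n, min_eq_right hm1n]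
        refine le_trans (le_of_eq ?_) (add_le_add_left hex (CD + C))|>.trans (le_of_eq ?_)
        · ring
        · ring

end

end Pool.Agent.Helper55.Chaos
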