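import Mathlib
import Pool.Agent.Helper55.Tail.Gen

set_option autoImplicit false
set_option linter.unusedSectionVars false
set_option linter.unusedVariables false

open MeasureTheory ProbabilityTheory Finset
open scoped ENNReal

namespace Pool.Agent.Helper55.Chaos

section
variable {Ω T : Type*} [MeasurableSpace Ω] {P : Measure Ω} [IsProbabilityMeasure P]
  [MetricSpace T] [SecondCountableTopology T] [MeasurableSpace T] [BorelSpace T] [Nonempty T]
  {X : ℕ → Ω → T → ℝ} {ν : Measure T} [IsFiniteMeasure ν] {d : ℝ} {σ : ℕ → ℝ} {δ C0 cv : ℝ}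

lemma sc_min (i j : ℕ) : sc (min i j) = min (sc i) (sc j) := by
  rcases le_total i j with h | h
  · rw [min_eq_left h, min_eq_left (sc_mono h)]
  · rw [min_eq_right h, min_eq_right (sc_mono h)]

/-- Expectation of an exponential functional with a window, in terms of the weights. -/
lemma FieldHyp.wt_int (h : FieldHyp P X) {b : ℝ} (x y : T) (n' m0 m1 m : ℕ) (al ga v u : ℝ) :
    ∫⁻ ω, ee (b * S X n' ω x + al * S X m0 ω x + ga * S X m1 ω x + u * S X m ω y) *
      ENNReal.ofReal (Fej (b * S X m0 ω x - v)) ∂P =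
    ∫⁻ ω, ee (tilt X b m (fun _ : Fin 0 => x) ω + 0 * S X m ω x + u * S X m ω y)
      ∂(wtOf P X b x n' m0 m1 al ga v).μ := by
  unfold wtOf
  simp only
  have hm1 : Measurable fun ω => ee (tilt X b m (fun _ : Fin 0 => x) ω + 0 * S X m ω x +
      u * S X m ω y) :=
    measurable_ee (((h.tilt_meas b m _).add ((h.S_meas m x).const_mul _)).add
      ((h.S_meas m y).const_mul _))
  have hm2 : Measurable fun ω => ee (b * S X n' ω x + al * S X m0 ω x + ga * S X m1 ω x) *
      ENNReal.ofReal (Fej (b * S X m0 ω x - v)) :=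
    (measurable_ee ((((h.S_meas _ _).const_mul _).add
            ((h.S_meas _ _).const_mul _)).add ((h.S_meas _ _).const_mul _))).mul
          (Fej_cont.measurable.comp
            (((h.S_meas _ _).const_mul _).sub measurable_const)).ennreal_ofReal
  rw [lintegral_withDensity_eq_lintegral_mul _ hm2 hm1]
  apply lintegral_congr
  intro ω
  simp only [Pi.mul_apply, tilt, Finset.univ_eq_empty, Finset.sum_empty, zero_add, zero_mul]
  rw [ee_add (b * S X n' ω x + al * S X m0 ω x + ga * S X m1 ω x)]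
  ring

/-- General estimate with a window, without mass. -/
theorem FieldHyp.gen0 (h : FieldHyp P X) (hl : LogHyp P X ν d σ δ C0 cv)
    {b be Lm : ℝ} (hb : 0 < b)
    (hd : d = b ^ 2 * (be + 1) / 2) (hLm : 0 ≤ Lm) :
    ∃ C : ℝ, ∀ (n : ℕ) (x : T) (j0 j : ℕ) (al ga v : ℝ), j0 ≤ Jn σ n →
      j ≤ Jn σ n → |al| ≤ Lm → |ga| ≤ Lm →
      ∫⁻ ω, Dn P X b n ω x * ee (al * Vj X b d σ j0 ω x + ga * Vj X b d σ j ω x) *
        ENNReal.ofReal (Fej (Vj X b d σ j0 ω x - v)) ∂P ≤
      ee (ff b be al * sc j0 + ff b be ga * sc j +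
        b ^ 2 * al * ga * min (sc j0) (sc j) - Real.log (1 + sc j0) / 2 + C) := by
  have hC0 := hl.C0_nonneg
  have hl2 : 0 < Real.log 2 := Real.log_pos (by norm_num)
  have hC1 : 0 ≤ C1of C0 := by unfold C1of; linarith
  obtain ⟨CD, hCD, hD⟩ := h.Dn_bounds b
  obtain ⟨C, hC, hgen⟩ := (h.wtFam_hyp hb (L0 := Lm * b) (by positivity)).gen 0 b b hb.le
    (by rw [abs_of_pos hb])
  refine ⟨CD + C + (b ^ 2 * (Lm ^ 2 + 2 * Lm) * C1of C0 + b ^ 2 * Lm ^ 2 * C1of C0 +
        0 * b ^ 2 * (1 + 2 * Lm) * C1of C0 + Real.log (1 + C1of C0) / 2), ?_⟩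
  intro n x j0 j al ga v hj0 hj hal hga
  set m0 := lev σ j0 with hm0
  set m1 := lev σ j with hm1
  have hm0n : m0 ≤ n := hl.lev_le_n hj0
  have hm1n : m1 ≤ n := hl.lev_le_n hj
  set w : Wt Ω T := wtOf P X b x n m0 m1 (al * b) (ga * b) (v + (b ^ 2 / 2 + d) * sc j0) with hw
  have hwF : w ∈ wtFam P X b (Lm * b) := by
    refine ⟨x, n, m0, m1, al * b, ga * b, _, ?_, ?_, rfl⟩
    · rw [abs_mul, abs_of_pos hb]; exact mul_le_mul_of_nonneg_right hal hb.le
    · rw [abs_mul, abs_of_pos hb]; exact mul_le_mul_of_nonneg_right hga hb.le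
  have hWm : Measurable fun ω => ee (b * S X n ω x + al * b * S X m0 ω x +
      ga * b * S X m1 ω x + 0 * S X n ω x) *
      ENNReal.ofReal (Fej (b * S X m0 ω x - (v + (b ^ 2 / 2 + d) * sc j0))) :=
    (measurable_ee (((((h.S_meas _ _).const_mul _).add
      ((h.S_meas _ _).const_mul _)).add ((h.S_meas _ _).const_mul _)).add
      ((h.S_meas _ _).const_mul _))).mul
      (Fej_cont.measurable.comp (((h.S_meas _ _).const_mul _).sub measurable_const)).ennreal_ofReal
  have h1 := hgen w hwF (fun _ : Fin 0 => x) x x n n 0 0 le_rfl (by simpa using hb.le)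
    (by simpa using hb.le)
  rw [hw, ← h.wt_int x x n m0 m1 n] at h1
  have hpt : ∀ ω, Dn P X b n ω x * ee (al * Vj X b d σ j0 ω x + ga * Vj X b d σ j ω x) *
        ENNReal.ofReal (Fej (Vj X b d σ j0 ω x - v)) ≤
      ee (CD - b ^ 2 * K P X n x x / 2 - (b ^ 2 / 2 + d) * (al * sc j0 + ga * sc j)) *
      (ee (b * S X n ω x + al * b * S X m0 ω x + ga * b * S X m1 ω x + 0 * S X n ω x) *
      ENNReal.ofReal (Fej (b * S X m0 ω x - (v + (b ^ 2 / 2 + d) * sc j0)))) := by
    intro ω
    have e1 : Vj X b d σ j0 ω x - v = b * S X m0 ω x - (v + (b ^ 2 / 2 + d) * sc j0) := by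
      unfold Vj; rw [← hm0]; ring
    rw [e1]
    have e2 : Dn P X b n ω x * ee (al * Vj X b d σ j0 ω x + ga * Vj X b d σ j ω x) ≤
        ee (CD - b ^ 2 * K P X n x x / 2 - (b ^ 2 / 2 + d) * (al * sc j0 + ga * sc j)) *
        ee (b * S X n ω x + al * b * S X m0 ω x + ga * b * S X m1 ω x + 0 * S X n ω x) := by
      refine (mul_le_mul_left (hD n ω x).1 _).trans (le_of_eq ?_)
      rw [← ee_add, ← ee_add]
      congr 1
      unfold Vj
      rw [← hm0, ← hm1]
      ring
    calc _ ≤ (ee (CD - b ^ 2 * K P X n x x / 2 - (b ^ 2 / 2 + d) * (al * sc j0 + ga * sc j)) *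
        ee (b * S X n ω x + al * b * S X m0 ω x + ga * b * S X m1 ω x + 0 * S X n ω x)) *
        ENNReal.ofReal (Fej (b * S X m0 ω x - (v + (b ^ 2 / 2 + d) * sc j0))) :=
          mul_le_mul_left e2 _
      _ = _ := by ring
  calc _ ≤ ∫⁻ ω, ee (CD - b ^ 2 * K P X n x x / 2 - (b ^ 2 / 2 + d) *
      (al * sc j0 + ga * sc j)) *
      (ee (b * S X n ω x + al * b * S X m0 ω x + ga * b * S X m1 ω x + 0 * S X n ω x) *
      ENNReal.ofReal (Fej (b * S X m0 ω x - (v + (b ^ 2 / 2 + d) * sc j0)))) ∂P :=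
        lintegral_mono hpt
    _ = ee (CD - b ^ 2 * K P X n x x / 2 - (b ^ 2 / 2 + d) * (al * sc j0 + ga * sc j)) *
        ∫⁻ ω, (ee (b * S X n ω x + al * b * S X m0 ω x + ga * b * S X m1 ω x + 0 * S X n ω x) *
      ENNReal.ofReal (Fej (b * S X m0 ω x - (v + (b ^ 2 / 2 + d) * sc j0)))) ∂P :=
        lintegral_const_mul _ hWm
    _ ≤ _ := by
        refine (mul_le_mul_right h1 _).trans ?_
        rw [← ee_add]
        apply ee_mono
        have hex := expo_ineq (b := b) (d := d) (be := be) (C1 := C1of C0) (Lm := Lm) (q := 0) hd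
          hC1 hLm le_rfl (al := al) (ga := ga) (a := sc j0) (s := sc j)
          (mn := min (sc j0) (sc j)) (Kn := K P X n x x) (K0 := K P X m0 x x)
          (K1 := K P X m1 x x) (K01 := K P X (min m0 m1) x x) hal hga
          (hl.K_diag_lev j0 x) (hl.K_diag_lev j x) (by
            rw [hm0, hm1, hl.min_lev]
            have := hl.K_diag_lev (min j0 j) x
            rw [← sc_min]; exact this)
          (h.K_diag_nonneg _ _) (sc_nonneg j0)
        unfold wtOf
        simp only [min_eq_right hm0n, min_eq_right hm1n, QF, Finset.univ_eq_empty,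
          Finset.sum_empty]
        refine le_trans (le_of_eq ?_) (add_le_add_left hex (CD + C))|>.trans (le_of_eq ?_)
        · ring
        · ring

/-- The window estimate with a second point at the same level. -/
theorem FieldHyp.gen2 (h : FieldHyp P X) (hl : LogHyp P X ν d σ δ C0 cv)
    {b be Lm : ℝ} (hb : 0 < b)
    (hd : d = b ^ 2 * (be + 1) / 2) (hLm : 0 ≤ Lm) :
    ∃ C : ℝ, ∀ (n : ℕ) (x y : T) (j : ℕ) (th v : ℝ), dist x y ≤ δ → j ≤ Jn σ n →
      near x y j (Jn σ n) → |th| ≤ Lm →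
      ∫⁻ ω, Dn P X b (lev σ j) ω x * ee (th * Vj X b d σ j ω x +
          b * (S X (lev σ j) ω x - S X (lev σ j) ω y)) *
        ENNReal.ofReal (Fej (Vj X b d σ j ω x - v)) ∂P ≤
      ee (ff b be th * sc j - Real.log (1 + sc j) / 2 + C) := by
  have hC0 := hl.C0_nonneg
  have hl2 : 0 < Real.log 2 := Real.log_pos (by norm_num)
  have hC1 : 0 ≤ C1of C0 := by unfold C1of; linarith
  obtain ⟨CD, hCD, hD⟩ := h.Dn_bounds b
  obtain ⟨C, hC, hgen⟩ := (h.wtFam_hyp hb (L0 := (Lm + 1) * b) (by positivity)).gen 0 b b hb.le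
    (by rw [abs_of_pos hb])
  refine ⟨CD + C + (b ^ 2 * (Lm + 4) ^ 2 * C1of C0 * 3 + Real.log (1 + C1of C0) / 2), ?_⟩
  intro n x y j th v hxy hj hnear hth
  set m := lev σ j with hm
  set w : Wt Ω T := wtOf P X b x m m m ((th + 1) * b) 0 (v + (b ^ 2 / 2 + d) * sc j) with hw
  have hth1 : |th + 1| ≤ Lm + 1 := by
    refine (abs_add_le _ _).trans ?_
    rw [abs_one]; linarith
  have hwF : w ∈ wtFam P X b ((Lm + 1) * b) := by
    refine ⟨x, m, m, m, (th + 1) * b, 0, _, ?_, ?_, rfl⟩
    · rw [abs_mul, abs_of_pos hb]; exact mul_le_mul_of_nonneg_right hth1 hb.le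
    · rw [abs_zero]; positivity
  have hWm : Measurable fun ω => ee (b * S X m ω x + (th + 1) * b * S X m ω x +
      0 * S X m ω x + (-b) * S X m ω y) *
      ENNReal.ofReal (Fej (b * S X m ω x - (v + (b ^ 2 / 2 + d) * sc j))) :=
    (measurable_ee (((((h.S_meas _ _).const_mul _).add
      ((h.S_meas _ _).const_mul _)).add ((h.S_meas _ _).const_mul _)).add
      ((h.S_meas _ _).const_mul _))).mul
      (Fej_cont.measurable.comp (((h.S_meas _ _).const_mul _).sub measurable_const)).ennreal_ofReal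
  have h1 := hgen w hwF (fun _ : Fin 0 => x) x y m m 0 (-b) le_rfl (by simpa using hb.le)
    (by rw [abs_neg, abs_of_pos hb])
  rw [hw, ← h.wt_int x y m m m m] at h1
  have hpt : ∀ ω, Dn P X b m ω x * ee (th * Vj X b d σ j ω x +
          b * (S X m ω x - S X m ω y)) *
        ENNReal.ofReal (Fej (Vj X b d σ j ω x - v)) ≤
      ee (CD - b ^ 2 * K P X m x x / 2 - (b ^ 2 / 2 + d) * (th * sc j)) *
      (ee (b * S X m ω x + (th + 1) * b * S X m ω x + 0 * S X m ω x + (-b) * S X m ω y) *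
      ENNReal.ofReal (Fej (b * S X m ω x - (v + (b ^ 2 / 2 + d) * sc j)))) := by
    intro ω
    have e1 : Vj X b d σ j ω x - v = b * S X m ω x - (v + (b ^ 2 / 2 + d) * sc j) := by
      unfold Vj; rw [← hm]; ring
    rw [e1]
    have e2 : Dn P X b m ω x * ee (th * Vj X b d σ j ω x + b * (S X m ω x - S X m ω y)) ≤
        ee (CD - b ^ 2 * K P X m x x / 2 - (b ^ 2 / 2 + d) * (th * sc j)) *
        ee (b * S X m ω x + (th + 1) * b * S X m ω x + 0 * S X m ω x + (-b) * S X m ω y) := by
      refine (mul_le_mul_left (hD m ω x).1 _).trans (le_of_eq ?_)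
      rw [← ee_add, ← ee_add]
      congr 1
      unfold Vj
      rw [← hm]
      ring
    calc _ ≤ (ee (CD - b ^ 2 * K P X m x x / 2 - (b ^ 2 / 2 + d) * (th * sc j)) *
        ee (b * S X m ω x + (th + 1) * b * S X m ω x + 0 * S X m ω x + (-b) * S X m ω y)) *
        ENNReal.ofReal (Fej (b * S X m ω x - (v + (b ^ 2 / 2 + d) * sc j))) :=
          mul_le_mul_left e2 _
      _ = _ := by ring
  calc _ ≤ ∫⁻ ω, ee (CD - b ^ 2 * K P X m x x / 2 - (b ^ 2 / 2 + d) * (th * sc j)) *
      (ee (b * S X m ω x + (th + 1) * b * S X m ω x + 0 * S X m ω x + (-b) * S X m ω y) *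
      ENNReal.ofReal (Fej (b * S X m ω x - (v + (b ^ 2 / 2 + d) * sc j)))) ∂P :=
        lintegral_mono hpt
    _ = ee (CD - b ^ 2 * K P X m x x / 2 - (b ^ 2 / 2 + d) * (th * sc j)) *
        ∫⁻ ω, (ee (b * S X m ω x + (th + 1) * b * S X m ω x + 0 * S X m ω x +
          (-b) * S X m ω y) *
      ENNReal.ofReal (Fej (b * S X m ω x - (v + (b ^ 2 / 2 + d) * sc j)))) ∂P :=
        lintegral_const_mul _ hWm
    _ ≤ _ := by
        refine (mul_le_mul_right h1 _).trans ?_
        rw [← ee_add]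
        apply ee_mono
        unfold wtOf
        simp only [min_self, QF, Finset.univ_eq_empty, Finset.sum_empty]
        have kx := hl.K_diag_lev j x
        have ky := hl.K_diag_lev j y
        have kxy := hl.K_near_lev hxy hj hj hnear
        rw [min_self] at kxy
        rw [← hm] at kx ky kxy
        have hK0 := h.K_diag_nonneg m x
        have ha := sc_nonneg j
        have hlog : Real.log (1 + sc j) ≤ Real.log (1 + K P X m x x) + Real.log (1 + C1of C0) := by
          rw [← Real.log_mul (by linarith) (by linarith)]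
          apply Real.log_le_log (by linarith)
          have := (abs_le.1 kx).1
          nlinarith
        have hb2 : 0 ≤ b ^ 2 := sq_nonneg b
        have e0 := err_le (c := b ^ 2 * ((th + 1) ^ 2 + 2 * (th + 1)) / 2) kx
        have e1 := err_le (c := b ^ 2 / 2) ky
        have e2 := err_le (c := -(b ^ 2 * (th + 2))) kxy
        have hth' := abs_le.1 hth
        have habs1 : |(th + 1) ^ 2 + 2 * (th + 1)| ≤ 2 * (Lm + 4) ^ 2 := by
          rw [abs_le]; constructor <;> nlinarith
        have habs2 : |th + 2| ≤ (Lm + 4) ^ 2 := by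
          rw [abs_le]; constructor <;> nlinarith
        have c0 : |b ^ 2 * ((th + 1) ^ 2 + 2 * (th + 1)) / 2| ≤ b ^ 2 * (Lm + 4) ^ 2 := by
          rw [abs_div, abs_mul, abs_of_nonneg hb2, abs_two]
          have := mul_le_mul_of_nonneg_left habs1 hb2
          linarith
        have c1 : |b ^ 2 / 2| ≤ b ^ 2 * (Lm + 4) ^ 2 := by
          rw [abs_of_nonneg (by positivity)]
          have h16 : 1 ≤ (Lm + 4) ^ 2 := by nlinarith
          have := mul_le_mul_of_nonneg_left h16 hb2
          linarith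
        have c2 : |-(b ^ 2 * (th + 2))| ≤ b ^ 2 * (Lm + 4) ^ 2 := by
          rw [abs_neg, abs_mul, abs_of_nonneg hb2]
          exact mul_le_mul_of_nonneg_left habs2 hb2
        have d0 := mul_le_mul_of_nonneg_right c0 hC1
        have d1 := mul_le_mul_of_nonneg_right c1 hC1
        have d2 := mul_le_mul_of_nonneg_right c2 hC1
        unfold ff
        subst hd
        linarith

end

end Pool.Agent.Helper55.Chaos
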