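import Mathlib
import Pool.Agent.Helper55.Tail.Gen0

set_option autoImplicit false
set_option linter.unusedSectionVars false
set_option linter.unusedVariables false

open MeasureTheory ProbabilityTheory Finset
open scoped ENNReal

namespace Pool.Agent.Helper55.Chaos

open Classical in
/-- The indicator of the window `[v, v+1]`. -/
noncomputable def win (v u : ℝ) : ℝ≥0∞ := if v ≤ u ∧ u ≤ v + 1 then 1 else 0

lemma win_meas (v : ℝ) : Measurable (win v) := by
  unfold win
  exact Measurable.ite ((measurableSet_le measurable_const measurable_id).inter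
    (measurableSet_le measurable_id measurable_const)) measurable_const measurable_const

lemma win_le {th Th v u : ℝ} (hth : |th| ≤ Th) :
    win v u ≤ ee (Real.log 4 + Th) * (ee (th * (u - v)) * ENNReal.ofReal (Fej (u - v))) := by
  unfold win
  split_ifs with h
  · have h1 : |u - v| ≤ 1 := by rw [abs_le]; constructor <;> linarith [h.1, h.2]
    have h2 := Fej_ge h1
    have h3 : 0 ≤ Th + th * (u - v) := by
      have : |th * (u - v)| ≤ Th := by
        rw [abs_mul]
        calc |th| * |u - v| ≤ Th * 1 :=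
              mul_le_mul hth h1 (abs_nonneg _) ((abs_nonneg _).trans hth)
          _ = Th := mul_one _
      linarith [(abs_le.1 this).1]
    rw [← mul_assoc, ← ee_add]
    calc (1 : ℝ≥0∞) = ee (Real.log 4) * ENNReal.ofReal (1 / 4) := by
          rw [ee_log (by norm_num), ← ENNReal.ofReal_mul (by norm_num)]
          norm_num
      _ ≤ _ := by
          apply mul_le_mul' (ee_mono (by linarith)) (ENNReal.ofReal_le_ofReal h2)
  · exact zero_le

/-- Choice of the small tilt. -/
lemma eta_ex {B lam a : ℝ} (hB : 0 ≤ B) (hlam : 0 < lam) (ha : 0 ≤ a) (D : ℝ) :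
    ∃ eta : ℝ, |eta| ≤ lam ∧
      -eta * D + B * eta ^ 2 * a / 2 ≤ -(lam * |D| / Real.sqrt (1 + a)) + B * lam ^ 2 / 2 := by
  have hs : 1 ≤ Real.sqrt (1 + a) := Real.one_le_sqrt.2 (by linarith)
  have hs0 : 0 < Real.sqrt (1 + a) := by linarith
  have hsq : Real.sqrt (1 + a) ^ 2 = 1 + a := Real.sq_sqrt (by linarith)
  have hle : lam / Real.sqrt (1 + a) ≤ lam := div_le_self hlam.le hs
  have hq : B * (lam / Real.sqrt (1 + a)) ^ 2 * a / 2 ≤ B * lam ^ 2 / 2 := by
    have h1 : (lam / Real.sqrt (1 + a)) ^ 2 * a ≤ lam ^ 2 := by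
      rw [div_pow, hsq, div_mul_eq_mul_div, div_le_iff₀ (by linarith)]
      nlinarith [sq_nonneg lam]
    have := mul_le_mul_of_nonneg_left h1 hB
    linarith
  rcases le_total 0 D with hD | hD
  · refine ⟨lam / Real.sqrt (1 + a), ?_, ?_⟩
    · rw [abs_of_nonneg (by positivity)]; exact hle
    · rw [abs_of_nonneg hD]
      have : -(lam / Real.sqrt (1 + a)) * D = -(lam * D / Real.sqrt (1 + a)) := by ring
      linarith
  · refine ⟨-(lam / Real.sqrt (1 + a)), ?_, ?_⟩
    · rw [abs_neg, abs_of_nonneg (by positivity)]; exact hle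
    · rw [abs_of_nonpos hD]
      have : -(-(lam / Real.sqrt (1 + a))) * D = -(lam * -D / Real.sqrt (1 + a)) := by ring
      rw [neg_sq]
      linarith

/-- The exponent identity for the decoupled estimate. -/
lemma expo_half {b be eta a s v : ℝ} (hbe : 0 < be) (heta : |eta| ≤ be / 8) :
    ff b be (be / 2 + eta) * a + ff b be (be / 2) * s +
      b ^ 2 * (be / 2 + eta) * (be / 2) * min a s - (be + eta) * v ≤
    -(be * v) - b ^ 2 * be ^ 2 / 16 * |s - a| +
      (-eta * (v - b ^ 2 * be / 2 * a) + b ^ 2 * eta ^ 2 * a / 2) := by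
  have he := abs_le.1 heta
  have hb2 : 0 ≤ b ^ 2 := sq_nonneg b
  unfold ff
  rcases le_total a s with h | h
  · rw [min_eq_left h, abs_of_nonneg (by linarith)]
    have h1 : 0 ≤ b ^ 2 * be ^ 2 * (s - a) :=
      mul_nonneg (mul_nonneg hb2 (sq_nonneg be)) (by linarith)
    nlinarith
  · rw [min_eq_right h, abs_of_nonpos (by linarith)]
    have h1 : 0 ≤ b ^ 2 * be * (be / 8 + eta) * (a - s) :=
      mul_nonneg (mul_nonneg (mul_nonneg hb2 hbe.le) (by linarith)) (by linarith)
    nlinarith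

section
variable {Ω T : Type*} [MeasurableSpace Ω] {P : Measure Ω} [IsProbabilityMeasure P]
  [MetricSpace T] [SecondCountableTopology T] [MeasurableSpace T] [BorelSpace T] [Nonempty T]
  {X : ℕ → Ω → T → ℝ} {ν : Measure T} [IsFiniteMeasure ν] {d : ℝ} {σ : ℕ → ℝ} {δ C0 cv : ℝ}

/-- Main estimate with mass. -/
theorem FieldHyp.est_mass (h : FieldHyp P X) (hl : LogHyp P X ν d σ δ C0 cv) {U : Set T}
    (hU : ∀ x ∈ U, ∀ y ∈ U, dist x y ≤ δ) {b be q : ℝ} (hb : 0 < b) (hbe : 0 < be)
    (hd : d = b ^ 2 * (be + 1) / 2) (hq : 0 < q) (hqd : q < be + 1) :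
    ∃ C : ℝ, ∀ (n : ℕ) (x : T) (j0 j : ℕ) (v : ℝ) (Q : Set T), x ∈ U → j0 ≤ Jn σ n →
      j ≤ Jn σ n → MeasurableSet Q → Q ⊆ U → (∀ y ∈ Q, near x y j (Jn σ n)) →
      ∫⁻ ω, Dn P X b n ω x * win v (Vj X b d σ j0 ω x) *
        (ee (-(be / 2) * (Vj X b d σ j0 ω x - Vj X b d σ j ω x) - q * Vj X b d σ j ω x) *
          (mass P ν X b n Q ω) ^ q) ∂P ≤
      ee (C - be * v - b ^ 2 * be ^ 2 / 16 * |sc j - sc j0| +
        om (be / 8) (b ^ 2 * be / 2) j0 v) := by
  obtain ⟨C, hC⟩ := h.gen1 hl hU hb hd (Lm := be + q) (by positivity) hq hqd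
  refine ⟨C + Real.log 4 + 2 * be + b ^ 2 * (be / 8) ^ 2 / 2, ?_⟩
  intro n x j0 j v Q hx hj0 hj hQ hQU hnear
  obtain ⟨eta, heta, hetab⟩ := eta_ex (sq_nonneg b) (show 0 < be / 8 by positivity)
    (sc_nonneg j0) (v - b ^ 2 * be / 2 * sc j0)
  have he := abs_le.1 heta
  have hal : |be / 2 + eta| ≤ be + q := by rw [abs_le]; constructor <;> linarith
  have hga : |be / 2 - q| ≤ be + q := by rw [abs_le]; constructor <;> linarith
  have hth : |be + eta| ≤ 2 * be := by rw [abs_le]; constructor <;> linarith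
  have h1 := hC n x j0 j (be / 2 + eta) (be / 2 - q) v Q hx hj0 hj hal hga hQ hQU hnear
  have hpt : ∀ ω, Dn P X b n ω x * win v (Vj X b d σ j0 ω x) *
        (ee (-(be / 2) * (Vj X b d σ j0 ω x - Vj X b d σ j ω x) - q * Vj X b d σ j ω x) *
          (mass P ν X b n Q ω) ^ q) ≤
      ee (Real.log 4 + 2 * be - (be + eta) * v) *
      (Dn P X b n ω x * ee ((be / 2 + eta) * Vj X b d σ j0 ω x +
        (be / 2 - q) * Vj X b d σ j ω x) *
        ENNReal.ofReal (Fej (Vj X b d σ j0 ω x - v)) * (mass P ν X b n Q ω) ^ q) := by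
    intro ω
    set V0 := Vj X b d σ j0 ω x
    set V1 := Vj X b d σ j ω x
    have hw := win_le (v := v) (u := V0) hth
    calc Dn P X b n ω x * win v V0 * (ee (-(be / 2) * (V0 - V1) - q * V1) *
          (mass P ν X b n Q ω) ^ q)
        ≤ Dn P X b n ω x * (ee (Real.log 4 + 2 * be) * (ee ((be + eta) * (V0 - v)) *
          ENNReal.ofReal (Fej (V0 - v)))) * (ee (-(be / 2) * (V0 - V1) - q * V1) *
          (mass P ν X b n Q ω) ^ q) := mul_le_mul_left (mul_le_mul_right hw _) _
      _ = (ee (Real.log 4 + 2 * be) * ee ((be + eta) * (V0 - v)) *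
          ee (-(be / 2) * (V0 - V1) - q * V1)) * (Dn P X b n ω x *
          ENNReal.ofReal (Fej (V0 - v)) * (mass P ν X b n Q ω) ^ q) := by ring
      _ = (ee (Real.log 4 + 2 * be - (be + eta) * v) * ee ((be / 2 + eta) * V0 +
          (be / 2 - q) * V1)) * (Dn P X b n ω x *
          ENNReal.ofReal (Fej (V0 - v)) * (mass P ν X b n Q ω) ^ q) := by
          rw [← ee_add, ← ee_add, ← ee_add]
          congr 2
          ring
      _ = _ := by ring
  have hm : Measurable fun ω => Dn P X b n ω x * ee ((be / 2 + eta) * Vj X b d σ j0 ω x +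
        (be / 2 - q) * Vj X b d σ j ω x) *
        ENNReal.ofReal (Fej (Vj X b d σ j0 ω x - v)) * (mass P ν X b n Q ω) ^ q :=
    (((h.Dn_meas_right b n x).mul (measurable_ee (((h.Vj_meas b d σ j0 x).const_mul _).add
      ((h.Vj_meas b d σ j x).const_mul _)))).mul (Fej_cont.measurable.comp
      ((h.Vj_meas b d σ j0 x).sub measurable_const)).ennreal_ofReal).mul
      ((h.mass_meas ν b n Q).pow_const q)
  calc _ ≤ ∫⁻ ω, ee (Real.log 4 + 2 * be - (be + eta) * v) *
      (Dn P X b n ω x * ee ((be / 2 + eta) * Vj X b d σ j0 ω x +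
        (be / 2 - q) * Vj X b d σ j ω x) *
        ENNReal.ofReal (Fej (Vj X b d σ j0 ω x - v)) * (mass P ν X b n Q ω) ^ q) ∂P :=
        lintegral_mono hpt
    _ = ee (Real.log 4 + 2 * be - (be + eta) * v) * ∫⁻ ω,
      (Dn P X b n ω x * ee ((be / 2 + eta) * Vj X b d σ j0 ω x +
        (be / 2 - q) * Vj X b d σ j ω x) *
        ENNReal.ofReal (Fej (Vj X b d σ j0 ω x - v)) * (mass P ν X b n Q ω) ^ q) ∂P :=
        lintegral_const_mul _ hm
    _ ≤ _ := by
        refine (mul_le_mul_right h1 _).trans ?_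
        rw [← ee_add]
        apply ee_mono
        have hx := expo_half (b := b) (a := sc j0) (s := sc j) (v := v) hbe heta
        have e1 : be / 2 - q + q = be / 2 := by ring
        rw [e1]
        unfold om
        linarith

/-- Main estimate without mass. -/
theorem FieldHyp.est_zero (h : FieldHyp P X) (hl : LogHyp P X ν d σ δ C0 cv)
    {b be : ℝ} (hb : 0 < b) (hbe : 0 < be)
    (hd : d = b ^ 2 * (be + 1) / 2) :
    ∃ C : ℝ, ∀ (n : ℕ) (x : T) (j0 j : ℕ) (v : ℝ), j0 ≤ Jn σ n → j ≤ Jn σ n →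
      ∫⁻ ω, Dn P X b n ω x * win v (Vj X b d σ j0 ω x) *
        ee (-(be / 2) * (Vj X b d σ j0 ω x - Vj X b d σ j ω x)) ∂P ≤
      ee (C - be * v - b ^ 2 * be ^ 2 / 16 * |sc j - sc j0| +
        om (be / 8) (b ^ 2 * be / 2) j0 v) := by
  obtain ⟨C, hC⟩ := h.gen0 hl hb hd (Lm := be) hbe.le
  refine ⟨C + Real.log 4 + 2 * be + b ^ 2 * (be / 8) ^ 2 / 2, ?_⟩
  intro n x j0 j v hj0 hj
  obtain ⟨eta, heta, hetab⟩ := eta_ex (sq_nonneg b) (show 0 < be / 8 by positivity)
    (sc_nonneg j0) (v - b ^ 2 * be / 2 * sc j0)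
  have he := abs_le.1 heta
  have hal : |be / 2 + eta| ≤ be := by rw [abs_le]; constructor <;> linarith
  have hga : |be / 2| ≤ be := by rw [abs_le]; constructor <;> linarith
  have hth : |be + eta| ≤ 2 * be := by rw [abs_le]; constructor <;> linarith
  have h1 := hC n x j0 j (be / 2 + eta) (be / 2) v hj0 hj hal hga
  have hpt : ∀ ω, Dn P X b n ω x * win v (Vj X b d σ j0 ω x) *
        ee (-(be / 2) * (Vj X b d σ j0 ω x - Vj X b d σ j ω x)) ≤
      ee (Real.log 4 + 2 * be - (be + eta) * v) *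
      (Dn P X b n ω x * ee ((be / 2 + eta) * Vj X b d σ j0 ω x +
        (be / 2) * Vj X b d σ j ω x) *
        ENNReal.ofReal (Fej (Vj X b d σ j0 ω x - v))) := by
    intro ω
    set V0 := Vj X b d σ j0 ω x
    set V1 := Vj X b d σ j ω x
    have hw := win_le (v := v) (u := V0) hth
    calc Dn P X b n ω x * win v V0 * ee (-(be / 2) * (V0 - V1))
        ≤ Dn P X b n ω x * (ee (Real.log 4 + 2 * be) * (ee ((be + eta) * (V0 - v)) *
          ENNReal.ofReal (Fej (V0 - v)))) * ee (-(be / 2) * (V0 - V1)) :=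
          mul_le_mul_left (mul_le_mul_right hw _) _
      _ = (ee (Real.log 4 + 2 * be) * ee ((be + eta) * (V0 - v)) *
          ee (-(be / 2) * (V0 - V1))) * (Dn P X b n ω x *
          ENNReal.ofReal (Fej (V0 - v))) := by ring
      _ = (ee (Real.log 4 + 2 * be - (be + eta) * v) * ee ((be / 2 + eta) * V0 +
          (be / 2) * V1)) * (Dn P X b n ω x *
          ENNReal.ofReal (Fej (V0 - v))) := by
          rw [← ee_add, ← ee_add, ← ee_add]
          congr 2
          ring
      _ = _ := by ring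
  have hm : Measurable fun ω => Dn P X b n ω x * ee ((be / 2 + eta) * Vj X b d σ j0 ω x +
        (be / 2) * Vj X b d σ j ω x) *
        ENNReal.ofReal (Fej (Vj X b d σ j0 ω x - v)) :=
    ((h.Dn_meas_right b n x).mul (measurable_ee (((h.Vj_meas b d σ j0 x).const_mul _).add
      ((h.Vj_meas b d σ j x).const_mul _)))).mul (Fej_cont.measurable.comp
      ((h.Vj_meas b d σ j0 x).sub measurable_const)).ennreal_ofReal
  calc _ ≤ ∫⁻ ω, ee (Real.log 4 + 2 * be - (be + eta) * v) *
      (Dn P X b n ω x * ee ((be / 2 + eta) * Vj X b d σ j0 ω x +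
        (be / 2) * Vj X b d σ j ω x) *
        ENNReal.ofReal (Fej (Vj X b d σ j0 ω x - v))) ∂P :=
        lintegral_mono hpt
    _ = ee (Real.log 4 + 2 * be - (be + eta) * v) * ∫⁻ ω,
      (Dn P X b n ω x * ee ((be / 2 + eta) * Vj X b d σ j0 ω x +
        (be / 2) * Vj X b d σ j ω x) *
        ENNReal.ofReal (Fej (Vj X b d σ j0 ω x - v))) ∂P :=
        lintegral_const_mul _ hm
    _ ≤ _ := by
        refine (mul_le_mul_right h1 _).trans ?_
        rw [← ee_add]
        apply ee_mono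
        have hx := expo_half (b := b) (a := sc j0) (s := sc j) (v := v) hbe heta
        unfold om
        linarith

/-- The estimate for jumps of the tilted walk. -/
theorem FieldHyp.est_jump (h : FieldHyp P X) (hl : LogHyp P X ν d σ δ C0 cv)
    {b be : ℝ} (hb : 0 < b) (hbe : 0 < be)
    (hd : d = b ^ 2 * (be + 1) / 2) :
    ∃ C : ℝ, ∀ (n : ℕ) (x : T) (j : ℕ) (v : ℝ), j + 1 ≤ Jn σ n →
      ∫⁻ ω, Dn P X b n ω x * ee (be * Vj X b d σ (j + 1) ω x) *
        (win v (Vj X b d σ j ω x) *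
        ee (Vj X b d σ (j + 1) ω x - Vj X b d σ j ω x)) ∂P ≤
      ee (C + om (be / 8) (b ^ 2 * be / 2) j v) := by
  obtain ⟨C, hC⟩ := h.gen0 hl hb hd (Lm := be + 1) (by positivity)
  refine ⟨C + Real.log 4 + 2 * be + b ^ 2 * (be / 8) ^ 2 / 2 +
    ff b be (be + 1) * Real.log 2, ?_⟩
  intro n x j v hj
  obtain ⟨eta, heta, hetab⟩ := eta_ex (sq_nonneg b) (show 0 < be / 8 by positivity)
    (sc_nonneg j) (v - b ^ 2 * be / 2 * sc j)
  have he := abs_le.1 heta
  have hal : |eta - 1| ≤ be + 1 := by rw [abs_le]; constructor <;> linarith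
  have hga : |be + 1| ≤ be + 1 := by rw [abs_le]; constructor <;> linarith
  have hth : |eta| ≤ 2 * be := by rw [abs_le]; constructor <;> linarith
  have h1 := hC n x j (j + 1) (eta - 1) (be + 1) v (by omega) hj hal hga
  have hpt : ∀ ω, Dn P X b n ω x * ee (be * Vj X b d σ (j + 1) ω x) *
        (win v (Vj X b d σ j ω x) *
        ee (Vj X b d σ (j + 1) ω x - Vj X b d σ j ω x)) ≤
      ee (Real.log 4 + 2 * be - eta * v) *
      (Dn P X b n ω x * ee ((eta - 1) * Vj X b d σ j ω x +
        (be + 1) * Vj X b d σ (j + 1) ω x) *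
        ENNReal.ofReal (Fej (Vj X b d σ j ω x - v))) := by
    intro ω
    set V0 := Vj X b d σ j ω x
    set V1 := Vj X b d σ (j + 1) ω x
    have hw := win_le (v := v) (u := V0) hth
    calc Dn P X b n ω x * ee (be * V1) * (win v V0 * ee (V1 - V0))
        ≤ Dn P X b n ω x * ee (be * V1) * ((ee (Real.log 4 + 2 * be) * (ee (eta * (V0 - v)) *
          ENNReal.ofReal (Fej (V0 - v)))) * ee (V1 - V0)) :=
          mul_le_mul_right (mul_le_mul_left hw _) _
      _ = (ee (Real.log 4 + 2 * be) * ee (eta * (V0 - v)) *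
          ee (V1 - V0) * ee (be * V1)) * (Dn P X b n ω x *
          ENNReal.ofReal (Fej (V0 - v))) := by ring
      _ = (ee (Real.log 4 + 2 * be - eta * v) * ee ((eta - 1) * V0 +
          (be + 1) * V1)) * (Dn P X b n ω x *
          ENNReal.ofReal (Fej (V0 - v))) := by
          rw [← ee_add, ← ee_add, ← ee_add, ← ee_add]
          congr 2
          ring
      _ = _ := by ring
  have hm : Measurable fun ω => Dn P X b n ω x * ee ((eta - 1) * Vj X b d σ j ω x +
        (be + 1) * Vj X b d σ (j + 1) ω x) *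
        ENNReal.ofReal (Fej (Vj X b d σ j ω x - v)) :=
    ((h.Dn_meas_right b n x).mul (measurable_ee (((h.Vj_meas b d σ j x).const_mul _).add
      ((h.Vj_meas b d σ (j + 1) x).const_mul _)))).mul (Fej_cont.measurable.comp
      ((h.Vj_meas b d σ j x).sub measurable_const)).ennreal_ofReal
  calc _ ≤ ∫⁻ ω, ee (Real.log 4 + 2 * be - eta * v) *
      (Dn P X b n ω x * ee ((eta - 1) * Vj X b d σ j ω x +
        (be + 1) * Vj X b d σ (j + 1) ω x) *
        ENNReal.ofReal (Fej (Vj X b d σ j ω x - v))) ∂P :=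
        lintegral_mono hpt
    _ = ee (Real.log 4 + 2 * be - eta * v) * ∫⁻ ω,
      (Dn P X b n ω x * ee ((eta - 1) * Vj X b d σ j ω x +
        (be + 1) * Vj X b d σ (j + 1) ω x) *
        ENNReal.ofReal (Fej (Vj X b d σ j ω x - v))) ∂P :=
        lintegral_const_mul _ hm
    _ ≤ _ := by
        refine (mul_le_mul_right h1 _).trans ?_
        rw [← ee_add]
        apply ee_mono
        have hl2 : 0 < Real.log 2 := Real.log_pos (by norm_num)
        rw [min_eq_left (sc_mono (Nat.le_succ j)), sc_succ]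
        unfold om
        unfold ff
        linarith

/-- The estimate with a second point. -/
theorem FieldHyp.est_two (h : FieldHyp P X) (hl : LogHyp P X ν d σ δ C0 cv)
    {b be : ℝ} (hb : 0 < b) (hbe : 0 < be)
    (hd : d = b ^ 2 * (be + 1) / 2) :
    ∃ C : ℝ, ∀ (n : ℕ) (x y : T) (j : ℕ) (v : ℝ), dist x y ≤ δ → j ≤ Jn σ n →
      near x y j (Jn σ n) →
      ∫⁻ ω, Dn P X b (lev σ j) ω x * win v (Vj X b d σ j ω x) *
        ee (b * (S X (lev σ j) ω x - S X (lev σ j) ω y)) ∂P ≤
      ee (C - be * v + om (be / 8) (b ^ 2 * be / 2) j v) := by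
  obtain ⟨C, hC⟩ := h.gen2 hl hb hd (Lm := 2 * be) (by positivity)
  refine ⟨C + Real.log 4 + 2 * be + b ^ 2 * (be / 8) ^ 2 / 2, ?_⟩
  intro n x y j v hxy hj hnear
  obtain ⟨eta, heta, hetab⟩ := eta_ex (sq_nonneg b) (show 0 < be / 8 by positivity)
    (sc_nonneg j) (v - b ^ 2 * be / 2 * sc j)
  have he := abs_le.1 heta
  have hth : |be + eta| ≤ 2 * be := by rw [abs_le]; constructor <;> linarith
  have h1 := hC n x y j (be + eta) v hxy hj hnear hth
  have hpt : ∀ ω, Dn P X b (lev σ j) ω x * win v (Vj X b d σ j ω x) *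
        ee (b * (S X (lev σ j) ω x - S X (lev σ j) ω y)) ≤
      ee (Real.log 4 + 2 * be - (be + eta) * v) *
      (Dn P X b (lev σ j) ω x * ee ((be + eta) * Vj X b d σ j ω x +
          b * (S X (lev σ j) ω x - S X (lev σ j) ω y)) *
        ENNReal.ofReal (Fej (Vj X b d σ j ω x - v))) := by
    intro ω
    set V0 := Vj X b d σ j ω x
    set Z := b * (S X (lev σ j) ω x - S X (lev σ j) ω y)
    have hw := win_le (v := v) (u := V0) hth
    calc Dn P X b (lev σ j) ω x * win v V0 * ee Z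
        ≤ Dn P X b (lev σ j) ω x * (ee (Real.log 4 + 2 * be) * (ee ((be + eta) * (V0 - v)) *
          ENNReal.ofReal (Fej (V0 - v)))) * ee Z :=
          mul_le_mul_left (mul_le_mul_right hw _) _
      _ = (ee (Real.log 4 + 2 * be) * ee ((be + eta) * (V0 - v)) *
          ee Z) * (Dn P X b (lev σ j) ω x * ENNReal.ofReal (Fej (V0 - v))) := by ring
      _ = (ee (Real.log 4 + 2 * be - (be + eta) * v) * ee ((be + eta) * V0 + Z)) *
          (Dn P X b (lev σ j) ω x * ENNReal.ofReal (Fej (V0 - v))) := by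
          rw [← ee_add, ← ee_add, ← ee_add]
          congr 2
          ring
      _ = _ := by ring
  have hm : Measurable fun ω => Dn P X b (lev σ j) ω x * ee ((be + eta) * Vj X b d σ j ω x +
          b * (S X (lev σ j) ω x - S X (lev σ j) ω y)) *
        ENNReal.ofReal (Fej (Vj X b d σ j ω x - v)) :=
    ((h.Dn_meas_right b _ x).mul (measurable_ee (((h.Vj_meas b d σ j x).const_mul _).add
      (((h.S_meas _ x).sub (h.S_meas _ y)).const_mul _)))).mul (Fej_cont.measurable.comp
      ((h.Vj_meas b d σ j x).sub measurable_const)).ennreal_ofReal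
  calc _ ≤ ∫⁻ ω, ee (Real.log 4 + 2 * be - (be + eta) * v) *
      (Dn P X b (lev σ j) ω x * ee ((be + eta) * Vj X b d σ j ω x +
          b * (S X (lev σ j) ω x - S X (lev σ j) ω y)) *
        ENNReal.ofReal (Fej (Vj X b d σ j ω x - v))) ∂P :=
        lintegral_mono hpt
    _ = ee (Real.log 4 + 2 * be - (be + eta) * v) * ∫⁻ ω,
      (Dn P X b (lev σ j) ω x * ee ((be + eta) * Vj X b d σ j ω x +
          b * (S X (lev σ j) ω x - S X (lev σ j) ω y)) *
        ENNReal.ofReal (Fej (Vj X b d σ j ω x - v))) ∂P :=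
        lintegral_const_mul _ hm
    _ ≤ _ := by
        refine (mul_le_mul_right h1 _).trans ?_
        rw [← ee_add]
        apply ee_mono
        unfold om
        unfold ff
        linarith

end

end Pool.Agent.Helper55.Chaos
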