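import Mathlib
import Pool.Agent.Helper55.Chaos.Mart
import Pool.Agent.Helper55.Tail.Est

set_option autoImplicit false
set_option linter.unusedSectionVars false
set_option linter.unusedVariables false

open MeasureTheory ProbabilityTheory Finset
open scoped ENNReal

namespace Pool.Agent.Helper55.Chaos

section
variable {Ω T : Type*} [mΩ : MeasurableSpace Ω] {P : Measure Ω} [IsProbabilityMeasure P]
  [MetricSpace T] [SecondCountableTopology T] [MeasurableSpace T] [BorelSpace T] [Nonempty T]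
  {X : ℕ → Ω → T → ℝ} {ν : Measure T} [IsFiniteMeasure ν] {d : ℝ} {σ : ℕ → ℝ} {δ C0 cv : ℝ}

/-- The increment of the sums between two levels. -/
def Rinc (X : ℕ → Ω → T → ℝ) (m n : ℕ) (ω : Ω) (x : T) : ℝ := ∑ k ∈ Finset.Ico m n, X k ω x

lemma S_add_Rinc {m n : ℕ} (h : m ≤ n) (ω : Ω) (x : T) :
    S X n ω x = S X m ω x + Rinc X m n ω x := by
  unfold S Rinc
  rw [Finset.range_eq_Ico, Finset.range_eq_Ico, Finset.sum_Ico_consecutive _ (Nat.zero_le m) h]

lemma Rinc_fut (m n : ℕ) (x : T) : Measurable[fut X m] fun ω => Rinc X m n ω x := by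
  unfold Rinc
  exact Finset.measurable_sum _ fun k hk => fut_meas (Finset.mem_Ico.1 hk).1 x

lemma FieldHyp.S_filt (h : FieldHyp P X) (m : ℕ) (x : T) :
    Measurable[filt h m] fun ω => S X m ω x := by
  unfold S
  exact Finset.measurable_sum _ fun k hk => h.filt_meas (Finset.mem_range.1 hk) x

lemma FieldHyp.fact (h : FieldHyp P X) (m : ℕ) {f g : Ω → ℝ≥0∞} (hf : Measurable[filt h m] f)
    (hg : Measurable[fut X m] g) :
    ∫⁻ ω, f ω * g ω ∂P = (∫⁻ ω, f ω ∂P) * ∫⁻ ω, g ω ∂P :=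
  lintegral_mul_eq_lintegral_mul_lintegral_of_independent_measurableSpace
      ((filt h).le m) (h.fut_le m) (h.indep_fut m) hf hg

lemma ee_comp {m' : MeasurableSpace Ω} {f : Ω → ℝ} (hf : Measurable[m'] f) :
    Measurable[m'] fun ω => ee (f ω) := by
  unfold ee
  exact (Real.measurable_exp.comp hf).ennreal_ofReal

/-- Exponential moments of the increments, one point. -/
theorem FieldHyp.inc_one (h : FieldHyp P X) (L : ℝ) (hL : 0 ≤ L) :
    ∃ C : ℝ, 0 ≤ C ∧ ∀ (x : T) (m n : ℕ) (a : ℝ), m ≤ n → |a| ≤ L →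
      ∫⁻ ω, ee (a * Rinc X m n ω x) ∂P ≤ ee (a ^ 2 * (K P X n x x - K P X m x x) / 2 + C) ∧
      ee (a ^ 2 * (K P X n x x - K P X m x x) / 2 - C) ≤ ∫⁻ ω, ee (a * Rinc X m n ω x) ∂P := by
  obtain ⟨C, hC, hest⟩ := h.exp_lev (Fin 2) L hL
  refine ⟨C, hC, fun x m n a hmn ha => ?_⟩
  obtain ⟨hi, hup, hlo⟩ := hest ![x, x] ![a, -a] ![n, m] (by
    intro i; fin_cases i
    · exact ha
    · show |-a| ≤ L
      rw [abs_neg]; exact ha)
  have hsum : ∀ ω, ∑ i, (![a, -a] : Fin 2 → ℝ) i * S X ((![n, m] : Fin 2 → ℕ) i) ω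
      ((![x, x] : Fin 2 → T) i) = a * Rinc X m n ω x := by
    intro ω
    rw [Fin.sum_univ_two]
    simp only [Matrix.cons_val_zero, Matrix.cons_val_one]
    rw [S_add_Rinc hmn]
    ring
  have hquad : ∑ i, ∑ j, (![a, -a] : Fin 2 → ℝ) i * (![a, -a] : Fin 2 → ℝ) j *
      K P X (min ((![n, m] : Fin 2 → ℕ) i) ((![n, m] : Fin 2 → ℕ) j))
        ((![x, x] : Fin 2 → T) i) ((![x, x] : Fin 2 → T) j) =
      a ^ 2 * (K P X n x x - K P X m x x) := by
    simp only [Fin.sum_univ_two, Matrix.cons_val_zero, Matrix.cons_val_one, min_self,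
      min_eq_left hmn, min_eq_right hmn]
    ring
  simp_rw [hsum] at hi hup hlo
  rw [hquad] at hup hlo
  have e1 : ∫⁻ ω, ee (a * Rinc X m n ω x) ∂P =
      ENNReal.ofReal (∫ ω, Real.exp (a * Rinc X m n ω x) ∂P) := by
    unfold ee
    rw [ofReal_integral_eq_lintegral_ofReal hi
      (Filter.Eventually.of_forall fun ω => (Real.exp_pos _).le)]
  rw [e1]
  exact ⟨ENNReal.ofReal_le_ofReal hup, ENNReal.ofReal_le_ofReal hlo⟩

/-- Exponential moments of the increments, two points, lower bound. -/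
theorem FieldHyp.inc_two (h : FieldHyp P X) (b : ℝ) :
    ∃ C : ℝ, 0 ≤ C ∧ ∀ (x y : T) (m n : ℕ), m ≤ n →
      ee (b ^ 2 * ((K P X n x x - K P X m x x) + (K P X n y y - K P X m y y) +
        2 * (K P X n x y - K P X m x y)) / 2 - C) ≤
        ∫⁻ ω, ee (b * (Rinc X m n ω x + Rinc X m n ω y)) ∂P := by
  obtain ⟨C, hC, hest⟩ := h.exp_lev (Fin 4) |b| (abs_nonneg _)
  refine ⟨C, hC, fun x y m n hmn => ?_⟩
  obtain ⟨hi, hup, hlo⟩ := hest ![x, y, x, y] ![b, b, -b, -b] ![n, n, m, m] (by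
    intro i; fin_cases i
    · exact le_rfl
    · exact le_rfl
    · show |-b| ≤ |b|
      rw [abs_neg]
    · show |-b| ≤ |b|
      rw [abs_neg])
  have hsum : ∀ ω, ∑ i, (![b, b, -b, -b] : Fin 4 → ℝ) i * S X ((![n, n, m, m] : Fin 4 → ℕ) i) ω
      ((![x, y, x, y] : Fin 4 → T) i) = b * (Rinc X m n ω x + Rinc X m n ω y) := by
    intro ω
    rw [Fin.sum_univ_four]
    simp only [Matrix.cons_val_zero, Matrix.cons_val_one, Matrix.cons_val]
    rw [S_add_Rinc hmn, S_add_Rinc hmn]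
    ring
  have hquad : ∑ i, ∑ j, (![b, b, -b, -b] : Fin 4 → ℝ) i * (![b, b, -b, -b] : Fin 4 → ℝ) j *
      K P X (min ((![n, n, m, m] : Fin 4 → ℕ) i) ((![n, n, m, m] : Fin 4 → ℕ) j))
        ((![x, y, x, y] : Fin 4 → T) i) ((![x, y, x, y] : Fin 4 → T) j) =
      b ^ 2 * ((K P X n x x - K P X m x x) + (K P X n y y - K P X m y y) +
        2 * (K P X n x y - K P X m x y)) := by
    simp only [Fin.sum_univ_four, Matrix.cons_val_zero, Matrix.cons_val_one, Matrix.cons_val,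
      min_self, min_eq_left hmn, min_eq_right hmn]
    rw [K_symm n y x, K_symm m y x]
    ring
  simp_rw [hsum] at hi hup hlo
  rw [hquad] at hup hlo
  have e1 : ∫⁻ ω, ee (b * (Rinc X m n ω x + Rinc X m n ω y)) ∂P =
      ENNReal.ofReal (∫ ω, Real.exp (b * (Rinc X m n ω x + Rinc X m n ω y)) ∂P) := by
    unfold ee
    rw [ofReal_integral_eq_lintegral_ofReal hi
      (Filter.Eventually.of_forall fun ω => (Real.exp_pos _).le)]
  rw [e1]
  exact ENNReal.ofReal_le_ofReal hlo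

lemma FieldHyp.Vj_filt (h : FieldHyp P X) (b d : ℝ) (σ : ℕ → ℝ) (j : ℕ) (x : T) :
    Measurable[filt h (lev σ j)] fun ω => Vj X b d σ j ω x := by
  unfold Vj
  exact ((h.S_filt _ _).const_mul _).sub measurable_const

/-- Change of the level of the tilt. -/
theorem FieldHyp.fact_one (h : FieldHyp P X) (hl : LogHyp P X ν d σ δ C0 cv)
    {b be Lm : ℝ} (hb : 0 < b) (hd : d = b ^ 2 * (be + 1) / 2) (hLm : 0 ≤ Lm) :
    ∃ C : ℝ, 0 ≤ C ∧ ∀ (n : ℕ) (x : T) (j j' : ℕ) (c : ℝ) (f : Ω → ℝ≥0∞),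
      Measurable[filt h (lev σ j)] f → j ≤ j' → j' ≤ Jn σ n → |c| ≤ Lm →
      ∫⁻ ω, f ω * (Dn P X b n ω x * ee (c * Vj X b d σ j' ω x)) ∂P ≤
        ee (ff b be c * (sc j' - sc j) + C) *
          ∫⁻ ω, f ω * (Dn P X b n ω x * ee (c * Vj X b d σ j ω x)) ∂P ∧
      ee (ff b be c * (sc j' - sc j) - C) *
          ∫⁻ ω, f ω * (Dn P X b n ω x * ee (c * Vj X b d σ j ω x)) ∂P ≤
        ∫⁻ ω, f ω * (Dn P X b n ω x * ee (c * Vj X b d σ j' ω x)) ∂P := by
  have hC0 := hl.C0_nonneg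
  have hl2 : 0 < Real.log 2 := Real.log_pos (by norm_num)
  have hC1 : 0 ≤ C1of C0 := by unfold C1of; linarith
  obtain ⟨CD, hCD, hD⟩ := h.Dn_bounds b
  obtain ⟨CR, hCR, hR⟩ := h.inc_one ((1 + Lm) * b) (by positivity)
  refine ⟨2 * CD + CR + 2 * (b ^ 2 * (1 + Lm) ^ 2) * C1of C0, by positivity, ?_⟩
  intro n x j j' c f hf hjj' hj' hc
  set m := lev σ j with hm
  set m' := lev σ j' with hm'
  have hmm' : m ≤ m' := hl.lev_mono hjj'
  have hm'n : m' ≤ n := hl.lev_le_n hj'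
  have hmn : m ≤ n := hmm'.trans hm'n
  have hfm : Measurable f := hf.mono ((filt h).le m) le_rfl
  have hf' : Measurable[filt h m'] f := hf.mono ((filt h).mono hmm') le_rfl
  have hVf : Measurable[filt h m] fun ω => ee (c * Vj X b d σ j ω x) :=
    ee_comp ((h.Vj_filt b d σ j x).const_mul c)
  have hVf' : Measurable[filt h m'] fun ω => ee (c * Vj X b d σ j' ω x) :=
    ee_comp ((h.Vj_filt b d σ j' x).const_mul c)
  -- reduce to the densities at the levels
  have e1 : ∫⁻ ω, f ω * (Dn P X b n ω x * ee (c * Vj X b d σ j' ω x)) ∂P =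
      ∫⁻ ω, f ω * ee (c * Vj X b d σ j' ω x) * Dn P X b m' ω x ∂P := by
    rw [← h.point_mart b hm'n x (H := fun ω => f ω * ee (c * Vj X b d σ j' ω x))
      (hf'.mul hVf')]
    apply lintegral_congr; intro ω
    ring
  have e2 : ∫⁻ ω, f ω * (Dn P X b n ω x * ee (c * Vj X b d σ j ω x)) ∂P =
      ∫⁻ ω, f ω * ee (c * Vj X b d σ j ω x) * Dn P X b m ω x ∂P := by
    rw [← h.point_mart b hmn x (H := fun ω => f ω * ee (c * Vj X b d σ j ω x))
      (hf.mul hVf)]
    apply lintegral_congr; intro ω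
    ring
  rw [e1, e2]
  -- the increment
  set a : ℝ := (1 + c) * b with ha
  have hab : |a| ≤ (1 + Lm) * b := by
    rw [ha, abs_mul, abs_of_pos hb]
    apply mul_le_mul_of_nonneg_right _ hb.le
    refine (abs_add_le _ _).trans ?_
    rw [abs_one]; linarith
  obtain ⟨hRu, hRl⟩ := hR x m m' a hmm' hab
  set I0 : ℝ≥0∞ := ∫⁻ ω, f ω * ee (a * S X m ω x) ∂P with hI0
  have hSf : Measurable[filt h m] fun ω => f ω * ee (a * S X m ω x) :=
    hf.mul (ee_comp ((h.S_filt m x).const_mul a))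
  have hRf : Measurable[fut X m] fun ω => ee (a * Rinc X m m' ω x) :=
    ee_comp ((Rinc_fut m m' x).const_mul a)
  have hsplit : ∫⁻ ω, f ω * ee (a * S X m' ω x) ∂P =
      I0 * ∫⁻ ω, ee (a * Rinc X m m' ω x) ∂P := by
    rw [hI0, ← h.fact m hSf hRf]
    apply lintegral_congr; intro ω
    rw [S_add_Rinc hmm' ω x, mul_add, ee_add]
    ring
  set k := K P X m x x with hk
  set k' := K P X m' x x with hk'
  have hfS : Measurable fun ω => f ω * ee (a * S X m ω x) :=
    hfm.mul (measurable_ee ((h.S_meas m x).const_mul a))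
  have hfS' : Measurable fun ω => f ω * ee (a * S X m' ω x) :=
    hfm.mul (measurable_ee ((h.S_meas m' x).const_mul a))
  set q' : ℝ := -(b ^ 2 * k' / 2) - c * ((b ^ 2 / 2 + d) * sc j') with hq'
  set q : ℝ := -(b ^ 2 * k / 2) - c * ((b ^ 2 / 2 + d) * sc j) with hq
  have up' : ∫⁻ ω, f ω * ee (c * Vj X b d σ j' ω x) * Dn P X b m' ω x ∂P ≤
      ee (q' + CD) * ∫⁻ ω, f ω * ee (a * S X m' ω x) ∂P := by
    rw [← lintegral_const_mul _ hfS']
    apply lintegral_mono; intro ω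
    beta_reduce
    refine (mul_le_mul_right (hD m' ω x).1 _).trans (le_of_eq ?_)
    rw [mul_assoc, ← ee_add, mul_left_comm, ← ee_add]
    congr 2
    unfold Vj
    rw [hq', ha, ← hm']
    ring
  have lo' : ee (q' - CD) * ∫⁻ ω, f ω * ee (a * S X m' ω x) ∂P ≤
      ∫⁻ ω, f ω * ee (c * Vj X b d σ j' ω x) * Dn P X b m' ω x ∂P := by
    rw [← lintegral_const_mul _ hfS']
    apply lintegral_mono; intro ω
    beta_reduce
    refine (le_of_eq ?_).trans (mul_le_mul_right (hD m' ω x).2 _)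
    rw [mul_assoc (f ω), ← ee_add, mul_left_comm, ← ee_add]
    congr 2
    unfold Vj
    rw [hq', ha, ← hm']
    ring
  have up : ∫⁻ ω, f ω * ee (c * Vj X b d σ j ω x) * Dn P X b m ω x ∂P ≤
      ee (q + CD) * I0 := by
    rw [hI0, ← lintegral_const_mul _ hfS]
    apply lintegral_mono; intro ω
    beta_reduce
    refine (mul_le_mul_right (hD m ω x).1 _).trans (le_of_eq ?_)
    rw [mul_assoc, ← ee_add, mul_left_comm, ← ee_add]
    congr 2
    unfold Vj
    rw [hq, ha, ← hm]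
    ring
  have lo : ee (q - CD) * I0 ≤
      ∫⁻ ω, f ω * ee (c * Vj X b d σ j ω x) * Dn P X b m ω x ∂P := by
    rw [hI0, ← lintegral_const_mul _ hfS]
    apply lintegral_mono; intro ω
    beta_reduce
    refine (le_of_eq ?_).trans (mul_le_mul_right (hD m ω x).2 _)
    rw [mul_assoc (f ω), ← ee_add, mul_left_comm, ← ee_add]
    congr 2
    unfold Vj
    rw [hq, ha, ← hm]
    ring
  -- exponents
  have kk := abs_le.1 (hl.K_diag_lev j x)
  have kk' := abs_le.1 (hl.K_diag_lev j' x)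
  rw [← hm, ← hk] at kk
  rw [← hm', ← hk'] at kk'
  have hc' := abs_le.1 hc
  have hcoef : |a ^ 2 / 2 - b ^ 2 / 2| ≤ b ^ 2 * (1 + Lm) ^ 2 := by
    have h1 : a ^ 2 ≤ ((1 + Lm) * b) ^ 2 := by
      rw [← sq_abs]; exact pow_le_pow_left₀ (abs_nonneg _) hab 2
    have h2 : 0 ≤ a ^ 2 := sq_nonneg a
    have h3 : b ^ 2 ≤ b ^ 2 * (1 + Lm) ^ 2 := by
      have h5 : 1 ≤ (1 + Lm) ^ 2 := by nlinarith
      have := mul_le_mul_of_nonneg_left h5 (sq_nonneg b)
      linarith
    have h4 : 0 ≤ b ^ 2 := sq_nonneg b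
    rw [abs_le]; constructor <;> nlinarith
  have hdiff : |(k' - k) - (sc j' - sc j)| ≤ 2 * C1of C0 := by
    rw [abs_le]; constructor <;> linarith
  have herr := err_le (c := a ^ 2 / 2 - b ^ 2 / 2) hdiff
  have herr2 := err_le (c := -(a ^ 2 / 2 - b ^ 2 / 2)) hdiff
  rw [abs_neg] at herr2
  have hcc := mul_le_mul_of_nonneg_right hcoef (show 0 ≤ 2 * C1of C0 by positivity)
  have hid : (a ^ 2 / 2 - b ^ 2 / 2) * (sc j' - sc j) -
      c * ((b ^ 2 / 2 + d) * sc j') + c * ((b ^ 2 / 2 + d) * sc j) =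
      ff b be c * (sc j' - sc j) := by
    unfold ff
    rw [ha, hd]
    ring
  constructor
  · calc _ ≤ ee (q' + CD) * ∫⁻ ω, f ω * ee (a * S X m' ω x) ∂P := up'
      _ ≤ ee (q' + CD) * (I0 * ee (a ^ 2 * (k' - k) / 2 + CR)) := by
          rw [hsplit]
          exact mul_le_mul_right (mul_le_mul_right hRu _) _
      _ = ee (q' + CD + (a ^ 2 * (k' - k) / 2 + CR) - (q - CD)) * (ee (q - CD) * I0) := by
          rw [← mul_assoc (ee _) (ee (q - CD)), ← ee_add, mul_left_comm, ← ee_add, mul_comm]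
          congr 2
          ring
      _ ≤ ee (ff b be c * (sc j' - sc j) + (2 * CD + CR + 2 * (b ^ 2 * (1 + Lm) ^ 2) *
          C1of C0)) * (ee (q - CD) * I0) := by
          apply mul_le_mul_left (ee_mono _)
          rw [hq, hq']
          linarith
      _ ≤ _ := mul_le_mul_right lo _
  · calc _ ≤ ee (ff b be c * (sc j' - sc j) - (2 * CD + CR + 2 * (b ^ 2 * (1 + Lm) ^ 2) *
          C1of C0)) * (ee (q + CD) * I0) := mul_le_mul_right up _
      _ ≤ ee (q' - CD + (a ^ 2 * (k' - k) / 2 - CR) - (q + CD)) * (ee (q + CD) * I0) := by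
          apply mul_le_mul_left (ee_mono _)
          rw [hq, hq']
          linarith
      _ = ee (q' - CD) * (I0 * ee (a ^ 2 * (k' - k) / 2 - CR)) := by
          rw [← mul_assoc (ee _) (ee (q + CD)), ← ee_add, mul_left_comm, ← ee_add, mul_comm]
          congr 2
          ring
      _ ≤ ee (q' - CD) * ∫⁻ ω, f ω * ee (a * S X m' ω x) ∂P := by
          rw [hsplit]
          exact mul_le_mul_right (mul_le_mul_right hRl _) _
      _ ≤ _ := lo'

/-- Two points: the future only contributes a constant. -/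
theorem FieldHyp.fact_two (h : FieldHyp P X) (hl : LogHyp P X ν d σ δ C0 cv)
    (b : ℝ) :
    ∃ C : ℝ, 0 ≤ C ∧ ∀ (n : ℕ) (x y : T) (j : ℕ) (f : Ω → ℝ≥0∞),
      Measurable[filt h (lev σ j)] f → j ≤ Jn σ n → dist x y ≤ δ → near x y j (Jn σ n) →
      ee (-C) * ∫⁻ ω, f ω * (Dn P X b (lev σ j) ω x * Dn P X b (lev σ j) ω y) ∂P ≤
        ∫⁻ ω, f ω * (Dn P X b n ω x * Dn P X b n ω y) ∂P := by
  have hC0 := hl.C0_nonneg
  have hl2 : 0 < Real.log 2 := Real.log_pos (by norm_num)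
  have hC1 : 0 ≤ C1of C0 := by unfold C1of; linarith
  obtain ⟨CD, hCD, hD⟩ := h.Dn_bounds b
  obtain ⟨CR, hCR, hR⟩ := h.inc_two b
  refine ⟨4 * CD + CR + 2 * b ^ 2 * C1of C0, by positivity, ?_⟩
  intro n x y j f hf hj hxy hnear
  set m := lev σ j with hm
  have hmn : m ≤ n := hl.lev_le_n hj
  have hfm : Measurable f := hf.mono ((filt h).le m) le_rfl
  have hR1 := hR x y m n hmn
  set kx := K P X m x x
  set ky := K P X m y y
  set kx' := K P X n x x
  set ky' := K P X n y y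
  have k1 := abs_le.1 (hl.K_near_n hxy hj hnear)
  have k2 := abs_le.1 (hl.K_near_lev hxy hj hj hnear)
  rw [min_self, ← hm] at k2
  set I0 : ℝ≥0∞ := ∫⁻ ω, f ω * ee (b * (S X m ω x + S X m ω y)) ∂P with hI0
  have hSf : Measurable[filt h m] fun ω => f ω * ee (b * (S X m ω x + S X m ω y)) :=
    hf.mul (ee_comp (((h.S_filt m x).add (h.S_filt m y)).const_mul b))
  have hRf : Measurable[fut X m] fun ω => ee (b * (Rinc X m n ω x + Rinc X m n ω y)) :=
    ee_comp (((Rinc_fut m n x).add (Rinc_fut m n y)).const_mul b)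
  have hsplit : ∫⁻ ω, f ω * ee (b * (S X n ω x + S X n ω y)) ∂P =
      I0 * ∫⁻ ω, ee (b * (Rinc X m n ω x + Rinc X m n ω y)) ∂P := by
    rw [hI0, ← h.fact m hSf hRf]
    apply lintegral_congr; intro ω
    rw [S_add_Rinc hmn ω x, S_add_Rinc hmn ω y]
    rw [mul_assoc, ← ee_add]
    congr 2
    ring
  have hfS : Measurable fun ω => f ω * ee (b * (S X m ω x + S X m ω y)) :=
    hfm.mul (measurable_ee (((h.S_meas m x).add (h.S_meas m y)).const_mul b))
  have hfS' : Measurable fun ω => f ω * ee (b * (S X n ω x + S X n ω y)) :=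
    hfm.mul (measurable_ee (((h.S_meas n x).add (h.S_meas n y)).const_mul b))
  have up : ∫⁻ ω, f ω * (Dn P X b m ω x * Dn P X b m ω y) ∂P ≤
      ee (-(b ^ 2 * (kx + ky) / 2) + 2 * CD) * I0 := by
    rw [hI0, ← lintegral_const_mul _ hfS]
    apply lintegral_mono; intro ω
    beta_reduce
    refine (mul_le_mul_right (mul_le_mul' (hD m ω x).1 (hD m ω y).1) _).trans (le_of_eq ?_)
    rw [← ee_add, mul_left_comm, ← ee_add]
    congr 2
    ring
  have lo : ee (-(b ^ 2 * (kx' + ky') / 2) - 2 * CD) *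
      ∫⁻ ω, f ω * ee (b * (S X n ω x + S X n ω y)) ∂P ≤
      ∫⁻ ω, f ω * (Dn P X b n ω x * Dn P X b n ω y) ∂P := by
    rw [← lintegral_const_mul _ hfS']
    apply lintegral_mono; intro ω
    beta_reduce
    refine (le_of_eq ?_).trans (mul_le_mul_right (mul_le_mul' (hD n ω x).2 (hD n ω y).2) _)
    rw [← ee_add, mul_left_comm, ← ee_add]
    congr 2
    ring
  calc ee (-(4 * CD + CR + 2 * b ^ 2 * C1of C0)) *
        ∫⁻ ω, f ω * (Dn P X b m ω x * Dn P X b m ω y) ∂P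
      ≤ ee (-(4 * CD + CR + 2 * b ^ 2 * C1of C0)) *
        (ee (-(b ^ 2 * (kx + ky) / 2) + 2 * CD) * I0) := mul_le_mul_right up _
    _ ≤ ee (-(b ^ 2 * (kx' + ky') / 2) - 2 * CD) *
        (I0 * ee (b ^ 2 * ((kx' - kx) + (ky' - ky) +
        2 * (K P X n x y - K P X m x y)) / 2 - CR)) := by
        rw [← mul_assoc, ← ee_add, mul_left_comm, ← ee_add, mul_comm]
        apply mul_le_mul_right (ee_mono _)
        have h1 : -(2 * C1of C0) ≤ K P X n x y - K P X m x y := by linarith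
        have h2 := mul_le_mul_of_nonneg_left h1 (sq_nonneg b)
        linarith
    _ ≤ ee (-(b ^ 2 * (kx' + ky') / 2) - 2 * CD) *
        ∫⁻ ω, f ω * ee (b * (S X n ω x + S X n ω y)) ∂P := by
        rw [hsplit]
        exact mul_le_mul_right (mul_le_mul_right hR1 _) _
    _ ≤ _ := lo

end

end Pool.Agent.Helper55.Chaos
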