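import Mathlib
import Pool.Agent.Helper55.Tail.Est

set_option autoImplicit false
set_option linter.unusedSectionVars false
set_option linter.unusedVariables false

open MeasureTheory ProbabilityTheory Finset
open scoped ENNReal

namespace Pool.Agent.Helper55.Chaos

lemma tsum_geom {e : ℝ} (he : 0 < e) : ∃ G : ℝ, ∑' i : ℕ, ee (-(i * e)) ≤ ee G := by
  obtain ⟨G, -, hG⟩ := geom_bound he
  exact ⟨G, ENNReal.tsum_le_of_sum_range_le hG⟩

lemma dist_sum {e : ℝ} (he : 0 < e) :
    ∃ G : ℝ, ∀ (J j0 : ℕ), ∑ j ∈ range J, ee (-(e * |(j : ℝ) - j0|)) ≤ ee G := by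
  refine ⟨Real.log (Real.exp e * (2 / e)), fun J j0 => ?_⟩
  have hpos : 0 < Real.exp e * (2 / e) := by positivity
  rw [ee_log hpos]
  unfold ee
  rw [← ENNReal.ofReal_sum_of_nonneg fun j _ => (Real.exp_pos _).le]
  apply ENNReal.ofReal_le_ofReal
  have hterm : ∀ j : ℕ, Real.exp (-(e * |(j : ℝ) - j0|)) ≤
      Real.exp e * (Phi e j0 ((j + 1 : ℕ) : ℝ) - Phi e j0 (j : ℝ)) := by
    intro j
    have h1 := Phi_incr he (j0 : ℝ) (u := (j : ℝ)) (v := ((j + 1 : ℕ) : ℝ)) (by push_cast; linarith)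
    have h2 : ((j + 1 : ℕ) : ℝ) - (j : ℝ) = 1 := by push_cast; ring
    rw [h2, one_mul, mul_one] at h1
    calc Real.exp (-(e * |(j : ℝ) - j0|)) =
        Real.exp e * Real.exp (-(e * |(j : ℝ) - j0|) - e) := by
          rw [← Real.exp_add]; congr 1; ring
      _ ≤ _ := mul_le_mul_of_nonneg_left h1 (Real.exp_pos _).le
  calc ∑ j ∈ range J, Real.exp (-(e * |(j : ℝ) - j0|))
      ≤ ∑ j ∈ range J, Real.exp e * (Phi e j0 ((j + 1 : ℕ) : ℝ) - Phi e j0 (j : ℝ)) :=
        Finset.sum_le_sum fun j _ => hterm j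
    _ = Real.exp e * (Phi e j0 (J : ℝ) - Phi e j0 ((0 : ℕ) : ℝ)) := by
        rw [← Finset.mul_sum, Finset.sum_range_sub (fun j : ℕ => Phi e j0 (j : ℝ))]
    _ ≤ _ := by
        apply mul_le_mul_of_nonneg_left _ (Real.exp_pos _).le
        exact (sub_le_self _ (Phi_nonneg he _ _)).trans (Phi_le he _ _)

/-- Interchange of an integral with a finite and an infinite sum. -/
lemma lint_sum_tsum {Ω : Type*} [MeasurableSpace Ω] (μ : Measure Ω) {D : Ω → ℝ≥0∞}
    (hD : Measurable D) (s : Finset ℕ) {f : ℕ → ℕ → Ω → ℝ≥0∞} (hf : ∀ j i, Measurable (f j i)) :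
    ∫⁻ ω, D ω * ∑ j ∈ s, ∑' i : ℕ, f j i ω ∂μ = ∑ j ∈ s, ∑' i : ℕ, ∫⁻ ω, D ω * f j i ω ∂μ := by
  have e1 : ∀ ω, D ω * ∑ j ∈ s, ∑' i : ℕ, f j i ω = ∑ j ∈ s, ∑' i : ℕ, D ω * f j i ω := by
    intro ω
    rw [Finset.mul_sum]
    refine Finset.sum_congr rfl fun j _ => ?_
    rw [ENNReal.tsum_mul_left]
  simp_rw [e1]
  have h1 : ∀ j, Measurable fun ω => ∑' i : ℕ, D ω * f j i ω := fun j =>
    Measurable.tsum fun i => hD.mul (hf j i)
  rw [lintegral_finsetSum _ fun j _ => h1 j]
  refine Finset.sum_congr rfl fun j _ => ?_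
  exact lintegral_tsum fun i => (hD.mul (hf j i)).aemeasurable

lemma swap_sum_tsum (s : Finset ℕ) (f : ℕ → ℕ → ℝ≥0∞) :
    ∑ j ∈ s, ∑' i : ℕ, f j i = ∑' i : ℕ, ∑ j ∈ s, f j i :=
  (Summable.tsum_finsetSum fun _ _ => ENNReal.summable).symm

section
variable {Ω T : Type*} [MeasurableSpace Ω] {P : Measure Ω} [IsProbabilityMeasure P]
  [MetricSpace T] [SecondCountableTopology T] [MeasurableSpace T] [BorelSpace T] [Nonempty T]
  {X : ℕ → Ω → T → ℝ} {ν : Measure T} [IsFiniteMeasure ν] {d : ℝ} {σ : ℕ → ℝ} {δ C0 cv : ℝ}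

/-- The piece of `U` at scale `j` around `x`. -/
def pc (U : Set T) (x : T) (J j : ℕ) : Set T := U ∩ {y | near x y j J}

lemma pc_meas {U : Set T} (hU : MeasurableSet U) (x : T) (J j : ℕ) : MeasurableSet (pc U x J j) := by
  have hdm : Measurable fun y : T => dist x y := (continuous_const.dist continuous_id).measurable
  unfold pc near
  apply hU.inter
  by_cases h : j < J
  · have e1 : {y : T | dist x y ≤ Real.exp (-sc j) ∧ (j < J → Real.exp (-sc (j + 1)) < dist x y)} =
        {y : T | dist x y ≤ Real.exp (-sc j)} ∩ {y | Real.exp (-sc (j + 1)) < dist x y} := by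
      ext y
      simp [h]
    rw [e1]
    exact (measurableSet_le hdm measurable_const).inter (measurableSet_lt measurable_const hdm)
  · have e1 : {y : T | dist x y ≤ Real.exp (-sc j) ∧ (j < J → Real.exp (-sc (j + 1)) < dist x y)} =
        {y : T | dist x y ≤ Real.exp (-sc j)} := by
      ext y
      simp [h]
    rw [e1]
    exact measurableSet_le hdm measurable_const

open Classical in
/-- The indicator that the mass of `U` exceeds `exp L`. -/
noncomputable def exc (P : Measure Ω) (ν : Measure T) (X : ℕ → Ω → T → ℝ) (b : ℝ) (n : ℕ)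
    (U : Set T) (L : ℝ) (ω : Ω) : ℝ≥0∞ := if ee L < mass P ν X b n U ω then 1 else 0

/-- The pointwise inequality. -/
lemma FieldHyp.exc_le (h : FieldHyp P X) {U : Set T} (hUm : MeasurableSet U)
    (hU1 : ∀ x ∈ U, ∀ y ∈ U, dist x y ≤ 1) {b be q rho c : ℝ} (d : ℝ) (σ : ℕ → ℝ)
    (hbe : 0 < be) (hqbe : be / 2 ≤ q)
    (hc : ∀ (J j0 : ℕ), ∑ j ∈ range J, ee (-(rho * |(j : ℝ) - j0|)) ≤ ee c)
    (n : ℕ) (x : T) (hx : x ∈ U) (L : ℝ) (ω : Ω) :
    exc P ν X b n U L ω ≤
      ∑ j ∈ range (Jn σ n + 1), ∑' i : ℕ, win (L + i) (Vj X b d σ j ω x) +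
      ∑ j0 ∈ range (Jn σ n + 1), ∑ j ∈ range (Jn σ n + 1), ∑' i : ℕ,
        ee (-(q * i) + q * (c + rho * |(j : ℝ) - j0|)) *
        (win (L - i - 1) (Vj X b d σ j0 ω x) *
          (ee (-(be / 2) * (Vj X b d σ j0 ω x - Vj X b d σ j ω x) - q * Vj X b d σ j ω x) *
          (mass P ν X b n (pc U x (Jn σ n) j) ω) ^ q)) := by
  classical
  set J := Jn σ n with hJ
  unfold exc
  split_ifs with hexc
  swap
  · exact zero_le
  obtain ⟨j0, hj0, hmax⟩ := Finset.exists_max_image (range (J + 1))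
    (fun j => Vj X b d σ j ω x) ⟨0, by simp⟩
  set V := fun j => Vj X b d σ j ω x with hV
  have hq0 : 0 ≤ q := by linarith
  by_cases hcase : L < V j0
  · refine le_trans ?_ (le_add_right le_rfl)
    set i := ⌊V j0 - L⌋₊ with hi
    have h1 : (i : ℝ) ≤ V j0 - L := Nat.floor_le (by linarith)
    have h2 : V j0 - L < i + 1 := Nat.lt_floor_add_one _
    have hwin : win (L + i) (V j0) = 1 := by
      unfold win
      rw [if_pos]
      constructor <;> linarith
    calc (1 : ℝ≥0∞) = win (L + i) (V j0) := hwin.symm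
      _ ≤ ∑' i : ℕ, win (L + i) (V j0) := ENNReal.le_tsum i
      _ ≤ _ := Finset.single_le_sum (f := fun j => ∑' i : ℕ, win (L + i) (V j))
          (fun _ _ => zero_le) hj0
  · push Not at hcase
    refine le_trans ?_ (le_add_left le_rfl)
    set i := ⌊L - V j0⌋₊ with hi
    have h1 : (i : ℝ) ≤ L - V j0 := Nat.floor_le (by linarith)
    have h2 : L - V j0 < i + 1 := Nat.lt_floor_add_one _
    have hwin : win (L - i - 1) (V j0) = 1 := by
      unfold win
      rw [if_pos]
      constructor <;> linarith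
    -- a piece with large mass
    have hpiece : ∃ j ∈ range (J + 1), ee (L - c - rho * |(j : ℝ) - j0|) <
        mass P ν X b n (pc U x J j) ω := by
      by_contra hneg
      push Not at hneg
      have hcov : U ⊆ ⋃ j ∈ range (J + 1), pc U x J j := by
        intro y hy
        obtain ⟨j, hj, hnear⟩ := near_cover (x := x) (y := y) J (hU1 x hx y hy)
        simp only [Set.mem_iUnion, Finset.mem_range, exists_prop]
        exact ⟨j, by omega, hy, hnear⟩
      have h3 := h.mass_le_sum (ν := ν) b n U hUm (fun j => pc U x J j)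
        (fun j => pc_meas hUm x J j) (J + 1) hcov ω
      have h4 : ∑ j ∈ range (J + 1), mass P ν X b n (pc U x J j) ω ≤
          ∑ j ∈ range (J + 1), ee (L - c) * ee (-(rho * |(j : ℝ) - j0|)) := by
        apply Finset.sum_le_sum
        intro j hj
        refine (hneg j hj).trans (le_of_eq ?_)
        rw [← ee_add]
        congr 1
      rw [← Finset.mul_sum] at h4
      have h5 : ee (L - c) * ∑ j ∈ range (J + 1), ee (-(rho * |(j : ℝ) - j0|)) ≤ ee L := by
        refine (mul_le_mul_right (hc (J + 1) j0) _).trans (le_of_eq ?_)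
        rw [← ee_add]
        congr 1
        ring
      exact absurd (h3.trans (h4.trans h5)) (not_le.2 hexc)
    obtain ⟨j, hj, hbig⟩ := hpiece
    have hVj : V j ≤ V j0 := hmax j hj
    have hone : 1 ≤ ee (-(q * i) + q * (c + rho * |(j : ℝ) - j0|)) *
        (win (L - i - 1) (V j0) * (ee (-(be / 2) * (V j0 - V j) - q * V j) *
          (mass P ν X b n (pc U x J j) ω) ^ q)) := by
      have h6 : ee (q * (L - c - rho * |(j : ℝ) - j0|)) ≤
          (mass P ν X b n (pc U x J j) ω) ^ q := by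
        rw [← ee_rpow]
        exact ENNReal.rpow_le_rpow hbig.le hq0
      calc (1 : ℝ≥0∞) = ee 0 := ee_zero.symm
        _ ≤ ee ((-(q * i) + q * (c + rho * |(j : ℝ) - j0|)) +
            ((-(be / 2) * (V j0 - V j) - q * V j) + q * (L - c - rho * |(j : ℝ) - j0|))) := by
            apply ee_mono
            have h7 : be / 2 * (V j0 - V j) ≤ q * (V j0 - V j) :=
              mul_le_mul_of_nonneg_right hqbe (by linarith)
            have h8 : q * i ≤ q * (L - V j0) := mul_le_mul_of_nonneg_left h1 hq0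
            linarith
        _ = ee (-(q * i) + q * (c + rho * |(j : ℝ) - j0|)) *
            (1 * (ee (-(be / 2) * (V j0 - V j) - q * V j) *
            ee (q * (L - c - rho * |(j : ℝ) - j0|)))) := by
            rw [one_mul, ← ee_add, ← ee_add]
        _ ≤ _ := by
            rw [hwin]
            exact mul_le_mul_right (mul_le_mul_right (mul_le_mul_right h6 _) _) _
    refine hone.trans ?_
    refine le_trans ?_ (Finset.single_le_sum (f := fun j0 : ℕ => ∑ j ∈ range (J + 1), ∑' i : ℕ,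
        ee (-(q * i) + q * (c + rho * |(j : ℝ) - j0|)) *
        (win (L - i - 1) (V j0) *
          (ee (-(be / 2) * (V j0 - V j) - q * V j) *
          (mass P ν X b n (pc U x J j) ω) ^ q))) (fun _ _ => zero_le) hj0)
    refine le_trans ?_ (Finset.single_le_sum (f := fun j : ℕ => ∑' i : ℕ,
        ee (-(q * i) + q * (c + rho * |(j : ℝ) - j0|)) *
        (win (L - i - 1) (V j0) *
          (ee (-(be / 2) * (V j0 - V j) - q * V j) *
          (mass P ν X b n (pc U x J j) ω) ^ q))) (fun _ _ => zero_le) hj)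
    exact ENNReal.le_tsum i

/-- The tail under the size-biased measure. -/
theorem FieldHyp.up_Q (h : FieldHyp P X) (hl : LogHyp P X ν d σ δ C0 cv) {U : Set T}
    (hUm : MeasurableSet U)
    (hU : ∀ x ∈ U, ∀ y ∈ U, dist x y ≤ δ) (hU1 : ∀ x ∈ U, ∀ y ∈ U, dist x y ≤ 1)
    {b be : ℝ} (hb : 0 < b) (hbe : 0 < be)
    (hd : d = b ^ 2 * (be + 1) / 2) :
    ∃ C : ℝ, ∀ (n : ℕ) (x : T) (L : ℝ), x ∈ U →
      ∫⁻ ω, Dn P X b n ω x * exc P ν X b n U L ω ∂P ≤ ee (C - be * L) := by
  have hl2 : 0 < Real.log 2 := Real.log_pos (by norm_num)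
  set q : ℝ := be + 1 / 2 with hq
  set kp : ℝ := b ^ 2 * be ^ 2 / 16 with hkp
  have hkp0 : 0 < kp := by positivity
  have hq0 : 0 < q := by positivity
  set rho : ℝ := kp * Real.log 2 / (2 * q) with hrho
  have hrho0 : 0 < rho := by positivity
  obtain ⟨c, hc⟩ := dist_sum hrho0
  obtain ⟨E1, hE1⟩ := h.est_mass hl hU hb hbe hd hq0 (by rw [hq]; linarith)
  obtain ⟨E0, hE0⟩ := h.est_zero hl hb hbe hd
  obtain ⟨Co, hCo⟩ := om_sum (show 0 < be / 8 by positivity)
    (show 0 < b ^ 2 * be / 2 by positivity)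
  obtain ⟨G1, hG1⟩ := tsum_geom hbe
  obtain ⟨G2, hG2⟩ := tsum_geom (show (0 : ℝ) < 1 / 2 by norm_num)
  obtain ⟨G3, hG3⟩ := dist_sum (show 0 < kp * Real.log 2 / 2 by positivity)
  refine ⟨Real.log (Real.exp (E0 + Co + G1) +
    Real.exp (E1 + Co + q * c + be + G2 + G3)), ?_⟩
  intro n x L hx
  set J := Jn σ n with hJ
  have hDm := h.Dn_meas_right b n x
  have hVm : ∀ j, Measurable fun ω => Vj X b d σ j ω x := fun j => h.Vj_meas b d σ j x
  have hwm : ∀ (v : ℝ) (j : ℕ), Measurable fun ω => win v (Vj X b d σ j ω x) := fun v j =>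
    (win_meas v).comp (hVm j)
  -- first sum
  have hA : ∫⁻ ω, Dn P X b n ω x * ∑ j ∈ range (J + 1), ∑' i : ℕ,
      win (L + i) (Vj X b d σ j ω x) ∂P ≤ ee (E0 + Co + G1 - be * L) := by
    have hterm : ∀ (j i : ℕ), j ∈ range (J + 1) →
        ∫⁻ ω, Dn P X b n ω x * win (L + i) (Vj X b d σ j ω x) ∂P ≤
        ee (E0 - be * L) * (ee (-(i * be)) * ee (om (be / 8) (b ^ 2 * be / 2) j (L + i))) := by
      intro j i hj
      have hjJ : j ≤ J := by rw [Finset.mem_range] at hj; omega
      have := hE0 n x j j (L + i) hjJ hjJ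
      simp only [sub_self, mul_zero, ee_zero, mul_one, abs_zero, sub_zero] at this
      refine this.trans (le_of_eq ?_)
      rw [← ee_add, ← ee_add]
      congr 1
      ring
    calc ∫⁻ ω, Dn P X b n ω x * ∑ j ∈ range (J + 1), ∑' i : ℕ,
          win (L + i) (Vj X b d σ j ω x) ∂P
        = ∑ j ∈ range (J + 1), ∑' i : ℕ, ∫⁻ ω, Dn P X b n ω x *
          win (L + i) (Vj X b d σ j ω x) ∂P :=
          lint_sum_tsum P hDm (range (J + 1)) (f := fun j i ω => win (L + i) (Vj X b d σ j ω x))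
            (fun j i => hwm _ j)
      _ ≤ ∑ j ∈ range (J + 1), ∑' i : ℕ, ee (E0 - be * L) * (ee (-(i * be)) *
          ee (om (be / 8) (b ^ 2 * be / 2) j (L + i))) :=
          Finset.sum_le_sum fun j hj => ENNReal.tsum_le_tsum fun i => hterm j i hj
      _ = ∑' i : ℕ, ee (E0 - be * L) * (ee (-(i * be)) * ∑ j ∈ range (J + 1),
          ee (om (be / 8) (b ^ 2 * be / 2) j (L + i))) := by
          rw [swap_sum_tsum]
          refine tsum_congr fun i => ?_
          rw [Finset.mul_sum, Finset.mul_sum]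
      _ ≤ ∑' i : ℕ, ee (E0 - be * L) * (ee (-(i * be)) * ee Co) :=
          ENNReal.tsum_le_tsum fun i => mul_le_mul_right
            (mul_le_mul_right (hCo (L + i) (J + 1)) _) _
      _ ≤ ee (E0 - be * L) * (ee G1 * ee Co) := by
          rw [ENNReal.tsum_mul_left, ENNReal.tsum_mul_right]
          exact mul_le_mul_right (mul_le_mul_left hG1 _) _
      _ = _ := by
          rw [← ee_add, ← ee_add]; congr 1; ring
  -- second sum
  have hmm : ∀ j, Measurable fun ω => (mass P ν X b n (pc U x J j) ω) ^ q := fun j =>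
    (h.mass_meas ν b n _).pow_const q
  have hB : ∫⁻ ω, Dn P X b n ω x * ∑ j0 ∈ range (J + 1), ∑ j ∈ range (J + 1), ∑' i : ℕ,
        ee (-(q * i) + q * (c + rho * |(j : ℝ) - j0|)) *
        (win (L - i - 1) (Vj X b d σ j0 ω x) *
          (ee (-(be / 2) * (Vj X b d σ j0 ω x - Vj X b d σ j ω x) - q * Vj X b d σ j ω x) *
          (mass P ν X b n (pc U x J j) ω) ^ q)) ∂P ≤
      ee (E1 + Co + q * c + be + G2 + G3 - be * L) := by
    have hgm : ∀ (j0 j i : ℕ), Measurable fun ω => (win (L - i - 1) (Vj X b d σ j0 ω x) *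
          (ee (-(be / 2) * (Vj X b d σ j0 ω x - Vj X b d σ j ω x) - q * Vj X b d σ j ω x) *
          (mass P ν X b n (pc U x J j) ω) ^ q)) := fun j0 j i =>
      (hwm _ j0).mul ((measurable_ee ((((hVm j0).sub (hVm j)).const_mul _).sub
        ((hVm j).const_mul _))).mul (hmm j))
    have hterm : ∀ (j0 j i : ℕ), j0 ∈ range (J + 1) → j ∈ range (J + 1) →
        ∫⁻ ω, Dn P X b n ω x * (ee (-(q * i) + q * (c + rho * |(j : ℝ) - j0|)) *
        (win (L - i - 1) (Vj X b d σ j0 ω x) *
          (ee (-(be / 2) * (Vj X b d σ j0 ω x - Vj X b d σ j ω x) - q * Vj X b d σ j ω x) *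
          (mass P ν X b n (pc U x J j) ω) ^ q))) ∂P ≤
        ee (E1 + q * c + be - be * L) * (ee (-(i * (1 / 2))) *
          (ee (om (be / 8) (b ^ 2 * be / 2) j0 (L - i - 1)) *
            ee (-(kp * Real.log 2 / 2 * |(j : ℝ) - j0|)))) := by
      intro j0 j i hj0 hj
      have hj0J : j0 ≤ J := by rw [Finset.mem_range] at hj0; omega
      have hjJ : j ≤ J := by rw [Finset.mem_range] at hj; omega
      have h1 := hE1 n x j0 j (L - i - 1) (pc U x J j) hx hj0J hjJ (pc_meas hUm x J j)
        (fun y hy => hy.1) (fun y hy => hy.2)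
      have e1 : ∀ ω, Dn P X b n ω x * (ee (-(q * i) + q * (c + rho * |(j : ℝ) - j0|)) *
        (win (L - i - 1) (Vj X b d σ j0 ω x) *
          (ee (-(be / 2) * (Vj X b d σ j0 ω x - Vj X b d σ j ω x) - q * Vj X b d σ j ω x) *
          (mass P ν X b n (pc U x J j) ω) ^ q))) =
          ee (-(q * i) + q * (c + rho * |(j : ℝ) - j0|)) *
          (Dn P X b n ω x * win (L - i - 1) (Vj X b d σ j0 ω x) *
          (ee (-(be / 2) * (Vj X b d σ j0 ω x - Vj X b d σ j ω x) - q * Vj X b d σ j ω x) *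
          (mass P ν X b n (pc U x J j) ω) ^ q)) := by
        intro ω; ring
      have hm1 : Measurable fun ω => Dn P X b n ω x * win (L - i - 1) (Vj X b d σ j0 ω x) *
          (ee (-(be / 2) * (Vj X b d σ j0 ω x - Vj X b d σ j ω x) - q * Vj X b d σ j ω x) *
          (mass P ν X b n (pc U x J j) ω) ^ q) :=
        (hDm.mul (hwm _ j0)).mul ((measurable_ee ((((hVm j0).sub (hVm j)).const_mul _).sub
          ((hVm j).const_mul _))).mul (hmm j))
      simp_rw [e1]
      rw [lintegral_const_mul _ hm1]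
      refine (mul_le_mul_right h1 _).trans (le_of_eq ?_)
      rw [← ee_add, ← ee_add, ← ee_add, ← ee_add]
      congr 1
      have e2 : |sc j - sc j0| = Real.log 2 * |(j : ℝ) - j0| := by
        unfold sc
        rw [← sub_mul, abs_mul, abs_of_pos hl2]
        ring
      have e3 : q * rho = kp * Real.log 2 / 2 := by rw [hrho]; field_simp
      rw [e2]
      have e4 : q * (c + rho * |(j : ℝ) - j0|) = q * c + kp * Real.log 2 / 2 *
          |(j : ℝ) - j0| := by rw [mul_add, ← mul_assoc, e3]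
      rw [e4, hq]
      ring
    calc _ = ∑ j0 ∈ range (J + 1), ∑ j ∈ range (J + 1), ∑' i : ℕ,
          ∫⁻ ω, Dn P X b n ω x * (ee (-(q * i) + q * (c + rho * |(j : ℝ) - j0|)) *
        (win (L - i - 1) (Vj X b d σ j0 ω x) *
          (ee (-(be / 2) * (Vj X b d σ j0 ω x - Vj X b d σ j ω x) - q * Vj X b d σ j ω x) *
          (mass P ν X b n (pc U x J j) ω) ^ q))) ∂P := by
          have e1 : ∀ ω, Dn P X b n ω x * ∑ j0 ∈ range (J + 1), ∑ j ∈ range (J + 1), ∑' i : ℕ,
              ee (-(q * i) + q * (c + rho * |(j : ℝ) - j0|)) *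
              (win (L - i - 1) (Vj X b d σ j0 ω x) *
              (ee (-(be / 2) * (Vj X b d σ j0 ω x - Vj X b d σ j ω x) - q * Vj X b d σ j ω x) *
              (mass P ν X b n (pc U x J j) ω) ^ q)) =
              ∑ j0 ∈ range (J + 1), Dn P X b n ω x * ∑ j ∈ range (J + 1), ∑' i : ℕ,
              ee (-(q * i) + q * (c + rho * |(j : ℝ) - j0|)) *
              (win (L - i - 1) (Vj X b d σ j0 ω x) *
              (ee (-(be / 2) * (Vj X b d σ j0 ω x - Vj X b d σ j ω x) - q * Vj X b d σ j ω x) *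
              (mass P ν X b n (pc U x J j) ω) ^ q)) := by
            intro ω
            rw [Finset.mul_sum]
          simp_rw [e1]
          have hm2 : ∀ j0 : ℕ, Measurable fun ω => Dn P X b n ω x *
              ∑ j ∈ range (J + 1), ∑' i : ℕ,
              ee (-(q * i) + q * (c + rho * |(j : ℝ) - j0|)) *
              (win (L - i - 1) (Vj X b d σ j0 ω x) *
              (ee (-(be / 2) * (Vj X b d σ j0 ω x - Vj X b d σ j ω x) - q * Vj X b d σ j ω x) *
              (mass P ν X b n (pc U x J j) ω) ^ q)) := fun j0 =>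
            hDm.mul (Finset.measurable_sum _ fun j _ => Measurable.tsum fun i =>
              (hgm j0 j i).const_mul _)
          rw [lintegral_finsetSum _ fun j0 _ => hm2 j0]
          refine Finset.sum_congr rfl fun j0 _ => ?_
          exact lint_sum_tsum P hDm (range (J + 1))
            (f := fun j i ω => ee (-(q * i) + q * (c + rho * |(j : ℝ) - j0|)) *
              (win (L - i - 1) (Vj X b d σ j0 ω x) *
              (ee (-(be / 2) * (Vj X b d σ j0 ω x - Vj X b d σ j ω x) - q * Vj X b d σ j ω x) *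
              (mass P ν X b n (pc U x J j) ω) ^ q)))
            (fun j i => (hgm j0 j i).const_mul _)
      _ ≤ ∑ j0 ∈ range (J + 1), ∑ j ∈ range (J + 1), ∑' i : ℕ,
          ee (E1 + q * c + be - be * L) * (ee (-(i * (1 / 2))) *
          (ee (om (be / 8) (b ^ 2 * be / 2) j0 (L - i - 1)) *
            ee (-(kp * Real.log 2 / 2 * |(j : ℝ) - j0|)))) :=
          Finset.sum_le_sum fun j0 hj0 => Finset.sum_le_sum fun j hj =>
            ENNReal.tsum_le_tsum fun i => hterm j0 j i hj0 hj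
      _ = ∑' i : ℕ, ee (E1 + q * c + be - be * L) * (ee (-(i * (1 / 2))) *
          ∑ j0 ∈ range (J + 1), ee (om (be / 8) (b ^ 2 * be / 2) j0 (L - i - 1)) *
            ∑ j ∈ range (J + 1), ee (-(kp * Real.log 2 / 2 * |(j : ℝ) - j0|))) := by
          have e1 : ∀ j0 ∈ range (J + 1), ∑ j ∈ range (J + 1), ∑' i : ℕ,
              ee (E1 + q * c + be - be * L) * (ee (-(i * (1 / 2))) *
              (ee (om (be / 8) (b ^ 2 * be / 2) j0 (L - i - 1)) *
              ee (-(kp * Real.log 2 / 2 * |(j : ℝ) - j0|)))) =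
              ∑' i : ℕ, ee (E1 + q * c + be - be * L) * (ee (-(i * (1 / 2))) *
              (ee (om (be / 8) (b ^ 2 * be / 2) j0 (L - i - 1)) *
              ∑ j ∈ range (J + 1), ee (-(kp * Real.log 2 / 2 * |(j : ℝ) - j0|)))) := by
            intro j0 _
            rw [swap_sum_tsum]
            refine tsum_congr fun i => ?_
            rw [Finset.mul_sum, Finset.mul_sum, Finset.mul_sum]
          rw [Finset.sum_congr rfl e1, swap_sum_tsum]
          refine tsum_congr fun i => ?_
          rw [Finset.mul_sum, Finset.mul_sum]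
      _ ≤ ∑' i : ℕ, ee (E1 + q * c + be - be * L) * (ee (-(i * (1 / 2))) * (ee Co * ee G3)) := by
          refine ENNReal.tsum_le_tsum fun i => mul_le_mul_right (mul_le_mul_right ?_ _) _
          calc ∑ j0 ∈ range (J + 1), ee (om (be / 8) (b ^ 2 * be / 2) j0 (L - i - 1)) *
              ∑ j ∈ range (J + 1), ee (-(kp * Real.log 2 / 2 * |(j : ℝ) - j0|))
              ≤ ∑ j0 ∈ range (J + 1), ee (om (be / 8) (b ^ 2 * be / 2) j0 (L - i - 1)) *
                ee G3 := Finset.sum_le_sum fun j0 _ => mul_le_mul_right (hG3 (J + 1) j0) _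
            _ = (∑ j0 ∈ range (J + 1), ee (om (be / 8) (b ^ 2 * be / 2) j0 (L - i - 1))) *
                ee G3 := by rw [Finset.sum_mul]
            _ ≤ _ := mul_le_mul_left (hCo (L - i - 1) (J + 1)) _
      _ ≤ ee (E1 + q * c + be - be * L) * (ee G2 * (ee Co * ee G3)) := by
          rw [ENNReal.tsum_mul_left, ENNReal.tsum_mul_right]
          exact mul_le_mul_right (mul_le_mul_left hG2 _) _
      _ = _ := by
          rw [← ee_add, ← ee_add, ← ee_add]; congr 1; ring
  have hm1 : Measurable fun ω => Dn P X b n ω x * ∑ j ∈ range (J + 1), ∑' i : ℕ,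
      win (L + i) (Vj X b d σ j ω x) :=
    hDm.mul (Finset.measurable_sum _ fun j _ => Measurable.tsum fun i => hwm _ j)
  calc ∫⁻ ω, Dn P X b n ω x * exc P ν X b n U L ω ∂P
      ≤ ∫⁻ ω, (Dn P X b n ω x * ∑ j ∈ range (J + 1), ∑' i : ℕ,
          win (L + i) (Vj X b d σ j ω x)) +
        Dn P X b n ω x * ∑ j0 ∈ range (J + 1), ∑ j ∈ range (J + 1), ∑' i : ℕ,
        ee (-(q * i) + q * (c + rho * |(j : ℝ) - j0|)) *
        (win (L - i - 1) (Vj X b d σ j0 ω x) *
          (ee (-(be / 2) * (Vj X b d σ j0 ω x - Vj X b d σ j ω x) - q * Vj X b d σ j ω x) *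
          (mass P ν X b n (pc U x J j) ω) ^ q)) ∂P := by
        apply lintegral_mono
        intro ω
        simp only
        rw [← mul_add]
        exact mul_le_mul_right (h.exc_le hUm hU1 d σ hbe (by rw [hq]; linarith) hc n x hx L ω) _
    _ ≤ ee (E0 + Co + G1 - be * L) + ee (E1 + Co + q * c + be + G2 + G3 - be * L) := by
        rw [lintegral_add_left hm1]
        exact add_le_add hA hB
    _ = _ := by
        have hpos : 0 < Real.exp (E0 + Co + G1) + Real.exp (E1 + Co + q * c + be + G2 + G3) := by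
          positivity
        unfold ee
        rw [← ENNReal.ofReal_add (Real.exp_pos _).le (Real.exp_pos _).le]
        congr 1
        rw [sub_eq_add_neg, sub_eq_add_neg, sub_eq_add_neg, Real.exp_add _ (-(be * L)),
          Real.exp_add _ (-(be * L)), Real.exp_add _ (-(be * L)), Real.exp_log hpos]
        ring

end

end Pool.Agent.Helper55.Chaos
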