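import Mathlib
import Pool.Agent.Helper55.Tail.Fact
import Pool.Agent.Helper55.Tail.UpQ

set_option autoImplicit false
set_option linter.unusedSectionVars false
set_option linter.unusedVariables false

open MeasureTheory ProbabilityTheory Finset
open scoped ENNReal

namespace Pool.Agent.Helper55.Chaos

lemma four_ee (x : ℝ) : ee x = ee (x - Real.log 4) + ee (x - Real.log 4) +
    ee (x - Real.log 4) + ee (x - Real.log 4) := by
  have h4 : ee x = ENNReal.ofReal 4 * ee (x - Real.log 4) := by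
    rw [← ee_log (by norm_num), ← ee_add]; congr 1; ring
  rw [h4]
  have : ENNReal.ofReal 4 = 4 := by norm_num
  rw [this]
  ring

/-- Absorbing three small terms. -/
lemma absorb {x : ℝ} {t1 t2 t3 t4 : ℝ≥0∞} (h : ee x ≤ t1 + t2 + t3 + t4)
    (h1 : t1 ≤ ee (x - Real.log 4)) (h2 : t2 ≤ ee (x - Real.log 4))
    (h4 : t4 ≤ ee (x - Real.log 4)) : ee (x - Real.log 4) ≤ t3 := by
  have h5 : t1 + t2 + t3 + t4 ≤
      (ee (x - Real.log 4) + ee (x - Real.log 4) + ee (x - Real.log 4)) + t3 := by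
    calc t1 + t2 + t3 + t4 = (t1 + t2 + t4) + t3 := by ring
      _ ≤ _ := add_le_add_left (add_le_add (add_le_add h1 h2) h4) _
  have h6 := h.trans h5
  rw [four_ee x] at h6
  have hfin : ee (x - Real.log 4) + ee (x - Real.log 4) + ee (x - Real.log 4) ≠ ⊤ := by
    simp [ee_ne_top]
  exact (ENNReal.add_le_add_iff_left hfin).1 h6

/-- Interchange of an integral with a double finite sum. -/
lemma lint_sum_sum {Ω : Type*} [MeasurableSpace Ω] (μ : Measure Ω) {D : Ω → ℝ≥0∞}
    (hD : Measurable D) (s t : Finset ℕ) {f : ℕ → ℕ → Ω → ℝ≥0∞}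
    (hf : ∀ j i, Measurable (f j i)) :
    ∫⁻ ω, D ω * ∑ j ∈ s, ∑ i ∈ t, f j i ω ∂μ = ∑ j ∈ s, ∑ i ∈ t, ∫⁻ ω, D ω * f j i ω ∂μ := by
  have e1 : ∀ ω, D ω * ∑ j ∈ s, ∑ i ∈ t, f j i ω = ∑ j ∈ s, ∑ i ∈ t, D ω * f j i ω := by
    intro ω
    rw [Finset.mul_sum]
    exact Finset.sum_congr rfl fun j _ => Finset.mul_sum _ _ _
  simp_rw [e1]
  have h0 : ∀ j i, Measurable fun ω => D ω * f j i ω := fun j i => hD.mul (hf j i)
  have h1 : ∀ j, Measurable fun ω => ∑ i ∈ t, D ω * f j i ω := fun j =>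
    Finset.measurable_sum _ fun i _ => h0 j i
  rw [lintegral_finsetSum _ fun j _ => h1 j]
  refine Finset.sum_congr rfl fun j _ => ?_
  rw [lintegral_finsetSum _ fun i _ => h0 j i]

section
variable {Ω T : Type*} [mΩ : MeasurableSpace Ω] {P : Measure Ω} [IsProbabilityMeasure P]
  [MetricSpace T] [SecondCountableTopology T] [MeasurableSpace T] [BorelSpace T] [Nonempty T]
  {X : ℕ → Ω → T → ℝ} {ν : Measure T} [IsFiniteMeasure ν] {d : ℝ} {σ : ℕ → ℝ} {δ C0 cv : ℝ}

/-- The deterministic crossing inequality. -/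
lemma cross_det (V : ℕ → ℝ) (be L : ℝ) (hbe : 0 < be) (K j1 J : ℕ) (hj : j1 ≤ J) :
    (1 : ℝ≥0∞) ≤ ee (V j1 - L) + ee (be / 2 * (L - V J)) +
      (∑ j ∈ Ico j1 J, ∑ i ∈ range (K + 1), win (L + i) (V (j + 1))) +
      ∑ j ∈ range J, ∑' i : ℕ, ee (-((K : ℝ) + i)) *
        (win (L - i - 1) (V j) * ee (V (j + 1) - V j)) := by
  classical
  by_cases h1 : L ≤ V j1
  · refine le_trans ?_ (le_add_right (le_add_right (le_add_right le_rfl)))
    rw [← ee_zero]
    exact ee_mono (by linarith)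
  by_cases h2 : V J < L
  · refine le_trans ?_ (le_add_right (le_add_right (le_add_left le_rfl)))
    rw [← ee_zero]
    exact ee_mono (by have : 0 ≤ be / 2 * (L - V J) := mul_nonneg (by linarith) (by linarith); linarith)
  push Not at h1 h2
  -- the first crossing
  have hex : ∃ k, L ≤ V (j1 + k) := ⟨J - j1, by rw [Nat.add_sub_cancel' hj]; exact h2⟩
  have hk1 : L ≤ V (j1 + Nat.find hex) := Nat.find_spec hex
  have hk0 : 0 < Nat.find hex := by
    rcases Nat.eq_zero_or_pos (Nat.find hex) with h0 | h0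
    · exfalso
      rw [h0, Nat.add_zero] at hk1
      linarith
    · exact h0
  have hk2 : Nat.find hex ≤ J - j1 := Nat.find_min' hex (by rw [Nat.add_sub_cancel' hj]; exact h2)
  obtain ⟨k', hk'⟩ : ∃ k', Nat.find hex = k' + 1 := ⟨Nat.find hex - 1, by omega⟩
  have hk3 : ¬ (L ≤ V (j1 + k')) := Nat.find_min hex (by omega)
  push Not at hk3
  set j := j1 + k' with hjdef
  have hjJ : j < J := by omega
  have hj1 : j1 ≤ j := by omega
  have hup : L ≤ V (j + 1) := by rw [hk'] at hk1; exact hk1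
  by_cases h3 : V (j + 1) ≤ L + K
  · refine le_trans ?_ (le_add_right (le_add_left le_rfl))
    set i := ⌊V (j + 1) - L⌋₊ with hi
    have h4 : (i : ℝ) ≤ V (j + 1) - L := Nat.floor_le (by linarith)
    have h5 : V (j + 1) - L < i + 1 := Nat.lt_floor_add_one _
    have hiK : i < K + 1 := by
      have : (i : ℝ) ≤ K := by linarith
      have : i ≤ K := by exact_mod_cast this
      omega
    have hwin : win (L + i) (V (j + 1)) = 1 := by
      unfold win
      rw [if_pos]
      constructor <;> linarith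
    calc (1 : ℝ≥0∞) = win (L + i) (V (j + 1)) := hwin.symm
      _ ≤ ∑ i ∈ range (K + 1), win (L + i) (V (j + 1)) :=
          Finset.single_le_sum (f := fun i : ℕ => win (L + i) (V (j + 1)))
            (fun _ _ => zero_le) (Finset.mem_range.2 hiK)
      _ ≤ _ := Finset.single_le_sum (f := fun j : ℕ => ∑ i ∈ range (K + 1),
            win (L + i) (V (j + 1))) (fun _ _ => zero_le) (Finset.mem_Ico.2 ⟨hj1, hjJ⟩)
  · push Not at h3
    refine le_trans ?_ (le_add_left le_rfl)
    set i := ⌊L - V j⌋₊ with hi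
    have h4 : (i : ℝ) ≤ L - V j := Nat.floor_le (by linarith)
    have h5 : L - V j < i + 1 := Nat.lt_floor_add_one _
    have hwin : win (L - i - 1) (V j) = 1 := by
      unfold win
      rw [if_pos]
      constructor <;> linarith
    calc (1 : ℝ≥0∞) ≤ ee (-((K : ℝ) + i)) * (win (L - i - 1) (V j) * ee (V (j + 1) - V j)) := by
          rw [hwin, one_mul, ← ee_add, ← ee_zero]
          exact ee_mono (by linarith)
      _ ≤ ∑' i : ℕ, ee (-((K : ℝ) + i)) * (win (L - i - 1) (V j) * ee (V (j + 1) - V j)) :=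
          ENNReal.le_tsum i
      _ ≤ _ := Finset.single_le_sum (f := fun j : ℕ => ∑' i : ℕ, ee (-((K : ℝ) + i)) *
            (win (L - i - 1) (V j) * ee (V (j + 1) - V j))) (fun _ _ => zero_le)
            (Finset.mem_range.2 hjJ)

lemma Vj_zero (hl : LogHyp P X ν d σ δ C0 cv) (b : ℝ) (ω : Ω) (x : T) :
    Vj X b d σ 0 ω x = 0 := by
  unfold Vj
  rw [hl.lev_zero, sc_zero]
  simp [S]

/-- The total visits of the window near `L` are at least `exp (-be L)`. -/
theorem FieldHyp.cross (h : FieldHyp P X) (hl : LogHyp P X ν d σ δ C0 cv)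
    {b be : ℝ} (hb : 0 < b) (hbe : 0 < be) (hd : d = b ^ 2 * (be + 1) / 2) (j1 : ℕ) :
    ∃ (K : ℕ) (c0 L0 a : ℝ), 0 < a ∧ ∀ (n : ℕ) (x : T) (L : ℝ), L0 ≤ L →
      a * (L + 1) ≤ sc (Jn σ n) →
      ee (-c0 - be * L) ≤ ∑ j ∈ Ico j1 (Jn σ n), ∑ i ∈ range (K + 1),
        ∫⁻ ω, Dn P X b n ω x * win (L + i) (Vj X b d σ (j + 1) ω x) ∂P := by
  obtain ⟨C, hC, hfact⟩ := h.fact_one hl hb hd (Lm := be + 1) (by positivity)
  obtain ⟨E, hE⟩ := h.est_jump hl hb hbe hd
  obtain ⟨Co, hCo⟩ := om_sum (show 0 < be / 8 by positivity)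
    (show 0 < b ^ 2 * be / 2 by positivity)
  obtain ⟨G, hG⟩ := tsum_geom (show (0 : ℝ) < 1 by norm_num)
  have hl4 : 0 < Real.log 4 := Real.log_pos (by norm_num)
  have hl2 : 0 < Real.log 2 := Real.log_pos (by norm_num)
  have hb2 : 0 < b ^ 2 := by positivity
  have hffbe : ff b be be = 0 := by unfold ff; ring
  set K : ℕ := ⌈C + E + Co + G + C + Real.log 4⌉₊ with hK
  have hKge : C + E + Co + G + C + Real.log 4 ≤ K := Nat.le_ceil _
  set kq : ℝ := b ^ 2 * be ^ 2 / 8 with hkq
  have hkq0 : 0 < kq := by positivity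
  set a : ℝ := max 1 (max (be / 2) (2 * C + Real.log 4) / kq) with ha
  have ha1 : 1 ≤ a := le_max_left _ _
  have ha2 : be / 2 ≤ kq * a := by
    have : max (be / 2) (2 * C + Real.log 4) / kq ≤ a := le_max_right _ _
    rw [div_le_iff₀ hkq0] at this
    have := (le_max_left (be / 2) (2 * C + Real.log 4)).trans this
    linarith
  have ha3 : 2 * C + Real.log 4 ≤ kq * a := by
    have : max (be / 2) (2 * C + Real.log 4) / kq ≤ a := le_max_right _ _
    rw [div_le_iff₀ hkq0] at this
    have := (le_max_right (be / 2) (2 * C + Real.log 4)).trans this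
    linarith
  set L0 : ℝ := max (sc j1) (|ff b be (be + 1) * sc j1| + 3 * C + Real.log 4) with hL0
  refine ⟨K, C + C + be * (K + 1) + Real.log 4, L0, a, by linarith, ?_⟩
  intro n x L hL hJ
  set J := Jn σ n with hJdef
  have hL0n : 0 ≤ L0 := (sc_nonneg j1).trans (le_max_left _ _)
  have hLn : 0 ≤ L := hL0n.trans hL
  have hj1J : j1 ≤ J := by
    have h1 : sc j1 ≤ sc J := by
      have : sc j1 ≤ L := (le_max_left _ _).trans hL
      nlinarith
    by_contra h2
    push Not at h2
    have h3 : (J : ℝ) < j1 := by exact_mod_cast h2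
    unfold sc at h1
    nlinarith
  have hDm := h.Dn_meas_right b n x
  have hVm : ∀ j, Measurable fun ω => Vj X b d σ j ω x := fun j => h.Vj_meas b d σ j x
  have hwm : ∀ (v : ℝ) (j : ℕ), Measurable fun ω => win v (Vj X b d σ j ω x) := fun v j =>
    (win_meas v).comp (hVm j)
  have hwf : ∀ (v : ℝ) (j : ℕ), Measurable[filt h (lev σ j)] fun ω =>
      win v (Vj X b d σ j ω x) := fun v j => (win_meas v).comp (h.Vj_filt b d σ j x)
  have hbem : |be| ≤ be + 1 := by rw [abs_of_pos hbe]; linarith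
  -- the weight
  set W : Ω → ℝ≥0∞ := fun ω => Dn P X b n ω x * ee (be * Vj X b d σ J ω x) with hW
  have hWm : Measurable W := hDm.mul (measurable_ee ((hVm J).const_mul be))
  have hmean : ∫⁻ ω, Dn P X b n ω x ∂P = 1 := by
    have := h.point_mart b (Nat.zero_le n) x (H := fun _ => 1) measurable_const
    simp only [one_mul, FieldHyp.Dn_zero] at this
    simpa using this
  -- lower bound of the total
  have hT0 : ee (-C) ≤ ∫⁻ ω, W ω ∂P := by
    have h1 := (hfact n x 0 J be (fun _ => 1) measurable_const (Nat.zero_le _) le_rfl hbem).2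
    simp only [one_mul, Vj_zero hl, mul_zero, ee_zero, mul_one, hffbe, zero_mul, zero_sub,
      hmean] at h1
    exact h1
  -- first term
  have hT1 : ∫⁻ ω, W ω * ee (Vj X b d σ j1 ω x - L) ∂P ≤ ee (-C - Real.log 4) := by
    have h1 := (hfact n x j1 J be (fun ω => ee (Vj X b d σ j1 ω x))
      (ee_comp (h.Vj_filt b d σ j1 x)) hj1J le_rfl hbem).1
    have h2 := (hfact n x 0 j1 (be + 1) (fun _ => 1) measurable_const (Nat.zero_le _) hj1J
      (by rw [abs_of_pos (by linarith)])).1
    simp only [one_mul, Vj_zero hl, mul_zero, ee_zero, mul_one, hmean, sc_zero, sub_zero] at h2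
    rw [hffbe, zero_mul, zero_add] at h1
    have e1 : ∫⁻ ω, ee (Vj X b d σ j1 ω x) * (Dn P X b n ω x *
        ee (be * Vj X b d σ j1 ω x)) ∂P =
        ∫⁻ ω, Dn P X b n ω x * ee ((be + 1) * Vj X b d σ j1 ω x) ∂P := by
      apply lintegral_congr; intro ω
      rw [mul_left_comm, ← ee_add]
      congr 2
      ring
    rw [e1] at h1
    have e2 : ∫⁻ ω, W ω * ee (Vj X b d σ j1 ω x - L) ∂P =
        ee (-L) * ∫⁻ ω, ee (Vj X b d σ j1 ω x) * (Dn P X b n ω x *
          ee (be * Vj X b d σ J ω x)) ∂P := by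
      rw [← lintegral_const_mul]
      · apply lintegral_congr; intro ω
        rw [sub_eq_add_neg, ee_add]
        simp only [hW]
        ring
      · exact (measurable_ee (hVm j1)).mul hWm
    rw [e2]
    refine (mul_le_mul_right (h1.trans (mul_le_mul_right h2 _)) _).trans ?_
    rw [← ee_add, ← ee_add]
    apply ee_mono
    have h3 : |ff b be (be + 1) * sc j1| + 3 * C + Real.log 4 ≤ L := (le_max_right _ _).trans hL
    have h4 := le_abs_self (ff b be (be + 1) * sc j1)
    linarith
  -- second term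
  have hT2 : ∫⁻ ω, W ω * ee (be / 2 * (L - Vj X b d σ J ω x)) ∂P ≤ ee (-C - Real.log 4) := by
    have h2 := (hfact n x 0 J (be / 2) (fun _ => 1) measurable_const (Nat.zero_le _) le_rfl
      (by rw [abs_of_pos (by linarith)]; linarith)).1
    simp only [one_mul, Vj_zero hl, mul_zero, ee_zero, mul_one, hmean, sc_zero, sub_zero] at h2
    have e2 : ∫⁻ ω, W ω * ee (be / 2 * (L - Vj X b d σ J ω x)) ∂P =
        ee (be / 2 * L) * ∫⁻ ω, Dn P X b n ω x * ee (be / 2 * Vj X b d σ J ω x) ∂P := by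
      rw [← lintegral_const_mul]
      · apply lintegral_congr; intro ω
        simp only [hW]
        rw [mul_assoc, ← ee_add, mul_left_comm, ← ee_add]
        congr 2
        ring
      · exact hDm.mul (measurable_ee ((hVm J).const_mul _))
    rw [e2]
    refine (mul_le_mul_right h2 _).trans ?_
    rw [← ee_add]
    apply ee_mono
    have h3 : ff b be (be / 2) = -kq := by unfold ff; rw [hkq]; ring
    rw [h3]
    have h4 : kq * (a * (L + 1)) ≤ kq * sc J := mul_le_mul_of_nonneg_left hJ hkq0.le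
    nlinarith
  -- fourth term
  have hT4 : ∫⁻ ω, W ω * ∑ j ∈ range J, ∑' i : ℕ, ee (-((K : ℝ) + i)) *
        (win (L - i - 1) (Vj X b d σ j ω x) *
          ee (Vj X b d σ (j + 1) ω x - Vj X b d σ j ω x)) ∂P ≤ ee (-C - Real.log 4) := by
    have hfm : ∀ j i : ℕ, Measurable fun ω => ee (-((K : ℝ) + i)) *
        (win (L - i - 1) (Vj X b d σ j ω x) *
          ee (Vj X b d σ (j + 1) ω x - Vj X b d σ j ω x)) := fun j i =>
      ((hwm _ j).mul (measurable_ee ((hVm (j + 1)).sub (hVm j)))).const_mul _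
    rw [lint_sum_tsum P hWm (range J) hfm]
    have hterm : ∀ j ∈ range J, ∀ i : ℕ, ∫⁻ ω, W ω * (ee (-((K : ℝ) + i)) *
        (win (L - i - 1) (Vj X b d σ j ω x) *
          ee (Vj X b d σ (j + 1) ω x - Vj X b d σ j ω x))) ∂P ≤
        ee (C + E - K) * (ee (-(i * 1)) * ee (om (be / 8) (b ^ 2 * be / 2) j (L - i - 1))) := by
      intro j hj i
      have hjJ : j + 1 ≤ J := by rw [Finset.mem_range] at hj; omega
      have hff : Measurable[filt h (lev σ (j + 1))] fun ω =>
          win (L - i - 1) (Vj X b d σ j ω x) *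
          ee (Vj X b d σ (j + 1) ω x - Vj X b d σ j ω x) := by
        have hmono := (filt h).mono (hl.lev_mono (Nat.le_succ j))
        exact ((hwf _ j).mono hmono le_rfl).mul (ee_comp ((h.Vj_filt b d σ (j + 1) x).sub
          ((h.Vj_filt b d σ j x).mono hmono le_rfl)))
      have h1 := (hfact n x (j + 1) J be _ hff hjJ le_rfl hbem).1
      rw [hffbe, zero_mul, zero_add] at h1
      have h2 := hE n x j (L - i - 1) hjJ
      have e1 : ∫⁻ ω, W ω * (ee (-((K : ℝ) + i)) * (win (L - i - 1) (Vj X b d σ j ω x) *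
          ee (Vj X b d σ (j + 1) ω x - Vj X b d σ j ω x))) ∂P =
          ee (-((K : ℝ) + i)) * ∫⁻ ω, (win (L - i - 1) (Vj X b d σ j ω x) *
          ee (Vj X b d σ (j + 1) ω x - Vj X b d σ j ω x)) * (Dn P X b n ω x *
          ee (be * Vj X b d σ J ω x)) ∂P := by
        rw [← lintegral_const_mul]
        · apply lintegral_congr; intro ω
          simp only [hW]
          ring
        · exact ((hwm _ j).mul (measurable_ee ((hVm (j + 1)).sub (hVm j)))).mul hWm
      have e2 : ∫⁻ ω, (win (L - i - 1) (Vj X b d σ j ω x) *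
          ee (Vj X b d σ (j + 1) ω x - Vj X b d σ j ω x)) * (Dn P X b n ω x *
          ee (be * Vj X b d σ (j + 1) ω x)) ∂P =
          ∫⁻ ω, Dn P X b n ω x * ee (be * Vj X b d σ (j + 1) ω x) *
          (win (L - i - 1) (Vj X b d σ j ω x) *
          ee (Vj X b d σ (j + 1) ω x - Vj X b d σ j ω x)) ∂P := by
        apply lintegral_congr; intro ω
        ring
      rw [e2] at h1
      rw [e1]
      refine (mul_le_mul_right (h1.trans (mul_le_mul_right h2 _)) _).trans (le_of_eq ?_)
      rw [← ee_add, ← ee_add, ← ee_add, ← ee_add]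
      congr 1
      ring
    calc _ ≤ ∑ j ∈ range J, ∑' i : ℕ, ee (C + E - K) * (ee (-(i * 1)) *
          ee (om (be / 8) (b ^ 2 * be / 2) j (L - i - 1))) :=
          Finset.sum_le_sum fun j hj => ENNReal.tsum_le_tsum fun i => hterm j hj i
      _ = ∑' i : ℕ, ee (C + E - K) * (ee (-(i * 1)) * ∑ j ∈ range J,
          ee (om (be / 8) (b ^ 2 * be / 2) j (L - i - 1))) := by
          rw [swap_sum_tsum]
          refine tsum_congr fun i => ?_
          rw [Finset.mul_sum, Finset.mul_sum]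
      _ ≤ ∑' i : ℕ, ee (C + E - K) * (ee (-(i * 1)) * ee Co) :=
          ENNReal.tsum_le_tsum fun i => mul_le_mul_right
            (mul_le_mul_right (hCo (L - i - 1) J) _) _
      _ ≤ ee (C + E - K) * (ee G * ee Co) := by
          rw [ENNReal.tsum_mul_left, ENNReal.tsum_mul_right]
          exact mul_le_mul_right (mul_le_mul_left hG _) _
      _ ≤ _ := by
          rw [← ee_add, ← ee_add]
          apply ee_mono
          linarith
  -- third term
  have hT3 : ∫⁻ ω, W ω * ∑ j ∈ Ico j1 J, ∑ i ∈ range (K + 1),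
        win (L + i) (Vj X b d σ (j + 1) ω x) ∂P ≤
      ee (C + be * (L + K + 1)) * ∑ j ∈ Ico j1 J, ∑ i ∈ range (K + 1),
        ∫⁻ ω, Dn P X b n ω x * win (L + i) (Vj X b d σ (j + 1) ω x) ∂P := by
    have hterm : ∀ j ∈ Ico j1 J, ∀ i ∈ range (K + 1),
        ∫⁻ ω, W ω * win (L + i) (Vj X b d σ (j + 1) ω x) ∂P ≤
        ee (C + be * (L + K + 1)) *
        ∫⁻ ω, Dn P X b n ω x * win (L + i) (Vj X b d σ (j + 1) ω x) ∂P := by
      intro j hj i hi
      have hjJ : j + 1 ≤ J := by rw [Finset.mem_Ico] at hj; omega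
      have hiK : (i : ℝ) ≤ K := by
        rw [Finset.mem_range] at hi
        exact_mod_cast (by omega : i ≤ K)
      have h1 := (hfact n x (j + 1) J be _ (hwf (L + i) (j + 1)) hjJ le_rfl hbem).1
      rw [hffbe, zero_mul, zero_add] at h1
      calc ∫⁻ ω, W ω * win (L + i) (Vj X b d σ (j + 1) ω x) ∂P
          = ∫⁻ ω, win (L + i) (Vj X b d σ (j + 1) ω x) * (Dn P X b n ω x *
            ee (be * Vj X b d σ J ω x)) ∂P := by
            apply lintegral_congr; intro ω
            simp only [hW]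
            ring
        _ ≤ ee C * ∫⁻ ω, win (L + i) (Vj X b d σ (j + 1) ω x) * (Dn P X b n ω x *
            ee (be * Vj X b d σ (j + 1) ω x)) ∂P := h1
        _ ≤ ee C * ∫⁻ ω, ee (be * (L + K + 1)) * (Dn P X b n ω x *
            win (L + i) (Vj X b d σ (j + 1) ω x)) ∂P := by
            apply mul_le_mul_right
            apply lintegral_mono; intro ω
            beta_reduce
            set u := Vj X b d σ (j + 1) ω x
            unfold win
            split_ifs with hw
            · rw [one_mul, mul_one, mul_comm]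
              apply mul_le_mul_left (ee_mono _)
              apply mul_le_mul_of_nonneg_left _ hbe.le
              linarith [hw.2]
            · simp
        _ = _ := by
            have hm0 : Measurable fun ω => Dn P X b n ω x *
                win (L + i) (Vj X b d σ (j + 1) ω x) := hDm.mul (hwm _ _)
            rw [lintegral_const_mul _ hm0, ← mul_assoc, ← ee_add]
    have e1 : ∫⁻ ω, W ω * ∑ j ∈ Ico j1 J, ∑ i ∈ range (K + 1),
        win (L + i) (Vj X b d σ (j + 1) ω x) ∂P =
        ∑ j ∈ Ico j1 J, ∑ i ∈ range (K + 1),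
        ∫⁻ ω, W ω * win (L + i) (Vj X b d σ (j + 1) ω x) ∂P :=
      lint_sum_sum P hWm _ _ (f := fun j i ω => win (L + i) (Vj X b d σ (j + 1) ω x))
        (fun j i => hwm _ _)
    rw [e1, Finset.mul_sum]
    refine Finset.sum_le_sum fun j hj => ?_
    rw [Finset.mul_sum]
    exact Finset.sum_le_sum fun i hi => hterm j hj i hi
  -- combine
  have hall : ee (-C) ≤ ∫⁻ ω, W ω * ee (Vj X b d σ j1 ω x - L) ∂P +
      ∫⁻ ω, W ω * ee (be / 2 * (L - Vj X b d σ J ω x)) ∂P +
      ∫⁻ ω, W ω * ∑ j ∈ Ico j1 J, ∑ i ∈ range (K + 1),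
        win (L + i) (Vj X b d σ (j + 1) ω x) ∂P +
      ∫⁻ ω, W ω * ∑ j ∈ range J, ∑' i : ℕ, ee (-((K : ℝ) + i)) *
        (win (L - i - 1) (Vj X b d σ j ω x) *
          ee (Vj X b d σ (j + 1) ω x - Vj X b d σ j ω x)) ∂P := by
    have m1 : Measurable fun ω => W ω * ee (Vj X b d σ j1 ω x - L) :=
      hWm.mul (measurable_ee ((hVm j1).sub measurable_const))
    have m2 : Measurable fun ω => W ω * ee (be / 2 * (L - Vj X b d σ J ω x)) :=
      hWm.mul (measurable_ee ((measurable_const.sub (hVm J)).const_mul _))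
    have m3 : Measurable fun ω => W ω * ∑ j ∈ Ico j1 J, ∑ i ∈ range (K + 1),
        win (L + i) (Vj X b d σ (j + 1) ω x) :=
      hWm.mul (Finset.measurable_sum _ fun j _ => Finset.measurable_sum _ fun i _ => hwm _ _)
    have m12 : Measurable fun ω => W ω * ee (Vj X b d σ j1 ω x - L) +
        W ω * ee (be / 2 * (L - Vj X b d σ J ω x)) := m1.add m2
    have m123 : Measurable fun ω => W ω * ee (Vj X b d σ j1 ω x - L) +
        W ω * ee (be / 2 * (L - Vj X b d σ J ω x)) + W ω * ∑ j ∈ Ico j1 J, ∑ i ∈ range (K + 1),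
        win (L + i) (Vj X b d σ (j + 1) ω x) := m12.add m3
    rw [← lintegral_add_left m1, ← lintegral_add_left m12, ← lintegral_add_left m123]
    refine hT0.trans (lintegral_mono fun ω => ?_)
    beta_reduce
    have hdet := cross_det (fun j => Vj X b d σ j ω x) be L hbe K j1 J hj1J
    calc W ω = W ω * 1 := (mul_one _).symm
      _ ≤ _ := mul_le_mul_right hdet _
      _ = _ := by ring
  have hfin := (absorb hall hT1 hT2 hT4).trans hT3
  calc ee (-(C + C + be * (K + 1) + Real.log 4) - be * L)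
      = ee (-(C + be * (L + K + 1))) * ee (-C - Real.log 4) := by
        rw [← ee_add]; congr 1; ring
    _ ≤ ee (-(C + be * (L + K + 1))) * (ee (C + be * (L + K + 1)) *
        ∑ j ∈ Ico j1 J, ∑ i ∈ range (K + 1),
        ∫⁻ ω, Dn P X b n ω x * win (L + i) (Vj X b d σ (j + 1) ω x) ∂P) :=
        mul_le_mul_right hfin _
    _ = _ := by
        rw [← mul_assoc, ← ee_add, neg_add_cancel, ee_zero, one_mul]

end

end Pool.Agent.Helper55.Chaos
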