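import Mathlib
import Pool.Agent.Helper55.Tail.Cross

set_option autoImplicit false
set_option linter.unusedSectionVars false
set_option linter.unusedVariables false

open MeasureTheory ProbabilityTheory Finset
open scoped ENNReal

namespace Pool.Agent.Helper55.Chaos

lemma two_le_sq (a : ℝ≥0∞) : 2 * a ≤ 1 + a ^ 2 := by
  rcases eq_or_ne a ⊤ with h | h
  · subst h; simp
  · lift a to NNReal using h
    have h1 : (2 * a : NNReal) ≤ 1 + a ^ 2 := by
      rw [← NNReal.coe_le_coe]
      push_cast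
      nlinarith [sq_nonneg ((a : ℝ) - 1)]
    exact_mod_cast h1

lemma one_le_ee_add (h Z : ℝ) : (1 : ℝ≥0∞) ≤ ee (h - Z) + ee (Z - h) := by
  rcases le_total Z h with h1 | h1
  · refine le_trans ?_ (le_add_right le_rfl)
    rw [← ee_zero]; exact ee_mono (by linarith)
  · refine le_trans ?_ (le_add_left le_rfl)
    rw [← ee_zero]; exact ee_mono (by linarith)

lemma win_zero_or_one (v u : ℝ) : win v u = 0 ∨ (win v u = 1 ∧ v ≤ u ∧ u ≤ v + 1) := by
  unfold win
  split_ifs with h
  · exact Or.inr ⟨rfl, h⟩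
  · exact Or.inl rfl

section
variable {Ω T : Type*} [mΩ : MeasurableSpace Ω] {P : Measure Ω} [IsProbabilityMeasure P]
  [MetricSpace T] [SecondCountableTopology T] [MeasurableSpace T] [BorelSpace T] [Nonempty T]
  {X : ℕ → Ω → T → ℝ} {ν : Measure T} [IsFiniteMeasure ν] {d : ℝ} {σ : ℕ → ℝ} {δ C0 cv : ℝ}

/-- The key inequality between the visits and the mass of the annulus. -/
theorem FieldHyp.star (h : FieldHyp P X) (hl : LogHyp P X ν d σ δ C0 cv) {U : Set T}
    (hUm : MeasurableSet U) (hU : ∀ x ∈ U, ∀ y ∈ U, dist x y ≤ δ)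
    {b be : ℝ} (hb : 0 < b) (hbe : 0 < be) (hd : d = b ^ 2 * (be + 1) / 2) :
    ∃ C3 R0 : ℝ, ∀ (n : ℕ) (x : T) (j i : ℕ) (L cl hh : ℝ), x ∈ U → j ≤ Jn σ n →
      ee (-cl - d * sc j) ≤ ν (pc U x (Jn σ n) j) →
      ee (-cl) * ∫⁻ ω, Dn P X b n ω x * win (L + i) (Vj X b d σ j ω x) ∂P ≤
        ee (hh - L + C3) * ∫⁻ ω, (Dn P X b n ω x * win (L + i) (Vj X b d σ j ω x)) *
          mass P ν X b n (pc U x (Jn σ n) j) ω ∂P +
        ee (-hh + R0 - be * L + om (be / 8) (b ^ 2 * be / 2) j (L + i)) := by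
  have hC0 := hl.C0_nonneg
  have hl2 : 0 < Real.log 2 := Real.log_pos (by norm_num)
  have hC1 : 0 ≤ C1of C0 := by unfold C1of; linarith
  obtain ⟨CD, hCD, hD⟩ := h.Dn_bounds b
  obtain ⟨C2, hC2, hfact⟩ := h.fact_two hl b
  obtain ⟨E2, hE2⟩ := h.est_two hl hb hbe hd
  refine ⟨b ^ 2 * C1of C0 / 2 + CD + C2, E2 + cv, ?_⟩
  intro n x j i L cl hh hx hj hvol
  set J := Jn σ n with hJ
  set m := lev σ j with hm
  have hmn : m ≤ n := hl.lev_le_n hj
  set A := pc U x J j with hA
  have hAm : MeasurableSet A := pc_meas hUm x J j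
  set w : Ω → ℝ≥0∞ := fun ω => win (L + i) (Vj X b d σ j ω x) with hw
  have hwf : Measurable[filt h m] w := (win_meas _).comp (h.Vj_filt b d σ j x)
  have hwm : Measurable w := hwf.mono ((filt h).le m) le_rfl
  have hDm := h.Dn_meas_right b n x
  have hDmm := h.Dn_meas_right b m x
  set R : ℝ≥0∞ := ee (E2 - be * L + om (be / 8) (b ^ 2 * be / 2) j (L + i)) with hR
  set g : T → ℝ≥0∞ := fun y => ∫⁻ ω, w ω * (Dn P X b n ω x * Dn P X b n ω y) ∂P with hg
  set p : ℝ≥0∞ := ∫⁻ ω, Dn P X b n ω x * w ω ∂P with hp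
  -- pointwise in y
  have hy : ∀ y ∈ A, p ≤ ee (hh - L - d * sc j + (b ^ 2 * C1of C0 / 2 + CD + C2)) * g y +
      ee (-hh) * R := by
    intro y hyA
    have hyU : y ∈ U := hyA.1
    have hnear : near x y j J := hyA.2
    have hxy := hU x hx y hyU
    have e1 : p = ∫⁻ ω, w ω * Dn P X b m ω x ∂P := by
      rw [hp, ← h.point_mart b hmn x hwf]
      apply lintegral_congr; intro ω
      rw [mul_comm]
    set Z : Ω → ℝ := fun ω => b * (S X m ω x - S X m ω y) with hZ
    have hZm : Measurable Z := ((h.S_meas m x).sub (h.S_meas m y)).const_mul b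
    have t1 : ∫⁻ ω, Dn P X b m ω x * w ω * ee (Z ω) ∂P ≤ R := by
      refine (hE2 n x y j (L + i) hxy hj hnear).trans (ee_mono ?_)
      have : be * L ≤ be * (L + i) := by
        apply mul_le_mul_of_nonneg_left _ hbe.le
        have : (0 : ℝ) ≤ i := Nat.cast_nonneg i
        linarith
      linarith
    have hpt : ∀ ω, w ω * ee (-Z ω) ≤
        ee (-L - d * sc j + (b ^ 2 * C1of C0 / 2 + CD)) * (w ω * Dn P X b m ω y) := by
      intro ω
      rcases win_zero_or_one (L + i) (Vj X b d σ j ω x) with h0 | ⟨h1, h2, h3⟩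
      · have : w ω = 0 := h0
        rw [this]; simp
      · have hw1 : w ω = 1 := h1
        rw [hw1, one_mul, one_mul]
        have hKy := (abs_le.1 (hl.K_diag_lev j y)).2
        rw [← hm] at hKy
        have hV : Vj X b d σ j ω x = b * S X m ω x - (b ^ 2 / 2 + d) * sc j := rfl
        have hi : (0 : ℝ) ≤ i := Nat.cast_nonneg i
        refine le_trans ?_ (mul_le_mul_right (hD m ω y).2 _)
        rw [← ee_add]
        apply ee_mono
        simp only [hZ]
        have h4 : b ^ 2 * K P X m y y / 2 ≤ b ^ 2 * (sc j + C1of C0) / 2 := by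
          have := mul_le_mul_of_nonneg_left (show K P X m y y ≤ sc j + C1of C0 by linarith)
            (sq_nonneg b)
          linarith
        rw [hV] at h2
        linarith
    have t2 : ∫⁻ ω, w ω * Dn P X b m ω x * ee (-Z ω) ∂P ≤
        ee (-L - d * sc j + (b ^ 2 * C1of C0 / 2 + CD + C2)) * g y := by
      have hDy := h.Dn_meas_right b m y
      have hm3 : Measurable fun ω => w ω * (Dn P X b m ω x * Dn P X b m ω y) :=
        hwm.mul (hDmm.mul hDy)
      have h5 := hfact n x y j w hwf hj hxy hnear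
      calc ∫⁻ ω, w ω * Dn P X b m ω x * ee (-Z ω) ∂P
          ≤ ∫⁻ ω, ee (-L - d * sc j + (b ^ 2 * C1of C0 / 2 + CD)) *
            (w ω * (Dn P X b m ω x * Dn P X b m ω y)) ∂P := by
            apply lintegral_mono; intro ω
            beta_reduce
            calc w ω * Dn P X b m ω x * ee (-Z ω) = (w ω * ee (-Z ω)) * Dn P X b m ω x := by ring
              _ ≤ (ee (-L - d * sc j + (b ^ 2 * C1of C0 / 2 + CD)) *
                  (w ω * Dn P X b m ω y)) * Dn P X b m ω x := mul_le_mul_left (hpt ω) _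
              _ = _ := by ring
        _ = ee (-L - d * sc j + (b ^ 2 * C1of C0 / 2 + CD)) *
            ∫⁻ ω, w ω * (Dn P X b m ω x * Dn P X b m ω y) ∂P := lintegral_const_mul _ hm3
        _ = ee (-L - d * sc j + (b ^ 2 * C1of C0 / 2 + CD + C2)) * (ee (-C2) *
            ∫⁻ ω, w ω * (Dn P X b m ω x * Dn P X b m ω y) ∂P) := by
            rw [← mul_assoc (ee _) (ee (-C2)), ← ee_add]
            congr 2
            ring
        _ ≤ _ := mul_le_mul_right h5 _
    have m1 : Measurable fun ω => ee hh * (w ω * Dn P X b m ω x * ee (-Z ω)) :=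
      ((hwm.mul hDmm).mul (measurable_ee hZm.neg)).const_mul _
    have m2 : Measurable fun ω => w ω * Dn P X b m ω x * ee (-Z ω) :=
      (hwm.mul hDmm).mul (measurable_ee hZm.neg)
    have m3 : Measurable fun ω => Dn P X b m ω x * w ω * ee (Z ω) :=
      (hDmm.mul hwm).mul (measurable_ee hZm)
    calc p = ∫⁻ ω, w ω * Dn P X b m ω x ∂P := e1
      _ ≤ ∫⁻ ω, (ee hh * (w ω * Dn P X b m ω x * ee (-Z ω))) +
          ee (-hh) * (Dn P X b m ω x * w ω * ee (Z ω)) ∂P := by
          apply lintegral_mono; intro ω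
          beta_reduce
          calc w ω * Dn P X b m ω x = w ω * Dn P X b m ω x * 1 := (mul_one _).symm
            _ ≤ w ω * Dn P X b m ω x * (ee (hh - Z ω) + ee (Z ω - hh)) :=
                mul_le_mul_right (one_le_ee_add hh (Z ω)) _
            _ = _ := by
                rw [sub_eq_add_neg, sub_eq_add_neg, ee_add, ee_add]
                ring
      _ = ee hh * ∫⁻ ω, w ω * Dn P X b m ω x * ee (-Z ω) ∂P +
          ee (-hh) * ∫⁻ ω, Dn P X b m ω x * w ω * ee (Z ω) ∂P := by
          rw [lintegral_add_left m1, lintegral_const_mul _ m2, lintegral_const_mul _ m3]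
      _ ≤ ee hh * (ee (-L - d * sc j + (b ^ 2 * C1of C0 / 2 + CD + C2)) * g y) +
          ee (-hh) * R := add_le_add (mul_le_mul_right t2 _) (mul_le_mul_right t1 _)
      _ = _ := by
          rw [← mul_assoc, ← ee_add]
          congr 3
          ring
  -- integrate over the annulus
  have hgm : Measurable g := by
    have h1 : Measurable (Function.uncurry fun (y : T) (ω : Ω) =>
        w ω * (Dn P X b n ω x * Dn P X b n ω y)) := by
      have e2 : Measurable fun p : T × Ω => Dn P X b n p.2 p.1 := h.Dn_meas_uncurry b n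
      exact (hwm.comp measurable_snd).mul ((hDm.comp measurable_snd).mul e2)
    exact h1.lintegral_prod_right'
  have hq : ∫⁻ y in A, g y ∂ν = ∫⁻ ω, (Dn P X b n ω x * w ω) * mass P ν X b n A ω ∂P := by
    rw [h.tonelli ν b n A (g := fun ω => Dn P X b n ω x * w ω) (hDm.mul hwm)]
    apply setLIntegral_congr_fun hAm
    intro y _
    simp only [hg]
    apply lintegral_congr; intro ω
    ring
  have hvu : ν A ≤ ee (cv - d * sc j) := by
    have h1 : A ⊆ Metric.closedBall x (Real.exp (-sc j)) := by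
      intro y hyA
      rw [Metric.mem_closedBall, dist_comm]
      exact hyA.2.1
    have h2 := (measure_mono h1).trans (hl.vol x (Real.exp (-sc j)) (Real.exp_pos _))
    rw [Real.log_exp] at h2
    refine h2.trans (ee_mono ?_)
    linarith
  have hint : p * ν A ≤ ee (hh - L - d * sc j + (b ^ 2 * C1of C0 / 2 + CD + C2)) *
      ∫⁻ ω, (Dn P X b n ω x * w ω) * mass P ν X b n A ω ∂P + ee (-hh) * R * ν A := by
    calc p * ν A = ∫⁻ y in A, p ∂ν := by rw [setLIntegral_const]
      _ ≤ ∫⁻ y in A, (ee (hh - L - d * sc j + (b ^ 2 * C1of C0 / 2 + CD + C2)) * g y +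
          ee (-hh) * R) ∂ν := setLIntegral_mono' hAm hy
      _ = _ := by
          rw [lintegral_add_left (hgm.const_mul _), lintegral_const_mul _ hgm,
            setLIntegral_const, hq]
  calc ee (-cl) * p = ee (d * sc j) * (p * ee (-cl - d * sc j)) := by
        rw [mul_left_comm, ← ee_add, mul_comm]
        congr 2
        ring
    _ ≤ ee (d * sc j) * (p * ν A) := mul_le_mul_right (mul_le_mul_right hvol _) _
    _ ≤ ee (d * sc j) * (ee (hh - L - d * sc j + (b ^ 2 * C1of C0 / 2 + CD + C2)) *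
      ∫⁻ ω, (Dn P X b n ω x * w ω) * mass P ν X b n A ω ∂P + ee (-hh) * R * ν A) :=
        mul_le_mul_right hint _
    _ ≤ ee (d * sc j) * (ee (hh - L - d * sc j + (b ^ 2 * C1of C0 / 2 + CD + C2)) *
      ∫⁻ ω, (Dn P X b n ω x * w ω) * mass P ν X b n A ω ∂P +
        ee (-hh) * R * ee (cv - d * sc j)) :=
        mul_le_mul_right (add_le_add_right (mul_le_mul_right hvu _) _) _
    _ = _ := by
        rw [mul_add, ← mul_assoc, ← ee_add, hR, ← ee_add, ← ee_add, ← ee_add]
        congr 2
        · congr 1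
          ring
        · ring

/-- Truncation of the mass. -/
lemma trunc_le {q c c' L : ℝ} (hq : 1 < q) (M : ℝ≥0∞) :
    M ≤ ee (L - c) + ee (L + c') * (Set.indicator {x : ℝ≥0∞ | ee (L - c) ≤ x} (fun _ => 1) M) +
      ee (-((q - 1) * (L + c'))) * M ^ q := by
  by_cases h1 : M < ee (L - c)
  · exact h1.le.trans (le_add_right (le_add_right le_rfl))
  push Not at h1
  by_cases h2 : M ≤ ee (L + c')
  · refine le_trans ?_ (le_add_right (le_add_left le_rfl))
    rw [Set.indicator_of_mem (by exact h1), mul_one]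
    exact h2
  push Not at h2
  refine le_trans ?_ (le_add_left le_rfl)
  rcases eq_or_ne M ⊤ with h3 | h3
  · subst h3
    rw [ENNReal.top_rpow_of_pos (by linarith), ENNReal.mul_top (ee_ne_zero _)]
  · have hM0 : M ≠ 0 := fun h0 => by rw [h0] at h2; exact not_lt_bot h2
    have e1 : M ^ q = M ^ (q - 1) * M := by
      nth_rewrite 3 [← ENNReal.rpow_one M]
      rw [← ENNReal.rpow_add _ _ hM0 h3]
      congr 1; ring
    rw [e1, ← mul_assoc]
    calc M = 1 * M := (one_mul M).symm
      _ ≤ _ := by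
          apply mul_le_mul_left
          calc (1 : ℝ≥0∞) = ee (-((q - 1) * (L + c'))) * ee ((q - 1) * (L + c')) := by
                rw [← ee_add, neg_add_cancel, ee_zero]
            _ ≤ _ := by
                apply mul_le_mul_right
                rw [← ee_rpow]
                exact ENNReal.rpow_le_rpow h2.le (by linarith)

end

end Pool.Agent.Helper55.Chaos
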