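import Mathlib
import Pool.Agent.Helper55.Tail.LowA

set_option autoImplicit false
set_option linter.unusedSectionVars false
set_option linter.unusedVariables false

open MeasureTheory ProbabilityTheory Finset
open scoped ENNReal

namespace Pool.Agent.Helper55.Chaos

/-- The indicator that the mass is at least `exp L`. -/
noncomputable def big (L : ℝ) (M : ℝ≥0∞) : ℝ≥0∞ :=
  Set.indicator {x : ℝ≥0∞ | ee L ≤ x} (fun _ => 1) M

lemma big_meas (L : ℝ) : Measurable (big L) := by
  unfold big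
  exact measurable_const.indicator (measurableSet_le measurable_const measurable_id)

lemma big_le_one (L : ℝ) (M : ℝ≥0∞) : big L M ≤ 1 := by
  unfold big
  by_cases h : M ∈ {x : ℝ≥0∞ | ee L ≤ x}
  · rw [Set.indicator_of_mem h]
  · rw [Set.indicator_of_notMem h]; exact zero_le_one

lemma big_mono (L : ℝ) {M M' : ℝ≥0∞} (h : M ≤ M') : big L M ≤ big L M' := by
  unfold big
  by_cases h1 : M ∈ {x : ℝ≥0∞ | ee L ≤ x}
  · have h2 : M' ∈ {x : ℝ≥0∞ | ee L ≤ x} := le_trans h1 h
    rw [Set.indicator_of_mem h1, Set.indicator_of_mem h2]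
  · rw [Set.indicator_of_notMem h1]; exact zero_le

lemma big_eq_one {L : ℝ} {M : ℝ≥0∞} (h : ee L ≤ M) : big L M = 1 := by
  unfold big
  rw [Set.indicator_of_mem (by exact h)]

lemma big_ne_zero {L : ℝ} {M : ℝ≥0∞} (h : big L M ≠ 0) : ee L ≤ M := by
  by_contra h1
  exact h (by unfold big; rw [Set.indicator_of_notMem (by exact h1)])

/-- Constant times sums. -/
lemma sum_sum_le {s t : Finset ℕ} {f g : ℕ → ℕ → ℝ≥0∞} (h : ∀ j ∈ s, ∀ i ∈ t, f j i ≤ g j i) :
    ∑ j ∈ s, ∑ i ∈ t, f j i ≤ ∑ j ∈ s, ∑ i ∈ t, g j i :=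
  Finset.sum_le_sum fun j hj => Finset.sum_le_sum fun i hi => h j hj i hi

lemma mul_sum_sum (s t : Finset ℕ) (c : ℝ≥0∞) (f : ℕ → ℕ → ℝ≥0∞) :
    c * ∑ j ∈ s, ∑ i ∈ t, f j i = ∑ j ∈ s, ∑ i ∈ t, c * f j i := by
  rw [Finset.mul_sum]
  exact Finset.sum_congr rfl fun j _ => Finset.mul_sum _ _ _

/-- Sum of the local factors over the windows. -/
lemma om_windows {lam A : ℝ} (hlam : 0 < lam) (hA : 0 < A) (K : ℕ) :
    ∃ C : ℝ, ∀ (j1 J : ℕ) (L : ℝ), ∑ j ∈ Ico j1 J, ∑ i ∈ range (K + 1),
      ee (om lam A (j + 1) (L + i)) ≤ ee C := by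
  obtain ⟨Co, hCo⟩ := om_sum hlam hA
  refine ⟨Real.log (K + 1) + Co, fun j1 J L => ?_⟩
  rw [Finset.sum_comm]
  have h1 : ∀ i ∈ range (K + 1), ∑ j ∈ Ico j1 J, ee (om lam A (j + 1) (L + i)) ≤ ee Co := by
    intro i _
    calc ∑ j ∈ Ico j1 J, ee (om lam A (j + 1) (L + i))
        ≤ ∑ j ∈ range J, ee (om lam A (j + 1) (L + i)) := by
          apply Finset.sum_le_sum_of_subset
          rw [Finset.range_eq_Ico]
          exact Finset.Ico_subset_Ico_left (Nat.zero_le _)
      _ ≤ ∑ j ∈ range (J + 1), ee (om lam A j (L + i)) := by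
          rw [Finset.sum_range_succ' _ J]
          exact le_self_add
      _ ≤ ee Co := hCo (L + i) (J + 1)
  calc _ ≤ ∑ i ∈ range (K + 1), ee Co := Finset.sum_le_sum h1
    _ = _ := by
        rw [Finset.sum_const, Finset.card_range, nsmul_eq_mul, ee_add, ee_log (by positivity)]
        congr 1
        rw [ENNReal.ofReal_add (by positivity) (by norm_num)]
        simp

section
variable {Ω T : Type*} [mΩ : MeasurableSpace Ω] {P : Measure Ω} [IsProbabilityMeasure P]
  [MetricSpace T] [SecondCountableTopology T] [MeasurableSpace T] [BorelSpace T] [Nonempty T]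
  {X : ℕ → Ω → T → ℝ} {ν : Measure T} [IsFiniteMeasure ν] {d : ℝ} {σ : ℕ → ℝ} {δ C0 cv : ℝ}

/-- Visits of the window with a big mass of the annulus. -/
theorem FieldHyp.visits (h : FieldHyp P X) (hl : LogHyp P X ν d σ δ C0 cv) {U : Set T}
    (hUm : MeasurableSet U) (hU : ∀ x ∈ U, ∀ y ∈ U, dist x y ≤ δ)
    {b be : ℝ} (hb : 0 < b) (hbe : 0 < be) (hd : d = b ^ 2 * (be + 1) / 2) (j1 : ℕ) (cl : ℝ) :
    ∃ (K : ℕ) (c c1 L0 a : ℝ), 0 < a ∧ ∀ (n : ℕ) (x : T) (L : ℝ), x ∈ U → L0 ≤ L →
      a * (L + 1) ≤ sc (Jn σ n) →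
      (∀ j, j1 < j → j ≤ Jn σ n → ee (-cl - d * sc j) ≤ ν (pc U x (Jn σ n) j)) →
      ee (-c1 - be * L) ≤ ∑ j ∈ Ico j1 (Jn σ n), ∑ i ∈ range (K + 1),
        ∫⁻ ω, (Dn P X b n ω x * win (L + i) (Vj X b d σ (j + 1) ω x)) *
          big (L - c) (mass P ν X b n (pc U x (Jn σ n) (j + 1)) ω) ∂P := by
  obtain ⟨K, c0, L0, a, ha, hcross⟩ := h.cross hl hb hbe hd j1
  obtain ⟨C3, R0, hstar⟩ := h.star hl hUm hU hb hbe hd
  obtain ⟨E0, hE0⟩ := h.est_zero hl hb hbe hd
  set q : ℝ := 1 + be / 2 with hq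
  have hq1 : 1 < q := by rw [hq]; linarith
  obtain ⟨E1, hE1⟩ := h.est_mass hl hU hb hbe hd (q := q) (by linarith) (by rw [hq]; linarith)
  obtain ⟨W, hW⟩ := om_windows (show 0 < be / 8 by positivity)
    (show 0 < b ^ 2 * be / 2 by positivity) K
  have hl4 : 0 < Real.log 4 := Real.log_pos (by norm_num)
  -- constants
  set hh : ℝ := R0 + W + cl + c0 + Real.log 4 with hhh
  set c : ℝ := hh + C3 + (E0 + W) + cl + c0 + Real.log 4 with hc
  set c' : ℝ := max 0 ((hh + C3 + (q * (K + 1) + E1 + W) + cl + c0 + Real.log 4) / (q - 1)) with hc'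
  have hc'0 : 0 ≤ c' := le_max_left _ _
  have hc'1 : hh + C3 + (q * (K + 1) + E1 + W) + cl + c0 + Real.log 4 ≤ (q - 1) * c' := by
    have h1 := le_max_right 0 ((hh + C3 + (q * (K + 1) + E1 + W) + cl + c0 + Real.log 4) / (q - 1))
    rw [← hc', div_le_iff₀ (by linarith)] at h1
    linarith
  refine ⟨K, c, cl + c0 + Real.log 4 + hh + C3 + c', L0, a, ha, ?_⟩
  intro n x L hx hL hJ hvol
  set J := Jn σ n with hJdef
  have hDm := h.Dn_meas_right b n x
  have hwm : ∀ (j i : ℕ), Measurable fun ω => win (L + i) (Vj X b d σ (j + 1) ω x) := fun j i =>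
    (win_meas _).comp (h.Vj_meas b d σ (j + 1) x)
  have hmm : ∀ j : ℕ, Measurable fun ω => mass P ν X b n (pc U x J (j + 1)) ω := fun j =>
    h.mass_meas ν b n _
  set p : ℕ → ℕ → ℝ≥0∞ := fun j i =>
    ∫⁻ ω, Dn P X b n ω x * win (L + i) (Vj X b d σ (j + 1) ω x) ∂P with hp
  set qq : ℕ → ℕ → ℝ≥0∞ := fun j i =>
    ∫⁻ ω, (Dn P X b n ω x * win (L + i) (Vj X b d σ (j + 1) ω x)) *
          mass P ν X b n (pc U x J (j + 1)) ω ∂P with hqq
  set g : ℕ → ℕ → ℝ≥0∞ := fun j i =>
    ∫⁻ ω, (Dn P X b n ω x * win (L + i) (Vj X b d σ (j + 1) ω x)) *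
          big (L - c) (mass P ν X b n (pc U x J (j + 1)) ω) ∂P with hg
  set uu : ℕ → ℕ → ℝ≥0∞ := fun j i =>
    ∫⁻ ω, (Dn P X b n ω x * win (L + i) (Vj X b d σ (j + 1) ω x)) *
          (mass P ν X b n (pc U x J (j + 1)) ω) ^ q ∂P with huu
  set o : ℕ → ℕ → ℝ≥0∞ := fun j i => ee (om (be / 8) (b ^ 2 * be / 2) (j + 1) (L + i)) with ho
  have hjJ : ∀ j ∈ Ico j1 J, j1 < j + 1 ∧ j + 1 ≤ J := by
    intro j hj; rw [Finset.mem_Ico] at hj; omega
  have hiK : ∀ i ∈ range (K + 1), (i : ℝ) ≤ K := by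
    intro i hi
    rw [Finset.mem_range] at hi
    exact_mod_cast (by omega : i ≤ K)
  have hbi : ∀ i : ℕ, be * L ≤ be * (L + i) := by
    intro i
    apply mul_le_mul_of_nonneg_left _ hbe.le
    have : (0 : ℝ) ≤ i := Nat.cast_nonneg i
    linarith
  -- lower bound for the visits
  have hA : ee (-c0 - be * L) ≤ ∑ j ∈ Ico j1 J, ∑ i ∈ range (K + 1), p j i :=
    hcross n x L hL hJ
  -- star
  have hS : ∀ j ∈ Ico j1 J, ∀ i ∈ range (K + 1),
      ee (-cl) * p j i ≤ ee (hh - L + C3) * qq j i + ee (-hh + R0 - be * L) * o j i := by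
    intro j hj i hi
    have h1 := hstar n x (j + 1) i L cl hh hx (hjJ j hj).2 (hvol (j + 1) (hjJ j hj).1 (hjJ j hj).2)
    refine h1.trans (add_le_add_right (le_of_eq ?_) _)
    rw [ho, ← ee_add]
  -- upper bounds
  have hP : ∀ j ∈ Ico j1 J, ∀ i ∈ range (K + 1), p j i ≤ ee (E0 - be * L) * o j i := by
    intro j hj i hi
    have h1 := hE0 n x (j + 1) (j + 1) (L + i) (hjJ j hj).2 (hjJ j hj).2
    simp only [sub_self, mul_zero, ee_zero, mul_one, abs_zero, sub_zero] at h1
    refine h1.trans ?_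
    rw [ho, ← ee_add]
    apply ee_mono
    linarith [hbi i]
  have hUu : ∀ j ∈ Ico j1 J, ∀ i ∈ range (K + 1),
      uu j i ≤ ee (q * (L + K + 1) + E1 - be * L) * o j i := by
    intro j hj i hi
    have h1 := hE1 n x (j + 1) (j + 1) (L + i) (pc U x J (j + 1)) hx (hjJ j hj).2 (hjJ j hj).2
      (pc_meas hUm x J (j + 1)) (fun y hy => hy.1) (fun y hy => hy.2)
    simp only [sub_self, mul_zero, zero_sub, abs_zero, sub_zero] at h1
    have hm1 : Measurable fun ω => Dn P X b n ω x * win (L + i) (Vj X b d σ (j + 1) ω x) *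
        (ee (-(q * Vj X b d σ (j + 1) ω x)) * (mass P ν X b n (pc U x J (j + 1)) ω) ^ q) :=
      (hDm.mul (hwm j i)).mul ((measurable_ee (((h.Vj_meas b d σ (j + 1) x).const_mul q).neg)).mul
        ((hmm j).pow_const q))
    calc uu j i ≤ ∫⁻ ω, ee (q * (L + K + 1)) * (Dn P X b n ω x *
          win (L + i) (Vj X b d σ (j + 1) ω x) *
          (ee (-(q * Vj X b d σ (j + 1) ω x)) *
          (mass P ν X b n (pc U x J (j + 1)) ω) ^ q)) ∂P := by
          simp only [huu]
          apply lintegral_mono; intro ω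
          beta_reduce
          rcases win_zero_or_one (L + i) (Vj X b d σ (j + 1) ω x) with h0 | ⟨h0, h2, h3⟩
          · rw [h0]; simp
          · rw [h0, mul_one]
            have h4 : (1 : ℝ≥0∞) ≤ ee (q * (L + K + 1)) * ee (-(q * Vj X b d σ (j + 1) ω x)) := by
              rw [← ee_add, ← ee_zero]
              apply ee_mono
              have h5 : Vj X b d σ (j + 1) ω x ≤ L + K + 1 := by linarith [hiK i hi]
              have := mul_le_mul_of_nonneg_left h5 (show 0 ≤ q by linarith)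
              linarith
            calc Dn P X b n ω x * (mass P ν X b n (pc U x J (j + 1)) ω) ^ q
                = 1 * (Dn P X b n ω x * (mass P ν X b n (pc U x J (j + 1)) ω) ^ q) :=
                  (one_mul _).symm
              _ ≤ (ee (q * (L + K + 1)) * ee (-(q * Vj X b d σ (j + 1) ω x))) *
                  (Dn P X b n ω x * (mass P ν X b n (pc U x J (j + 1)) ω) ^ q) :=
                  mul_le_mul_left h4 _
              _ = _ := by ring
      _ = ee (q * (L + K + 1)) * ∫⁻ ω, (Dn P X b n ω x *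
          win (L + i) (Vj X b d σ (j + 1) ω x) *
          (ee (-(q * Vj X b d σ (j + 1) ω x)) *
          (mass P ν X b n (pc U x J (j + 1)) ω) ^ q)) ∂P := lintegral_const_mul _ hm1
      _ ≤ ee (q * (L + K + 1)) * ee (E1 - be * (L + i) +
          om (be / 8) (b ^ 2 * be / 2) (j + 1) (L + i)) := mul_le_mul_right h1 _
      _ ≤ _ := by
          rw [ho, ← ee_add, ← ee_add]
          apply ee_mono
          linarith [hbi i]
  -- truncation
  have hQ : ∀ j ∈ Ico j1 J, ∀ i ∈ range (K + 1),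
      qq j i ≤ ee (L - c) * p j i + ee (L + c') * g j i +
        ee (-((q - 1) * (L + c'))) * uu j i := by
    intro j hj i hi
    set D : Ω → ℝ≥0∞ := fun ω => Dn P X b n ω x * win (L + i) (Vj X b d σ (j + 1) ω x) with hD
    have hDm' : Measurable D := hDm.mul (hwm j i)
    set M : Ω → ℝ≥0∞ := fun ω => mass P ν X b n (pc U x J (j + 1)) ω with hM
    have hMm : Measurable M := hmm j
    have hbm : Measurable fun ω => D ω * big (L - c) (M ω) := hDm'.mul ((big_meas _).comp hMm)
    have hqm : Measurable fun ω => D ω * (M ω) ^ q := hDm'.mul (hMm.pow_const q)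
    have m1 : Measurable fun ω => ee (L - c) * D ω := hDm'.const_mul _
    have m2 : Measurable fun ω => ee (L + c') * (D ω * big (L - c) (M ω)) := hbm.const_mul _
    have m3 : Measurable fun ω => ee (-((q - 1) * (L + c'))) * (D ω * (M ω) ^ q) :=
      hqm.const_mul _
    have m12 : Measurable fun ω => ee (L - c) * D ω +
        ee (L + c') * (D ω * big (L - c) (M ω)) := m1.add m2
    calc qq j i ≤ ∫⁻ ω, (ee (L - c) * D ω + ee (L + c') * (D ω * big (L - c) (M ω)) +
          ee (-((q - 1) * (L + c'))) * (D ω * (M ω) ^ q)) ∂P := by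
          simp only [hqq]
          apply lintegral_mono; intro ω
          beta_reduce
          calc D ω * M ω ≤ D ω * (ee (L - c) + ee (L + c') * big (L - c) (M ω) +
                ee (-((q - 1) * (L + c'))) * (M ω) ^ q) :=
                mul_le_mul_right (trunc_le hq1 (M ω)) _
            _ = _ := by ring
      _ = _ := by
          rw [lintegral_add_left m12, lintegral_add_left m1, lintegral_const_mul _ hDm',
            lintegral_const_mul _ hbm, lintegral_const_mul _ hqm]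
  -- combine
  have hO : ∑ j ∈ Ico j1 J, ∑ i ∈ range (K + 1), o j i ≤ ee W := hW j1 J L
  have hcomb : ∀ j ∈ Ico j1 J, ∀ i ∈ range (K + 1),
      ee (-cl) * p j i ≤ ee (hh + C3 - c + E0 - be * L) * o j i +
        ee (hh + C3 - (q - 1) * c' + (q * (K + 1) + E1) - be * L) * o j i +
        ee (hh + C3 + c') * g j i + ee (-hh + R0 - be * L) * o j i := by
    intro j hj i hi
    calc ee (-cl) * p j i ≤ ee (hh - L + C3) * qq j i + ee (-hh + R0 - be * L) * o j i :=
          hS j hj i hi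
      _ ≤ ee (hh - L + C3) * (ee (L - c) * (ee (E0 - be * L) * o j i) + ee (L + c') * g j i +
          ee (-((q - 1) * (L + c'))) * (ee (q * (L + K + 1) + E1 - be * L) * o j i)) +
          ee (-hh + R0 - be * L) * o j i := by
          apply add_le_add_left
          apply mul_le_mul_right
          exact (hQ j hj i hi).trans (add_le_add (add_le_add_left
            (mul_le_mul_right (hP j hj i hi) _) _) (mul_le_mul_right (hUu j hj i hi) _))
      _ = _ := by
          have e1 : ee (hh - L + C3) * (ee (L - c) * (ee (E0 - be * L) * o j i)) =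
              ee (hh + C3 - c + E0 - be * L) * o j i := by
            rw [← mul_assoc, ← mul_assoc, ← ee_add, ← ee_add]
            congr 2
            ring
          have e2 : ee (hh - L + C3) * (ee (L + c') * g j i) = ee (hh + C3 + c') * g j i := by
            rw [← mul_assoc, ← ee_add]
            congr 2
            ring
          have e3 : ee (hh - L + C3) * (ee (-((q - 1) * (L + c'))) *
              (ee (q * (L + K + 1) + E1 - be * L) * o j i)) =
              ee (hh + C3 - (q - 1) * c' + (q * (K + 1) + E1) - be * L) * o j i := by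
            rw [← mul_assoc, ← mul_assoc, ← ee_add, ← ee_add]
            congr 2
            ring
          rw [mul_add, mul_add, e1, e2, e3]
          ring
  have hsum := sum_sum_le hcomb
  rw [← mul_sum_sum] at hsum
  simp only [Finset.sum_add_distrib] at hsum
  rw [← mul_sum_sum, ← mul_sum_sum, ← mul_sum_sum, ← mul_sum_sum] at hsum
  have hX : ee (-cl - c0 - be * L) ≤
      ee (hh + C3 - c + E0 - be * L) * ∑ j ∈ Ico j1 J, ∑ i ∈ range (K + 1), o j i +
      ee (hh + C3 - (q - 1) * c' + (q * (K + 1) + E1) - be * L) *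
        ∑ j ∈ Ico j1 J, ∑ i ∈ range (K + 1), o j i +
      ee (hh + C3 + c') * ∑ j ∈ Ico j1 J, ∑ i ∈ range (K + 1), g j i +
      ee (-hh + R0 - be * L) * ∑ j ∈ Ico j1 J, ∑ i ∈ range (K + 1), o j i := by
    refine le_trans ?_ hsum
    calc ee (-cl - c0 - be * L) = ee (-cl) * ee (-c0 - be * L) := by
          rw [← ee_add]; congr 1; ring
      _ ≤ _ := mul_le_mul_right hA _
  have hfin := absorb hX
    (by
      refine (mul_le_mul_right hO _).trans ?_
      rw [← ee_add]
      apply ee_mono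
      rw [hc]; linarith)
    (by
      refine (mul_le_mul_right hO _).trans ?_
      rw [← ee_add]
      apply ee_mono
      linarith)
    (by
      refine (mul_le_mul_right hO _).trans ?_
      rw [← ee_add]
      apply ee_mono
      rw [hhh]; linarith)
  calc ee (-(cl + c0 + Real.log 4 + hh + C3 + c') - be * L)
      = ee (-(hh + C3 + c')) * ee (-cl - c0 - be * L - Real.log 4) := by
        rw [← ee_add]; congr 1; ring
    _ ≤ ee (-(hh + C3 + c')) * (ee (hh + C3 + c') *
        ∑ j ∈ Ico j1 J, ∑ i ∈ range (K + 1), g j i) := mul_le_mul_right hfin _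
    _ = _ := by
        rw [← mul_assoc, ← ee_add, neg_add_cancel, ee_zero, one_mul]

/-- Second moment of the number of visits. -/
theorem FieldHyp.visits_sq (h : FieldHyp P X) (hl : LogHyp P X ν d σ δ C0 cv)
    {b be : ℝ} (hb : 0 < b) (hbe : 0 < be) (hd : d = b ^ 2 * (be + 1) / 2) (j1 K : ℕ) :
    ∃ C : ℝ, ∀ (n : ℕ) (x : T) (L : ℝ),
      ∫⁻ ω, Dn P X b n ω x * (∑ j ∈ Ico j1 (Jn σ n), ∑ i ∈ range (K + 1),
        win (L + i) (Vj X b d σ (j + 1) ω x)) ^ 2 ∂P ≤ ee (C - be * L) := by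
  have hl2 : 0 < Real.log 2 := Real.log_pos (by norm_num)
  obtain ⟨E0, hE0⟩ := h.est_zero hl hb hbe hd
  obtain ⟨W, hW⟩ := om_windows (show 0 < be / 8 by positivity)
    (show 0 < b ^ 2 * be / 2 by positivity) K
  set kp : ℝ := b ^ 2 * be ^ 2 / 16 with hkp
  have hkp0 : 0 < kp := by positivity
  obtain ⟨G, hG⟩ := dist_sum (show 0 < kp * Real.log 2 by positivity)
  refine ⟨be / 2 * (K + 1) + E0 + G + Real.log (K + 1) + W, fun n x L => ?_⟩
  set J := Jn σ n with hJ
  set V : ℕ → Ω → ℝ := fun j ω => Vj X b d σ (j + 1) ω x with hV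
  have hDm := h.Dn_meas_right b n x
  have hVm : ∀ j, Measurable (V j) := fun j => h.Vj_meas b d σ (j + 1) x
  have hwm : ∀ (j i : ℕ), Measurable fun ω => win (L + i) (V j ω) := fun j i =>
    (win_meas _).comp (hVm j)
  -- pointwise
  have hpt : ∀ ω, (∑ j ∈ Ico j1 J, ∑ i ∈ range (K + 1), win (L + i) (V j ω)) ^ 2 ≤
      ∑ j ∈ Ico j1 J, ∑ i ∈ range (K + 1), ∑ j' ∈ Ico j1 J,
        ee (Real.log (K + 1) + be / 2 * (K + 1)) *
        (win (L + i) (V j ω) * ee (-(be / 2) * (V j ω - V j' ω))) := by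
    intro ω
    rw [sq, Finset.sum_mul]
    refine Finset.sum_le_sum fun j hj => ?_
    rw [Finset.sum_mul]
    refine Finset.sum_le_sum fun i hi => ?_
    rw [Finset.mul_sum]
    refine Finset.sum_le_sum fun j' hj' => ?_
    rw [Finset.mul_sum]
    have hterm : ∀ i' ∈ range (K + 1), win (L + i) (V j ω) * win (L + i') (V j' ω) ≤
        ee (be / 2 * (K + 1)) * (win (L + i) (V j ω) * ee (-(be / 2) * (V j ω - V j' ω))) := by
      intro i' hi'
      rcases win_zero_or_one (L + i) (V j ω) with h0 | ⟨h0, h2, h3⟩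
      · rw [h0]; simp
      rcases win_zero_or_one (L + i') (V j' ω) with h0' | ⟨h0', h2', h3'⟩
      · rw [h0']; simp
      rw [h0, h0', one_mul, one_mul, ← ee_add, ← ee_zero]
      apply ee_mono
      have hiK : (i : ℝ) ≤ K := by
        rw [Finset.mem_range] at hi
        exact_mod_cast (by omega : i ≤ K)
      have hi0 : (0 : ℝ) ≤ i' := Nat.cast_nonneg i'
      have h5 : V j ω - V j' ω ≤ K + 1 := by linarith
      have := mul_le_mul_of_nonneg_left h5 (show 0 ≤ be / 2 by linarith)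
      linarith
    refine (Finset.sum_le_sum hterm).trans (le_of_eq ?_)
    rw [Finset.sum_const, Finset.card_range, nsmul_eq_mul, ← mul_assoc, ee_add,
      ee_log (by positivity)]
    congr 2
    rw [ENNReal.ofReal_add (by positivity) (by norm_num)]
    simp
  have hterm : ∀ j ∈ Ico j1 J, ∀ i ∈ range (K + 1), ∀ j' ∈ Ico j1 J,
      ∫⁻ ω, Dn P X b n ω x * (ee (Real.log (K + 1) + be / 2 * (K + 1)) *
        (win (L + i) (V j ω) * ee (-(be / 2) * (V j ω - V j' ω)))) ∂P ≤
      ee (Real.log (K + 1) + be / 2 * (K + 1) + E0 - be * L) *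
        (ee (om (be / 8) (b ^ 2 * be / 2) (j + 1) (L + i)) *
          ee (-(kp * Real.log 2 * |(j' : ℝ) - j|))) := by
    intro j hj i hi j' hj'
    rw [Finset.mem_Ico] at hj hj'
    have h1 := hE0 n x (j + 1) (j' + 1) (L + i) (by omega) (by omega)
    have hm1 : Measurable fun ω => Dn P X b n ω x * win (L + i) (V j ω) *
        ee (-(be / 2) * (V j ω - V j' ω)) :=
      (hDm.mul (hwm j i)).mul (measurable_ee (((hVm j).sub (hVm j')).const_mul _))
    have e1 : ∀ ω, Dn P X b n ω x * (ee (Real.log (K + 1) + be / 2 * (K + 1)) *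
        (win (L + i) (V j ω) * ee (-(be / 2) * (V j ω - V j' ω)))) =
        ee (Real.log (K + 1) + be / 2 * (K + 1)) * (Dn P X b n ω x * win (L + i) (V j ω) *
        ee (-(be / 2) * (V j ω - V j' ω))) := by intro ω; ring
    simp_rw [e1]
    rw [lintegral_const_mul _ hm1]
    refine (mul_le_mul_right h1 _).trans ?_
    rw [← ee_add, ← ee_add, ← ee_add]
    apply ee_mono
    have e2 : |sc (j' + 1) - sc (j + 1)| = Real.log 2 * |(j' : ℝ) - j| := by
      unfold sc
      push_cast
      rw [← sub_mul, abs_mul, abs_of_pos hl2]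
      have : ((j' : ℝ) + 1 - (j + 1)) = (j' : ℝ) - j := by ring
      rw [this]
      ring
    rw [e2]
    have hi0 : (0 : ℝ) ≤ i := Nat.cast_nonneg i
    have hbi : be * L ≤ be * (L + i) := by
      apply mul_le_mul_of_nonneg_left _ hbe.le
      linarith
    have e3 : kp * (Real.log 2 * |(j' : ℝ) - j|) = kp * Real.log 2 * |(j' : ℝ) - j| := by ring
    rw [hkp] at e3 ⊢
    linarith
  have hfm : ∀ j i j' : ℕ, Measurable fun ω => Dn P X b n ω x *
      (ee (Real.log (K + 1) + be / 2 * (K + 1)) *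
        (win (L + i) (V j ω) * ee (-(be / 2) * (V j ω - V j' ω)))) := fun j i j' =>
    hDm.mul (((hwm j i).mul (measurable_ee (((hVm j).sub (hVm j')).const_mul _))).const_mul _)
  calc ∫⁻ ω, Dn P X b n ω x * (∑ j ∈ Ico j1 J, ∑ i ∈ range (K + 1),
        win (L + i) (V j ω)) ^ 2 ∂P
      ≤ ∫⁻ ω, ∑ j ∈ Ico j1 J, ∑ i ∈ range (K + 1), ∑ j' ∈ Ico j1 J,
        Dn P X b n ω x * (ee (Real.log (K + 1) + be / 2 * (K + 1)) *
        (win (L + i) (V j ω) * ee (-(be / 2) * (V j ω - V j' ω)))) ∂P := by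
        apply lintegral_mono; intro ω
        beta_reduce
        refine (mul_le_mul_right (hpt ω) _).trans (le_of_eq ?_)
        simp_rw [Finset.mul_sum]
    _ = ∑ j ∈ Ico j1 J, ∑ i ∈ range (K + 1), ∑ j' ∈ Ico j1 J,
        ∫⁻ ω, Dn P X b n ω x * (ee (Real.log (K + 1) + be / 2 * (K + 1)) *
        (win (L + i) (V j ω) * ee (-(be / 2) * (V j ω - V j' ω)))) ∂P := by
        rw [lintegral_finsetSum _ fun j _ => Finset.measurable_sum _ fun i _ =>
          Finset.measurable_sum _ fun j' _ => hfm j i j']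
        refine Finset.sum_congr rfl fun j _ => ?_
        rw [lintegral_finsetSum _ fun i _ =>
          Finset.measurable_sum _ fun j' _ => hfm j i j']
        refine Finset.sum_congr rfl fun i _ => ?_
        rw [lintegral_finsetSum _ fun j' _ => hfm j i j']
    _ ≤ ∑ j ∈ Ico j1 J, ∑ i ∈ range (K + 1), ∑ j' ∈ Ico j1 J,
        ee (Real.log (K + 1) + be / 2 * (K + 1) + E0 - be * L) *
        (ee (om (be / 8) (b ^ 2 * be / 2) (j + 1) (L + i)) *
          ee (-(kp * Real.log 2 * |(j' : ℝ) - j|))) :=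
        Finset.sum_le_sum fun j hj => Finset.sum_le_sum fun i hi =>
          Finset.sum_le_sum fun j' hj' => hterm j hj i hi j' hj'
    _ ≤ ∑ j ∈ Ico j1 J, ∑ i ∈ range (K + 1),
        ee (Real.log (K + 1) + be / 2 * (K + 1) + E0 - be * L + G) *
        ee (om (be / 8) (b ^ 2 * be / 2) (j + 1) (L + i)) := by
        refine Finset.sum_le_sum fun j hj => Finset.sum_le_sum fun i hi => ?_
        rw [← Finset.mul_sum, ← Finset.mul_sum]
        have h1 : ∑ j' ∈ Ico j1 J, ee (-(kp * Real.log 2 * |(j' : ℝ) - j|)) ≤ ee G := by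
          refine le_trans ?_ (hG J j)
          apply Finset.sum_le_sum_of_subset
          rw [Finset.range_eq_Ico]
          exact Finset.Ico_subset_Ico_left (Nat.zero_le _)
        refine (mul_le_mul_right (mul_le_mul_right h1 _) _).trans (le_of_eq ?_)
        rw [ee_add _ G]
        ring
    _ = ee (Real.log (K + 1) + be / 2 * (K + 1) + E0 - be * L + G) *
        ∑ j ∈ Ico j1 J, ∑ i ∈ range (K + 1),
        ee (om (be / 8) (b ^ 2 * be / 2) (j + 1) (L + i)) := by
        rw [mul_sum_sum]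
    _ ≤ ee (Real.log (K + 1) + be / 2 * (K + 1) + E0 - be * L + G) * ee W :=
        mul_le_mul_right (hW j1 J L) _
    _ = _ := by rw [← ee_add]; congr 1; ring

/-- The lower bound under the size-biased measure. -/
theorem FieldHyp.low_Q (h : FieldHyp P X) (hl : LogHyp P X ν d σ δ C0 cv) {U : Set T}
    (hUm : MeasurableSet U) (hU : ∀ x ∈ U, ∀ y ∈ U, dist x y ≤ δ)
    {b be : ℝ} (hb : 0 < b) (hbe : 0 < be) (hd : d = b ^ 2 * (be + 1) / 2) (j1 : ℕ) (cl : ℝ) :
    ∃ (c c1 L0 a : ℝ), 0 < a ∧ ∀ (n : ℕ) (x : T) (L : ℝ), x ∈ U → L0 ≤ L →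
      a * (L + 1) ≤ sc (Jn σ n) →
      (∀ j, j1 < j → j ≤ Jn σ n → ee (-cl - d * sc j) ≤ ν (pc U x (Jn σ n) j)) →
      ee (-c1 - be * L) ≤ ∫⁻ ω, Dn P X b n ω x * big (L - c) (mass P ν X b n U ω) ∂P := by
  obtain ⟨K, c, c1, L0, a, ha, hvis⟩ := h.visits hl hUm hU hb hbe hd j1 cl
  obtain ⟨S2, hS2⟩ := h.visits_sq hl hb hbe hd j1 K
  refine ⟨c, 2 * c1 + S2, L0, a, ha, ?_⟩
  intro n x L hx hL hJ hvol
  set J := Jn σ n with hJdef
  have hv := hvis n x L hx hL hJ hvol
  have hs := hS2 n x L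
  have hDm := h.Dn_meas_right b n x
  have hwm : ∀ (j i : ℕ), Measurable fun ω => win (L + i) (Vj X b d σ (j + 1) ω x) := fun j i =>
    (win_meas _).comp (h.Vj_meas b d σ (j + 1) x)
  have hbm : ∀ j : ℕ, Measurable fun ω =>
      big (L - c) (mass P ν X b n (pc U x J (j + 1)) ω) := fun j =>
    (big_meas _).comp (h.mass_meas ν b n _)
  set N : Ω → ℝ≥0∞ := fun ω => ∑ j ∈ Ico j1 J, ∑ i ∈ range (K + 1),
    win (L + i) (Vj X b d σ (j + 1) ω x) *
      big (L - c) (mass P ν X b n (pc U x J (j + 1)) ω) with hN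
  have hNm : Measurable N := Finset.measurable_sum _ fun j _ => Finset.measurable_sum _
    fun i _ => (hwm j i).mul (hbm j)
  have hN1 : ee (-c1 - be * L) ≤ ∫⁻ ω, Dn P X b n ω x * N ω ∂P := by
    refine hv.trans (le_of_eq ?_)
    simp only [hN]
    rw [lint_sum_sum P hDm (Ico j1 J) (range (K + 1))
      (f := fun j i ω => win (L + i) (Vj X b d σ (j + 1) ω x) *
      big (L - c) (mass P ν X b n (pc U x J (j + 1)) ω)) (fun j i => (hwm j i).mul (hbm j))]
    refine Finset.sum_congr rfl fun j _ => Finset.sum_congr rfl fun i _ => ?_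
    apply lintegral_congr; intro ω
    ring
  have hN2 : ∫⁻ ω, Dn P X b n ω x * N ω ^ 2 ∂P ≤ ee (S2 - be * L) := by
    refine le_trans (lintegral_mono fun ω => ?_) hs
    apply mul_le_mul_right
    apply pow_le_pow_left₀ zero_le
    refine Finset.sum_le_sum fun j _ => Finset.sum_le_sum fun i _ => ?_
    calc _ ≤ win (L + i) (Vj X b d σ (j + 1) ω x) * 1 := mul_le_mul_right (big_le_one _ _) _
      _ = _ := mul_one _
  set lam : ℝ := -c1 - S2 with hlam
  have hpt : ∀ ω, 2 * (ee lam * N ω) ≤ big (L - c) (mass P ν X b n U ω) +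
      ee (2 * lam) * N ω ^ 2 := by
    intro ω
    by_cases h0 : N ω = 0
    · rw [h0]; simp
    · have h1 : big (L - c) (mass P ν X b n U ω) = 1 := by
        have h2 : ∃ j ∈ Ico j1 J, ∃ i ∈ range (K + 1),
            win (L + i) (Vj X b d σ (j + 1) ω x) *
            big (L - c) (mass P ν X b n (pc U x J (j + 1)) ω) ≠ 0 := by
          by_contra hneg
          push Not at hneg
          exact h0 (Finset.sum_eq_zero fun j hj => Finset.sum_eq_zero fun i hi =>
            hneg j hj i hi)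
        obtain ⟨j, hj, i, hi, h3⟩ := h2
        have h4 : big (L - c) (mass P ν X b n (pc U x J (j + 1)) ω) ≠ 0 :=
          right_ne_zero_of_mul h3
        apply big_eq_one
        refine (big_ne_zero h4).trans ?_
        unfold mass
        exact lintegral_mono_set (fun y hy => hy.1)
      rw [h1]
      refine (two_le_sq (ee lam * N ω)).trans (le_of_eq ?_)
      rw [mul_pow]
      congr 2
      rw [sq, ← ee_add]
      congr 1
      ring
  have hMm : Measurable fun ω => Dn P X b n ω x * big (L - c) (mass P ν X b n U ω) :=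
    hDm.mul ((big_meas _).comp (h.mass_meas ν b n U))
  have hDN : Measurable fun ω => Dn P X b n ω x * N ω := hDm.mul hNm
  have hDN2 : Measurable fun ω => Dn P X b n ω x * N ω ^ 2 := hDm.mul (hNm.pow_const 2)
  have hkey : ee lam * ee (-c1 - be * L) + ee lam * ee (-c1 - be * L) ≤
      ∫⁻ ω, Dn P X b n ω x * big (L - c) (mass P ν X b n U ω) ∂P +
        ee lam * ee (-c1 - be * L) := by
    calc ee lam * ee (-c1 - be * L) + ee lam * ee (-c1 - be * L)
        = 2 * ee lam * ee (-c1 - be * L) := by ring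
      _ ≤ 2 * ee lam * ∫⁻ ω, Dn P X b n ω x * N ω ∂P := mul_le_mul_right hN1 _
      _ = ∫⁻ ω, 2 * ee lam * (Dn P X b n ω x * N ω) ∂P := (lintegral_const_mul _ hDN).symm
      _ ≤ ∫⁻ ω, (Dn P X b n ω x * big (L - c) (mass P ν X b n U ω) +
          ee (2 * lam) * (Dn P X b n ω x * N ω ^ 2)) ∂P := by
          apply lintegral_mono; intro ω
          beta_reduce
          calc 2 * ee lam * (Dn P X b n ω x * N ω)
              = Dn P X b n ω x * (2 * (ee lam * N ω)) := by ring
            _ ≤ Dn P X b n ω x * (big (L - c) (mass P ν X b n U ω) +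
                ee (2 * lam) * N ω ^ 2) := mul_le_mul_right (hpt ω) _
            _ = _ := by ring
      _ = ∫⁻ ω, Dn P X b n ω x * big (L - c) (mass P ν X b n U ω) ∂P +
          ee (2 * lam) * ∫⁻ ω, Dn P X b n ω x * N ω ^ 2 ∂P := by
          rw [lintegral_add_left hMm, lintegral_const_mul _ hDN2]
      _ ≤ ∫⁻ ω, Dn P X b n ω x * big (L - c) (mass P ν X b n U ω) ∂P +
          ee (2 * lam) * ee (S2 - be * L) := add_le_add_right (mul_le_mul_right hN2 _) _
      _ = _ := by
          rw [← ee_add, ← ee_add]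
          congr 2
          rw [hlam]; ring
  have hfin : ee lam * ee (-c1 - be * L) ≠ ⊤ := ENNReal.mul_ne_top (ee_ne_top _) (ee_ne_top _)
  have h6 := (ENNReal.add_le_add_iff_right hfin).1 hkey
  refine le_trans (le_of_eq ?_) h6
  rw [← ee_add]
  congr 1
  rw [hlam]; ring

end

end Pool.Agent.Helper55.Chaos
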