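import Mathlib
import Pool.Agent.Helper55.Tail.UpQ

set_option autoImplicit false
set_option linter.unusedSectionVars false
set_option linter.unusedVariables false

open MeasureTheory ProbabilityTheory Finset
open scoped ENNReal

namespace Pool.Agent.Helper55.Chaos

section
variable {Ω T : Type*} [MeasurableSpace Ω] {P : Measure Ω} [IsProbabilityMeasure P]
  [MetricSpace T] [SecondCountableTopology T] [MeasurableSpace T] [BorelSpace T] [Nonempty T]
  {X : ℕ → Ω → T → ℝ} {ν : Measure T} [IsFiniteMeasure ν] {d : ℝ} {σ : ℕ → ℝ} {δ C0 cv : ℝ}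

lemma FieldHyp.exc_meas (h : FieldHyp P X) (b : ℝ) (n : ℕ) (U : Set T) (L : ℝ) :
    Measurable (exc P ν X b n U L) := by
  classical
  unfold exc
  exact Measurable.ite (measurableSet_lt measurable_const (h.mass_meas ν b n U))
    measurable_const measurable_const

/-- The truncated first moment. -/
theorem FieldHyp.up_M (h : FieldHyp P X) (hl : LogHyp P X ν d σ δ C0 cv) {U : Set T}
    (hUm : MeasurableSet U)
    (hU : ∀ x ∈ U, ∀ y ∈ U, dist x y ≤ δ) (hU1 : ∀ x ∈ U, ∀ y ∈ U, dist x y ≤ 1)
    {b be : ℝ} (hb : 0 < b) (hbe : 0 < be)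
    (hd : d = b ^ 2 * (be + 1) / 2) :
    ∃ C : ℝ, ∀ (n : ℕ) (L : ℝ),
      ∫⁻ ω, exc P ν X b n U L ω * mass P ν X b n U ω ∂P ≤ ee (C - be * L) := by
  obtain ⟨C, hC⟩ := h.up_Q hl hUm hU hU1 hb hbe hd
  have hνU : ν U < ⊤ := measure_lt_top ν U
  refine ⟨C + Real.log ((ν U).toReal + 1), fun n L => ?_⟩
  rw [h.tonelli ν b n U (h.exc_meas b n U L)]
  have hpos : 0 < (ν U).toReal + 1 := by
    have := ENNReal.toReal_nonneg (a := ν U); linarith
  calc ∫⁻ x in U, (∫⁻ ω, exc P ν X b n U L ω * Dn P X b n ω x ∂P) ∂ν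
      ≤ ∫⁻ x in U, ee (C - be * L) ∂ν := by
        apply setLIntegral_mono' hUm
        intro x hx
        refine le_trans (le_of_eq ?_) (hC n x L hx)
        apply lintegral_congr
        intro ω
        rw [mul_comm]
    _ = ee (C - be * L) * ν U := by rw [setLIntegral_const]
    _ ≤ ee (C - be * L) * ee (Real.log ((ν U).toReal + 1)) := by
        apply mul_le_mul_right
        rw [ee_log hpos]
        rw [← ENNReal.ofReal_toReal hνU.ne]
        apply ENNReal.ofReal_le_ofReal
        rw [ENNReal.toReal_ofReal ENNReal.toReal_nonneg]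
        linarith
    _ = _ := by rw [← ee_add]; congr 1; ring

/-- The tail bound on a small set. -/
theorem FieldHyp.up_small (h : FieldHyp P X) (hl : LogHyp P X ν d σ δ C0 cv) {U : Set T}
    (hUm : MeasurableSet U)
    (hU : ∀ x ∈ U, ∀ y ∈ U, dist x y ≤ δ) (hU1 : ∀ x ∈ U, ∀ y ∈ U, dist x y ≤ 1)
    {b be : ℝ} (hb : 0 < b) (hbe : 0 < be)
    (hd : d = b ^ 2 * (be + 1) / 2) :
    ∃ C : ℝ, ∀ (n : ℕ) (L : ℝ),
      P {ω | ee L < mass P ν X b n U ω} ≤ ee (C - (be + 1) * L) := by
  obtain ⟨C, hC⟩ := h.up_M hl hUm hU hU1 hb hbe hd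
  refine ⟨C, fun n L => ?_⟩
  have hms : MeasurableSet {ω | ee L < mass P ν X b n U ω} :=
    measurableSet_lt measurable_const (h.mass_meas ν b n U)
  have h1 : ee L * P {ω | ee L < mass P ν X b n U ω} ≤
      ∫⁻ ω, exc P ν X b n U L ω * mass P ν X b n U ω ∂P := by
    rw [← lintegral_indicator_one hms, ← lintegral_const_mul _
      (measurable_one.indicator hms)]
    apply lintegral_mono
    intro ω
    unfold exc
    by_cases hω : ee L < mass P ν X b n U ω
    · have : ω ∈ {ω | ee L < mass P ν X b n U ω} := hω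
      simp only [Set.indicator_of_mem this, Pi.one_apply, mul_one, if_pos hω, one_mul]
      exact hω.le
    · have : ω ∉ {ω | ee L < mass P ν X b n U ω} := hω
      simp [Set.indicator_of_notMem this]
  have h2 := h1.trans (hC n L)
  calc P {ω | ee L < mass P ν X b n U ω}
      = ee (-L) * (ee L * P {ω | ee L < mass P ν X b n U ω}) := by
        rw [← mul_assoc, ← ee_add, neg_add_cancel, ee_zero, one_mul]
    _ ≤ ee (-L) * ee (C - be * L) := mul_le_mul_right h2 _
    _ = _ := by rw [← ee_add]; congr 1; ring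

/-- The tail bound for the total mass. -/
theorem FieldHyp.up_total [CompactSpace T] (h : FieldHyp P X)
    (hl : LogHyp P X ν d σ δ C0 cv) (hδ : 0 < δ)
    {b be : ℝ} (hb : 0 < b) (hbe : 0 < be)
    (hd : d = b ^ 2 * (be + 1) / 2) :
    ∃ C : ℝ, ∀ (n : ℕ) (L : ℝ),
      P {ω | ee L < mass P ν X b n Set.univ ω} ≤ ee (C - (be + 1) * L) := by
  classical
  set η : ℝ := min δ 1 / 2 with hη
  have hη0 : 0 < η := by
    have : 0 < min δ 1 := lt_min hδ (by norm_num)
    positivity
  obtain ⟨t, -, htf, htc⟩ := (isCompact_univ (X := T)).finite_cover_balls hη0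
  obtain ⟨J, f, hf⟩ : ∃ (J : ℕ) (f : ℕ → T), ∀ x ∈ t, ∃ j < J, f j = x := by
    obtain ⟨x0⟩ := (inferInstance : Nonempty T)
    refine ⟨htf.toFinset.toList.length, fun j => htf.toFinset.toList.getD j x0, fun x hx => ?_⟩
    have hx' : x ∈ htf.toFinset.toList := by simpa using hx
    obtain ⟨j, hj, hjx⟩ := List.getElem_of_mem hx'
    exact ⟨j, hj, by beta_reduce; rw [List.getD_eq_getElem _ _ hj]; exact hjx⟩
  have hcov : (Set.univ : Set T) ⊆ ⋃ j ∈ range J, Metric.closedBall (f j) η := by
    intro y _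
    have := htc (Set.mem_univ y)
    simp only [Set.mem_iUnion] at this
    obtain ⟨x, hx, hy⟩ := this
    obtain ⟨j, hj, rfl⟩ := hf x hx
    simp only [Set.mem_iUnion, Finset.mem_range]
    exact ⟨j, hj, Metric.ball_subset_closedBall hy⟩
  have hsm : ∀ j, ∃ C : ℝ, ∀ (n : ℕ) (L : ℝ),
      P {ω | ee L < mass P ν X b n (Metric.closedBall (f j) η) ω} ≤
        ee (C - (be + 1) * L) := by
    intro j
    have hd' : ∀ x ∈ Metric.closedBall (f j) η, ∀ y ∈ Metric.closedBall (f j) η,
        dist x y ≤ min δ 1 := by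
      intro x hx y hy
      rw [Metric.mem_closedBall] at hx hy
      have := dist_triangle_right x y (f j)
      linarith
    exact h.up_small hl Metric.isClosed_closedBall.measurableSet
      (fun x hx y hy => (hd' x hx y hy).trans (min_le_left _ _))
      (fun x hx y hy => (hd' x hx y hy).trans (min_le_right _ _)) hb hbe hd
  choose C hC using hsm
  -- the constant
  have hJ1 : (0 : ℝ) < J + 1 := by positivity
  set M : ℝ := ∑ j ∈ range J, Real.exp (C j + (be + 1) * Real.log (J + 1)) + 1 with hM
  have hM0 : 0 < M := by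
    have : 0 ≤ ∑ j ∈ range J, Real.exp (C j + (be + 1) * Real.log (J + 1)) :=
      Finset.sum_nonneg fun j _ => (Real.exp_pos _).le
    linarith
  refine ⟨Real.log M, fun n L => ?_⟩
  have hsub : {ω | ee L < mass P ν X b n Set.univ ω} ⊆ ⋃ j ∈ range J,
      {ω | ee (L - Real.log (J + 1)) < mass P ν X b n (Metric.closedBall (f j) η) ω} := by
    intro ω hω
    by_contra hneg
    simp only [Set.mem_iUnion, Finset.mem_range, Set.mem_setOf_eq, exists_prop, not_exists,
      not_and, not_lt] at hneg hω
    have h1 := h.mass_le_sum (ν := ν) b n _ MeasurableSet.univ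
      (fun j => Metric.closedBall (f j) η)
      (fun j => Metric.isClosed_closedBall.measurableSet) J hcov ω
    have h2 : ∑ j ∈ range J, mass P ν X b n (Metric.closedBall (f j) η) ω ≤
        ∑ j ∈ range J, ee (L - Real.log (J + 1)) :=
      Finset.sum_le_sum fun j hj => hneg j (Finset.mem_range.1 hj)
    have h3 : ∑ j ∈ range J, ee (L - Real.log (J + 1)) ≤ ee L := by
      rw [Finset.sum_const, Finset.card_range, nsmul_eq_mul]
      have e1 : ee L = ENNReal.ofReal (J + 1) * ee (L - Real.log (J + 1)) := by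
        rw [← ee_log hJ1, ← ee_add]; congr 1; ring
      rw [e1]
      apply mul_le_mul_left
      rw [ENNReal.ofReal_add (by positivity) (by norm_num), ENNReal.ofReal_natCast]
      exact le_self_add
    exact absurd (h1.trans (h2.trans h3)) (not_le.2 hω)
  calc P {ω | ee L < mass P ν X b n Set.univ ω}
      ≤ ∑ j ∈ range J, P {ω | ee (L - Real.log (J + 1)) <
        mass P ν X b n (Metric.closedBall (f j) η) ω} :=
        (measure_mono hsub).trans (measure_biUnion_finset_le _ _)
    _ ≤ ∑ j ∈ range J, ee (C j - (be + 1) * (L - Real.log (J + 1))) :=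
        Finset.sum_le_sum fun j _ => hC j n _
    _ ≤ ee (Real.log M - (be + 1) * L) := by
        unfold ee
        rw [← ENNReal.ofReal_sum_of_nonneg fun j _ => (Real.exp_pos _).le]
        apply ENNReal.ofReal_le_ofReal
        have e0 : Real.exp (Real.log M - (be + 1) * L) = M * Real.exp (-((be + 1) * L)) := by
          rw [sub_eq_add_neg, Real.exp_add, Real.exp_log hM0]
        have e1 : ∀ j, Real.exp (C j - (be + 1) * (L - Real.log (J + 1))) =
            Real.exp (C j + (be + 1) * Real.log (J + 1)) * Real.exp (-((be + 1) * L)) := by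
          intro j
          rw [← Real.exp_add]; congr 1; ring
        calc ∑ j ∈ range J, Real.exp (C j - (be + 1) * (L - Real.log (J + 1)))
            = (∑ j ∈ range J, Real.exp (C j + (be + 1) * Real.log (J + 1))) *
              Real.exp (-((be + 1) * L)) := by
              rw [Finset.sum_mul]
              exact Finset.sum_congr rfl fun j _ => e1 j
          _ ≤ M * Real.exp (-((be + 1) * L)) :=
              mul_le_mul_of_nonneg_right (by rw [hM]; linarith) (Real.exp_pos _).le
          _ = _ := e0.symm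

end

end Pool.Agent.Helper55.Chaos
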