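import Mathlib
import Pool.Agent.Helper55.Tail.LowB
import Pool.Agent.Helper55.Tail.UpP

set_option autoImplicit false
set_option linter.unusedSectionVars false
set_option linter.unusedVariables false

open MeasureTheory ProbabilityTheory Finset Filter
open scoped ENNReal Topology

namespace Pool.Agent.Helper55.Chaos

lemma two_ee (x : ℝ) : ee x = ee (x - Real.log 2) + ee (x - Real.log 2) := by
  have h : ee x = ee (x - Real.log 2) * ee (Real.log 2) := by
    rw [← ee_add]; congr 1; ring
  rw [h, ee_log (by norm_num)]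
  have : ENNReal.ofReal 2 = 1 + 1 := by
    rw [show (2 : ℝ) = 1 + 1 by norm_num, ENNReal.ofReal_add (by norm_num) (by norm_num)]
    simp
  rw [this, mul_add, mul_one]

section
variable {Ω T : Type*} [MeasurableSpace Ω] {P : Measure Ω} [IsProbabilityMeasure P]
  [MetricSpace T] [SecondCountableTopology T] [MeasurableSpace T] [BorelSpace T] [Nonempty T]
  {X : ℕ → Ω → T → ℝ} {ν : Measure T} [IsFiniteMeasure ν] {d : ℝ} {σ : ℕ → ℝ} {δ C0 cv : ℝ}

/-- The lower tail bound on a small set. -/
theorem FieldHyp.low_P (h : FieldHyp P X) (hl : LogHyp P X ν d σ δ C0 cv) {U : Set T}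
    (hUm : MeasurableSet U)
    (hU : ∀ x ∈ U, ∀ y ∈ U, dist x y ≤ δ) (hU1 : ∀ x ∈ U, ∀ y ∈ U, dist x y ≤ 1)
    {U0 : Set T} (hU0m : MeasurableSet U0) (hU0 : U0 ⊆ U) (hν0 : 0 < ν U0)
    {b be : ℝ} (hb : 0 < b) (hbe : 0 < be) (hd : d = b ^ 2 * (be + 1) / 2) (j1 : ℕ) (cl : ℝ)
    (hvol : ∀ (J j : ℕ) (x : T), x ∈ U0 → j1 < j → j ≤ J →
      ee (-cl - d * sc j) ≤ ν (pc U x J j)) :
    ∃ (c L0 a : ℝ), 0 < a ∧ ∀ (n : ℕ) (L : ℝ), L0 ≤ L → a * (L + 1) ≤ sc (Jn σ n) →
      ee (-c - (be + 1) * L) ≤ P {ω | ee L ≤ mass P ν X b n U ω} := by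
  obtain ⟨c, c1, L0, a, ha, hlow⟩ := h.low_Q hl hUm hU hb hbe hd j1 cl
  obtain ⟨C, hC⟩ := h.up_M hl hUm hU hU1 hb hbe hd
  have hνt : ν U0 ≠ ⊤ := (measure_lt_top ν U0).ne
  have hνr : 0 < (ν U0).toReal := ENNReal.toReal_pos hν0.ne' hνt
  set w : ℝ := Real.log (ν U0).toReal with hw
  have hνw : ν U0 = ee w := by
    rw [hw, ee_log hνr, ENNReal.ofReal_toReal hνt]
  -- the truncation constant
  set k : ℝ := (C - w + c1 + Real.log 2) / be with hk
  have hkbe : be * k = C - w + c1 + Real.log 2 := by rw [hk]; field_simp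
  set a' : ℝ := a * (1 + |c|) with ha'
  have ha'0 : 0 < a' := by positivity
  refine ⟨k - w + c1 + Real.log 2 + (be + 1) * c, max (L0 + |c|) 0, a', ha'0, ?_⟩
  intro n L' hL' hJ'
  have hL'0 : 0 ≤ L' := (le_max_right _ _).trans hL'
  have hL'1 : L0 + |c| ≤ L' := (le_max_left _ _).trans hL'
  set L : ℝ := L' + c with hLdef
  have hLL : L0 ≤ L := by
    have := neg_abs_le c
    rw [hLdef]; linarith
  have hJ : a * (L + 1) ≤ sc (Jn σ n) := by
    refine le_trans ?_ hJ'
    rw [ha', mul_assoc]
    apply mul_le_mul_of_nonneg_left _ ha.le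
    have h1 := le_abs_self c
    have h2 : |c| * 1 ≤ |c| * (L' + 1) := mul_le_mul_of_nonneg_left (by linarith) (abs_nonneg c)
    rw [hLdef]
    nlinarith
  set M : Ω → ℝ≥0∞ := mass P ν X b n U with hM
  have hMm : Measurable M := h.mass_meas ν b n U
  have hbm : Measurable fun ω => big (L - c) (M ω) := (big_meas _).comp hMm
  -- lower bound of the truncated moment
  have h1 : ee (w - c1 - be * L) ≤ ∫⁻ ω, big (L - c) (M ω) * M ω ∂P := by
    rw [h.tonelli ν b n U hbm]
    calc ee (w - c1 - be * L) = ee (-c1 - be * L) * ν U0 := by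
          rw [hνw, ← ee_add]; congr 1; ring
      _ = ∫⁻ x in U0, ee (-c1 - be * L) ∂ν := by rw [setLIntegral_const]
      _ ≤ ∫⁻ x in U0, (∫⁻ ω, big (L - c) (M ω) * Dn P X b n ω x ∂P) ∂ν := by
          apply setLIntegral_mono' hU0m
          intro x hx
          refine (hlow n x L (hU0 hx) hLL hJ (fun j hj1 hj => hvol _ j x hx hj1 hj)).trans
            (le_of_eq ?_)
          apply lintegral_congr; intro ω
          rw [mul_comm]
      _ ≤ _ := lintegral_mono_set hU0
  -- upper bound
  have hms : MeasurableSet {ω | ee L' ≤ M ω} := measurableSet_le measurable_const hMm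
  have hLc : L - c = L' := by rw [hLdef]; ring
  have h2 : ∫⁻ ω, big (L - c) (M ω) * M ω ∂P ≤
      ee (L + k) * P {ω | ee L' ≤ M ω} + ee (w - c1 - be * L - Real.log 2) := by
    calc ∫⁻ ω, big (L - c) (M ω) * M ω ∂P
        ≤ ∫⁻ ω, (ee (L + k) * Set.indicator {ω | ee L' ≤ M ω} 1 ω +
          exc P ν X b n U (L + k) ω * M ω) ∂P := by
          apply lintegral_mono; intro ω
          beta_reduce
          rw [hLc]
          by_cases h3 : ee L' ≤ M ω
          · rw [big_eq_one h3, one_mul, Set.indicator_of_mem (by exact h3), Pi.one_apply, mul_one]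
            unfold exc
            by_cases h4 : ee (L + k) < mass P ν X b n U ω
            · rw [if_pos h4, one_mul]
              exact le_add_self
            · rw [if_neg h4]
              push Not at h4
              exact le_add_right h4
          · have h4 : big L' (M ω) = 0 := by
              by_contra h5
              exact h3 (big_ne_zero h5)
            rw [h4, zero_mul]; exact zero_le
      _ = ee (L + k) * P {ω | ee L' ≤ M ω} +
          ∫⁻ ω, exc P ν X b n U (L + k) ω * M ω ∂P := by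
          rw [lintegral_add_left ((measurable_one.indicator hms).const_mul _),
            lintegral_const_mul _ (measurable_one.indicator hms), lintegral_indicator_one hms]
      _ ≤ _ := by
          apply add_le_add_right
          refine (hC n (L + k)).trans (ee_mono ?_)
          have : be * (L + k) = be * L + be * k := by ring
          rw [this, hkbe]
          linarith
  have h3 := h1.trans h2
  rw [two_ee (w - c1 - be * L)] at h3
  have h4 := (ENNReal.add_le_add_iff_right (ee_ne_top _)).1 h3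
  calc ee (-(k - w + c1 + Real.log 2 + (be + 1) * c) - (be + 1) * L')
      = ee (-(L + k)) * ee (w - c1 - be * L - Real.log 2) := by
        rw [← ee_add]; congr 1; rw [hLdef]; ring
    _ ≤ ee (-(L + k)) * (ee (L + k) * P {ω | ee L' ≤ M ω}) := mul_le_mul_right h4 _
    _ = _ := by rw [← mul_assoc, ← ee_add, neg_add_cancel, ee_zero, one_mul]

end

end Pool.Agent.Helper55.Chaos
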