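import Mathlib
import Pool.Agent.Helper55.Tail.LowP
import Pool.Agent.Helper55.Chaos.Final

set_option autoImplicit false
set_option linter.unusedSectionVars false
set_option linter.unusedVariables false

open MeasureTheory ProbabilityTheory Finset Filter
open scoped ENNReal Topology

namespace Pool.Agent.Helper55.Chaos

/-- Fatou lemma for sets. -/
lemma fatou_set {Ω : Type*} [MeasurableSpace Ω] {P : Measure Ω} {E : Set Ω} {F : ℕ → Set Ω}
    (hE : ∀ᵐ ω ∂P, ω ∈ E → ∀ᶠ n in atTop, ω ∈ F n) {c : ℝ≥0∞}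
    (hc : ∀ᶠ n in atTop, P (F n) ≤ c) : P E ≤ c := by
  set G : ℕ → Set Ω := fun N => ⋂ n ∈ Set.Ici N, F n with hG
  have hmono : Monotone G := by
    intro a b hab ω hω
    simp only [hG, Set.mem_iInter, Set.mem_Ici] at hω ⊢
    intro n hn
    exact hω n (hab.trans hn)
  have h1 : P E ≤ P (⋃ N, G N) := by
    apply measure_mono_ae
    filter_upwards [hE] with ω hω hωE
    obtain ⟨N, hN⟩ := eventually_atTop.1 (hω hωE)
    have : ω ∈ ⋃ N, G N := by
      simp only [hG, Set.mem_iUnion, Set.mem_iInter, Set.mem_Ici]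
      exact ⟨N, hN⟩
    exact this
  refine h1.trans ?_
  rw [hmono.measure_iUnion]
  obtain ⟨N0, hN0⟩ := eventually_atTop.1 hc
  apply iSup_le
  intro N
  calc P (G N) ≤ P (F (max N N0)) := by
        apply measure_mono
        intro ω hω
        simp only [hG, Set.mem_iInter, Set.mem_Ici] at hω
        exact hω _ (le_max_left _ _)
    _ ≤ c := hN0 _ (le_max_right _ _)

lemma Jn_tendsto {σ : ℕ → ℝ} (hσ : Tendsto σ atTop atTop) :
    Tendsto (fun n => sc (Jn σ n)) atTop atTop := by
  have hl2 : 0 < Real.log 2 := Real.log_pos (by norm_num)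
  have h1 : Tendsto (fun n => σ n - Real.log 2) atTop atTop :=
    tendsto_atTop_add_const_right _ _ hσ
  refine tendsto_atTop_mono (fun n => ?_) h1
  unfold sc Jn
  have h2 := Nat.lt_floor_add_one (σ n / Real.log 2)
  rw [div_lt_iff₀ hl2] at h2
  linarith

section
variable {Ω T : Type*} [MeasurableSpace Ω] {P : Measure Ω} [IsProbabilityMeasure P]
  [MetricSpace T] [SecondCountableTopology T] [MeasurableSpace T] [BorelSpace T] [Nonempty T]
  {X : ℕ → Ω → T → ℝ} {ν : Measure T} [IsFiniteMeasure ν] {d : ℝ} {σ : ℕ → ℝ} {δ C0 cv : ℝ}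

/-- The local volume condition from below: there are a measurable set `U` of small diameter and
a subset `U0` of positive measure such that all dyadic annuli around points of `U0` have large
measure inside `U`. -/
def HasCore (ν : Measure T) (d : ℝ) : Prop :=
  ∀ η : ℝ, 0 < η → ∃ (U U0 : Set T) (j1 : ℕ) (cl : ℝ), MeasurableSet U ∧
    (∀ x ∈ U, ∀ y ∈ U, dist x y ≤ η) ∧ MeasurableSet U0 ∧ U0 ⊆ U ∧ 0 < ν U0 ∧
    ∀ (J j : ℕ) (x : T), x ∈ U0 → j1 < j → j ≤ J → ee (-cl - d * sc j) ≤ ν (pc U x J j)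

/-- The two-sided tail estimate in logarithmic form. -/
theorem FieldHyp.tail_log [CompactSpace T] (h : FieldHyp P X)
    (hl : LogHyp P X ν d σ δ C0 cv) (hδ : 0 < δ) {b be : ℝ} (hb : 0 < b) (hbe : 0 < be)
    (hd : d = b ^ 2 * (be + 1) / 2) (hcore : HasCore ν d) :
    ∃ (c C L0 : ℝ), 0 ≤ L0 ∧ ∀ L : ℝ, L0 ≤ L →
      ee (-c - (be + 1) * L) ≤
        P {ω | ee L < liminf (fun n => mass P ν X b n Set.univ ω) atTop} ∧
      P {ω | ee L < liminf (fun n => mass P ν X b n Set.univ ω) atTop} ≤
        ee (C - (be + 1) * L) := by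
  have hconv : ∀ᵐ ω ∂P, Tendsto (fun n => mass P ν X b n Set.univ ω) atTop
      (𝓝 (liminf (fun n => mass P ν X b n Set.univ ω) atTop)) := by
    filter_upwards [h.ae_tendsto (ν := ν) b Set.univ] with ω hω
    obtain ⟨c, hc⟩ := hω
    rw [hc.liminf_eq]
    exact hc
  set M : Ω → ℝ≥0∞ := fun ω => liminf (fun n => mass P ν X b n Set.univ ω) atTop with hM
  have hMm : Measurable M := Measurable.liminf fun n => h.mass_meas ν b n Set.univ
  obtain ⟨U, U0, j1, cl, hUm, hUη, hU0m, hU0, hν0, hvol⟩ := hcore (min δ 1)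
    (lt_min hδ one_pos)
  obtain ⟨c, L0, a, ha, hlow⟩ := h.low_P hl hUm
    (fun x hx y hy => (hUη x hx y hy).trans (min_le_left _ _))
    (fun x hx y hy => (hUη x hx y hy).trans (min_le_right _ _)) hU0m hU0 hν0 hb hbe hd j1 cl hvol
  obtain ⟨C, hC⟩ := h.up_total hl hδ hb hbe hd
  refine ⟨c + (be + 1), C, max L0 0, le_max_right _ _, fun L hL => ⟨?_, ?_⟩⟩
  · have hL0 : L0 ≤ L + 1 := by linarith [(le_max_left _ _).trans hL]
    -- the complement
    have hms : MeasurableSet {ω | M ω < ee (L + 1)} := measurableSet_lt hMm measurable_const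
    have h1 : P {ω | M ω < ee (L + 1)} ≤ 1 - ee (-c - (be + 1) * (L + 1)) := by
      apply fatou_set (F := fun n => {ω | mass P ν X b n Set.univ ω < ee (L + 1)})
      · filter_upwards [hconv] with ω hω hlt
        exact hω.eventually_lt_const hlt
      · have h2 : ∀ᶠ n in atTop, a * (L + 1 + 1) ≤ sc (Jn σ n) :=
          (Jn_tendsto hl.top).eventually_ge_atTop _
        filter_upwards [h2] with n hn
        have h3 := hlow n (L + 1) hL0 hn
        have h4 : {ω | mass P ν X b n Set.univ ω < ee (L + 1)} ⊆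
            {ω | ee (L + 1) ≤ mass P ν X b n U ω}ᶜ := by
          intro ω hω hω'
          have h5 : mass P ν X b n U ω ≤ mass P ν X b n Set.univ ω := by
            unfold mass
            exact lintegral_mono_set (Set.subset_univ _)
          exact absurd (hω'.trans h5) (not_le.2 hω)
        refine (measure_mono h4).trans ?_
        rw [prob_compl_eq_one_sub (measurableSet_le measurable_const (h.mass_meas ν b n U))]
        exact tsub_le_tsub_left h3 _
    have h6 : ee (-c - (be + 1) * (L + 1)) ≤ P {ω | M ω < ee (L + 1)}ᶜ := by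
      rw [prob_compl_eq_one_sub hms]
      have h7 : ee (-c - (be + 1) * (L + 1)) ≤ 1 := by
        have h8 : ∀ᶠ n in atTop, a * (L + 1 + 1) ≤ sc (Jn σ n) :=
          (Jn_tendsto hl.top).eventually_ge_atTop _
        obtain ⟨n, hn⟩ := h8.exists
        exact (hlow n (L + 1) hL0 hn).trans prob_le_one
      calc ee (-c - (be + 1) * (L + 1)) = 1 - (1 - ee (-c - (be + 1) * (L + 1))) := by
            rw [ENNReal.sub_sub_cancel ENNReal.one_ne_top h7]
        _ ≤ _ := tsub_le_tsub_left h1 _
    calc ee (-(c + (be + 1)) - (be + 1) * L) = ee (-c - (be + 1) * (L + 1)) := by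
          congr 1; ring
      _ ≤ P {ω | M ω < ee (L + 1)}ᶜ := h6
      _ ≤ _ := by
          apply measure_mono
          intro ω hω
          simp only [Set.mem_compl_iff, Set.mem_setOf_eq, not_lt] at hω
          have h9 : ee L < ee (L + 1) := by
            rw [lt_iff_not_ge, ee_le_iff]
            linarith
          exact h9.trans_le hω
  · apply fatou_set (F := fun n => {ω | ee L < mass P ν X b n Set.univ ω})
    · filter_upwards [hconv] with ω hω hlt
      exact hω.eventually_const_lt hlt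
    · exact Eventually.of_forall fun n => hC n L

/-- The two-sided tail estimate. -/
theorem FieldHyp.tail_main [CompactSpace T] (h : FieldHyp P X)
    (hl : LogHyp P X ν d σ δ C0 cv) (hδ : 0 < δ) {b : ℝ} (hb : 0 < b)
    (hsub : b ^ 2 / 2 < d) (hcore : HasCore ν d) :
    ∃ (c C : ℝ), 0 < c ∧ 0 < C ∧ ∀ t : ℝ, 1 ≤ t →
      ENNReal.ofReal (c * t ^ (-(2 * d / b ^ 2))) ≤
        P {ω | ENNReal.ofReal t < liminf (fun n => mass P ν X b n Set.univ ω) atTop} ∧
      P {ω | ENNReal.ofReal t < liminf (fun n => mass P ν X b n Set.univ ω) atTop} ≤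
        ENNReal.ofReal (C * t ^ (-(2 * d / b ^ 2))) := by
  have hb2 : 0 < b ^ 2 := by positivity
  set be : ℝ := 2 * d / b ^ 2 - 1 with hbe'
  have hbe : 0 < be := by
    rw [hbe', sub_pos, lt_div_iff₀ hb2]
    linarith
  have hd : d = b ^ 2 * (be + 1) / 2 := by rw [hbe']; field_simp; ring
  have hp : be + 1 = 2 * d / b ^ 2 := by rw [hbe']; ring
  obtain ⟨c, C, L0, hL0, hL⟩ := h.tail_log hl hδ hb hbe hd hcore
  rw [← hp]
  have hp0 : 0 < be + 1 := by linarith
  set M : Ω → ℝ≥0∞ := fun ω => liminf (fun n => mass P ν X b n Set.univ ω) atTop with hM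
  refine ⟨Real.exp (-c - (be + 1) * L0), Real.exp (|C| + (be + 1) * L0), Real.exp_pos _,
    Real.exp_pos _, fun t ht => ?_⟩
  have ht0 : 0 < t := by linarith
  have htp : ∀ u : ℝ, u * t ^ (-(be + 1)) = u * Real.exp (-((be + 1) * Real.log t)) := by
    intro u
    rw [Real.rpow_def_of_pos ht0]
    congr 2; ring
  have hlog : 0 ≤ Real.log t := Real.log_nonneg ht
  have het : ENNReal.ofReal t = ee (Real.log t) := (ee_log ht0).symm
  rw [htp, htp, ← Real.exp_add, ← Real.exp_add, het]
  change ee _ ≤ P {ω | ee (Real.log t) < M ω} ∧ P {ω | ee (Real.log t) < M ω} ≤ ee _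
  by_cases hbig : L0 ≤ Real.log t
  · obtain ⟨h1, h2⟩ := hL (Real.log t) hbig
    constructor
    · refine le_trans (ee_mono ?_) h1
      have : 0 ≤ (be + 1) * L0 := by positivity
      linarith
    · refine h2.trans (ee_mono ?_)
      have : 0 ≤ (be + 1) * L0 := by positivity
      have h3 := le_abs_self C
      linarith
  · push Not at hbig
    constructor
    · obtain ⟨h1, h2⟩ := hL L0 le_rfl
      have h3 : P {ω | ee L0 < M ω} ≤ P {ω | ee (Real.log t) < M ω} := by
        apply measure_mono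
        intro ω hω
        exact (ee_mono hbig.le).trans_lt hω
      refine le_trans (ee_mono ?_) (h1.trans h3)
      have : 0 ≤ (be + 1) * Real.log t := by positivity
      linarith
    · refine prob_le_one.trans ?_
      rw [← ee_zero]
      apply ee_mono
      have h4 : (be + 1) * Real.log t ≤ (be + 1) * L0 :=
        mul_le_mul_of_nonneg_left hbig.le hp0.le
      have h5 := abs_nonneg C
      linarith

end

end Pool.Agent.Helper55.Chaos
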