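import Mathlib
import Pool.Agent.Helper55.Tail.Limit
import Pool.Agent.Helper55.Chaos.Cube

set_option autoImplicit false
set_option linter.unusedSectionVars false
set_option linter.unusedVariables false

open MeasureTheory ProbabilityTheory Finset Filter
open scoped ENNReal Topology

namespace Pool.Agent.Helper55.Chaos

/-- A half open box of side `s`. -/
def boxS (d : ℕ) (a : Fin d → ℝ) (s : ℝ) : Set (EuclideanSpace ℝ (Fin d)) :=
  {x | ∀ i, x i ∈ Set.Ico (a i) (a i + s)}

lemma volume_boxS (d : ℕ) (a : Fin d → ℝ) (s : ℝ) :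
    volume (boxS d a s) = ENNReal.ofReal s ^ d := by
  have e1 : boxS d a s = (fun x : EuclideanSpace ℝ (Fin d) => x.ofLp) ⁻¹'
      (Set.univ.pi fun i => Set.Ico (a i) (a i + s)) := by
    ext x; simp [boxS]
  rw [e1]
  have h := (PiLp.volume_preserving_ofLp (Fin d)).measure_preimage
    (s := Set.univ.pi fun i => Set.Ico (a i) (a i + s))
    ((MeasurableSet.univ_pi fun i => measurableSet_Ico).nullMeasurableSet)
  refine h.trans ?_
  rw [Real.volume_pi_Ico]
  have : ∀ i : Fin d, ENNReal.ofReal (a i + s - a i) = ENNReal.ofReal s := by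
    intro i; congr 1; ring
  simp only [this]
  simp

/-- The closed corner cube of side `h`. -/
def cornerS (d : ℕ) (h : ℝ) : Set (cubeS d) := {x | ∀ i, x.1 i ≤ h}

lemma measurableSet_cornerS (d : ℕ) (h : ℝ) : MeasurableSet (cornerS d h) := by
  have : cornerS d h = ⋂ i : Fin d, (fun x : cubeS d => x.1 i) ⁻¹' Set.Iic h := by
    ext x; simp [cornerS]
  rw [this]
  exact MeasurableSet.iInter fun i =>
    ((continuous_coord i).comp continuous_subtype_val).measurable measurableSet_Iic

lemma exp_neg_sc_succ (j : ℕ) : Real.exp (-sc (j + 1)) = Real.exp (-sc j) / 2 := by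
  rw [sc_succ, neg_add, Real.exp_add, Real.exp_neg (Real.log 2), Real.exp_log (by norm_num)]
  ring

theorem cubeS_hasCore {d : ℕ} (hd : 1 ≤ d) : HasCore (volS d) (d : ℝ) := by
  classical
  intro η hη
  have hd' : (1 : ℝ) ≤ d := by exact_mod_cast hd
  set h : ℝ := min (η / d) 1 with hh
  have hh0 : 0 < h := lt_min (by positivity) one_pos
  have hh1 : h ≤ 1 := min_le_right _ _
  have hhd : h * d ≤ η := by
    have : h ≤ η / d := min_le_left _ _
    rwa [le_div_iff₀ (by linarith)] at this
  -- the first small scale
  obtain ⟨j1, hj1⟩ : ∃ j1 : ℕ, ∀ j, j1 < j → Real.exp (-sc j) ≤ h / 2 := by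
    have hl2 : 0 < Real.log 2 := Real.log_pos (by norm_num)
    obtain ⟨j1, hj1⟩ := exists_nat_gt (-Real.log (h / 2) / Real.log 2)
    refine ⟨j1, fun j hj => ?_⟩
    rw [← Real.exp_log (show 0 < h / 2 by positivity)]
    apply Real.exp_le_exp.2
    rw [div_lt_iff₀ hl2] at hj1
    have h2 : sc j1 ≤ sc j := sc_mono hj.le
    have h3 : sc j1 = j1 * Real.log 2 := rfl
    linarith
  refine ⟨cornerS d h, cornerS d (h / 2), j1, (d : ℝ) * Real.log (5 * d),
    measurableSet_cornerS d h, ?_, measurableSet_cornerS d (h / 2), ?_, ?_, ?_⟩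
  · intro x hx y hy
    have e1 : dist x y = dist x.1 y.1 := rfl
    rw [e1, EuclideanSpace.dist_eq]
    have h1 : ∑ i, dist (x.1 i) (y.1 i) ^ 2 ≤ ∑ i : Fin d, h ^ 2 := by
      apply Finset.sum_le_sum
      intro i _
      rw [Real.dist_eq]
      have a1 := (x.2 i).1
      have a2 := hx i
      have a3 := (y.2 i).1
      have a4 := hy i
      apply pow_le_pow_left₀ (abs_nonneg _)
      rw [abs_le]
      constructor <;> linarith
    refine (Real.sqrt_le_sqrt h1).trans ?_
    rw [Finset.sum_const, Finset.card_univ, Fintype.card_fin, nsmul_eq_mul]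
    apply Real.sqrt_le_iff.2
    refine ⟨hη.le, ?_⟩
    have h2 : (d : ℝ) * h ^ 2 ≤ (h * d) ^ 2 := by
      rw [mul_pow, mul_comm]
      apply mul_le_mul_of_nonneg_left _ (sq_nonneg _)
      nlinarith
    exact h2.trans (pow_le_pow_left₀ (by positivity) hhd 2)
  · intro x hx i
    have := hx i
    linarith
  · -- positive measure
    have hsub : (fun x : cubeS d => x.1) ⁻¹' (boxS d (fun _ => 0) (h / 2)) ⊆
        cornerS d (h / 2) := by
      intro x hx i
      have := (hx i).2
      simp only [zero_add] at this
      exact this.le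
    have hpos : 0 < volS d ((fun x : cubeS d => x.1) ⁻¹' (boxS d (fun _ => 0) (h / 2))) := by
      rw [vol_sub, Set.inter_eq_self_of_subset_right, volume_boxS]
      · apply ENNReal.pow_pos
        rw [ENNReal.ofReal_pos]
        positivity
      · intro x hx i
        have := hx i
        simp only [zero_add] at this
        exact ⟨this.1, this.2.le.trans (by linarith)⟩
    exact hpos.trans_le (measure_mono hsub)
  · intro J j x hx hj hjJ
    set r : ℝ := Real.exp (-sc j) with hr
    have hr0 : 0 < r := Real.exp_pos _
    have hrh : r ≤ h / 2 := hj1 j hj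
    set s : ℝ := r / (5 * d) with hs
    have hs0 : 0 < s := by positivity
    have hsd : s * d = r / 5 := by rw [hs]; field_simp
    have hs5 : s ≤ r / 5 := by nlinarith
    set i0 : Fin d := ⟨0, hd⟩ with hi0
    set a : Fin d → ℝ := fun i => x.1 i + (if i = i0 then 3 / 5 * r else 0) with ha
    have hbox : ∀ y ∈ boxS d a s, ∀ i, x.1 i ≤ y i ∧ y i ≤ x.1 i + 4 / 5 * r := by
      intro y hy i
      have h1 := hy i
      simp only [ha] at h1
      by_cases hi : i = i0
      · rw [if_pos hi] at h1
        constructor <;> linarith [h1.1, h1.2]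
      · rw [if_neg hi] at h1
        constructor <;> linarith [h1.1, h1.2]
    have hcube : boxS d a s ⊆ cubeS d := by
      intro y hy i
      have h1 := hbox y hy i
      have h2 := (x.2 i).1
      have h3 := hx i
      exact ⟨by linarith [h1.1], by linarith [h1.2]⟩
    have hdist : ∀ y ∈ boxS d a s, dist x.1 y ≤ r ∧ r / 2 < dist x.1 y := by
      intro y hy
      constructor
      · rw [EuclideanSpace.dist_eq]
        have h1 : ∑ i, dist (x.1 i) (y i) ^ 2 ≤
            ∑ i : Fin d, ((if i = i0 then 16 / 25 * r ^ 2 else 0) + s ^ 2) := by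
          apply Finset.sum_le_sum
          intro i _
          rw [Real.dist_eq, sq_abs]
          have h2 := hy i
          have h3 := hbox y hy i
          simp only [ha] at h2
          by_cases hi : i = i0
          · rw [if_pos hi]
            have h4 : 0 ≤ y i - x.1 i := by linarith [h3.1]
            have h5 : y i - x.1 i ≤ 4 / 5 * r := by linarith [h3.2]
            have h6 : (x.1 i - y i) ^ 2 ≤ (4 / 5 * r) ^ 2 := by
              rw [show (x.1 i - y i) ^ 2 = (y i - x.1 i) ^ 2 by ring]
              exact pow_le_pow_left₀ h4 h5 2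
            have h7 := sq_nonneg s
            linarith [h6, h7]
          · rw [if_neg hi] at h2 ⊢
            have h4 : 0 ≤ y i - x.1 i := by linarith [h2.1]
            have h5 : y i - x.1 i ≤ s := by linarith [h2.2]
            rw [show (x.1 i - y i) ^ 2 = (y i - x.1 i) ^ 2 by ring, zero_add]
            exact pow_le_pow_left₀ h4 h5 2
        refine (Real.sqrt_le_sqrt h1).trans ?_
        rw [Finset.sum_add_distrib, Finset.sum_ite_eq' Finset.univ i0, if_pos (Finset.mem_univ _),
          Finset.sum_const, Finset.card_univ, Fintype.card_fin, nsmul_eq_mul]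
        apply Real.sqrt_le_iff.2
        refine ⟨hr0.le, ?_⟩
        have h8 : (d : ℝ) * s ^ 2 ≤ r ^ 2 / 25 := by
          calc (d : ℝ) * s ^ 2 = (s * d) * s := by ring
            _ ≤ r / 5 * (r / 5) := by
                rw [hsd]
                exact mul_le_mul_of_nonneg_left hs5 (by positivity)
            _ = _ := by ring
        have h9 := sq_nonneg r
        linarith
      · have h1 : 3 / 5 * r ≤ dist x.1 y := by
          rw [EuclideanSpace.dist_eq]
          apply Real.le_sqrt_of_sq_le
          refine le_trans ?_ (Finset.single_le_sum (f := fun i => dist (x.1 i) (y i) ^ 2)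
            (fun i _ => sq_nonneg _) (Finset.mem_univ i0))
          have h2 := (hy i0).1
          simp only [ha, if_pos] at h2
          simp only
          rw [Real.dist_eq]
          apply pow_le_pow_left₀ (by positivity)
          rw [abs_sub_comm]
          exact le_trans (by linarith) (le_abs_self _)
        linarith
    have hsub : (fun y : cubeS d => y.1) ⁻¹' (boxS d a s) ⊆ pc (cornerS d h) x J j := by
      intro y hy
      refine ⟨fun i => ?_, ?_, fun _ => ?_⟩
      · have h1 := hbox y.1 hy i
        have h3 := hx i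
        linarith [h1.2]
      · exact (hdist y.1 hy).1
      · rw [exp_neg_sc_succ]
        exact (hdist y.1 hy).2
    refine le_trans (le_of_eq ?_) (measure_mono hsub)
    rw [vol_sub, Set.inter_eq_self_of_subset_right hcube, volume_boxS,
      ← ENNReal.ofReal_pow hs0.le]
    unfold ee
    congr 1
    rw [hs, hr, div_pow, ← Real.exp_nat_mul, show -((d : ℝ) * Real.log (5 * d)) - d * sc j =
      d * -sc j - d * Real.log (5 * d) by ring, Real.exp_sub, Real.exp_nat_mul (Real.log (5 * d)),
      Real.exp_log (by positivity)]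

end Pool.Agent.Helper55.Chaos
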