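import Mathlib
import Pool.Agent.Helper55.Tail.Core

set_option autoImplicit false
set_option linter.unusedSectionVars false
set_option linter.unusedVariables false

open MeasureTheory ProbabilityTheory Finset Filter
open scoped ENNReal Topology

namespace Pool.Agent.Helper55.Chaos

section
variable {Ω T : Type*} [mΩ : MeasurableSpace Ω] {P : Measure Ω} [IsProbabilityMeasure P]
  [MetricSpace T] [SecondCountableTopology T] [MeasurableSpace T] [BorelSpace T] [Nonempty T]
  {X : ℕ → Ω → T → ℝ} {ν : Measure T} [IsFiniteMeasure ν] {d : ℝ} {σ : ℕ → ℝ} {δ C0 cv : ℝ}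

/-- Reduction to everywhere continuous fields. -/
theorem reduce_general (o : T) (hd : 0 < d)
    (hvol : ∀ (x : T) (r : ℝ), 0 < r → ν (Metric.closedBall x r) ≤ ee (cv + d * Real.log r))
    (hmeas : ∀ k x, Measurable fun ω => X k ω x)
    (hcont : ∀ k, ∀ᵐ ω ∂P, Continuous (X k ω))
    (hind : iIndepFun X P)
    (hcent : ∀ k x, ∫ ω, X k ω x ∂P = 0)
    (htop : Tendsto (fun n => ∑ k ∈ range n, ∫ ω, X k ω o ^ 2 ∂P) atTop atTop)
    (hcorr : ∃ δ > 0, ∃ C : ℝ, (∀ n x, |∑ k ∈ range n, ∫ ω, X k ω x ^ 2 ∂P -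
        ∑ k ∈ range n, ∫ ω, X k ω o ^ 2 ∂P| ≤ C) ∧
      ∀ n x y, x ≠ y → dist x y ≤ δ → |∑ k ∈ range n, ∫ ω, X k ω x * X k ω y ∂P -
        min (Real.log (1 / dist x y)) (∑ k ∈ range n, ∫ ω, X k ω o ^ 2 ∂P)| ≤ C)
    (hmom : ∃ e : ℝ, 0 < e ∧ ∃ B : ℝ, ∀ x n,
      ∑ k ∈ range n, (∫ ω, |X k ω x| ^ (3 + e) ∂P) ^ (3 / (3 + e)) ≤ B)
    (hexp : ∀ s : ℝ, ∃ B : ℝ, ∀ k x,
      ∫⁻ ω, ENNReal.ofReal (Real.exp (s * X k ω x)) ∂P ≤ ENNReal.ofReal B)
    {b : ℝ}
    (M : ℕ → Ω → ℝ≥0∞) (hM : M = fun n ω => (ν.withDensity fun x => ENNReal.ofReal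
      (Real.exp (b * ∑ k ∈ range n, X k ω x) /
        ∫ ω', Real.exp (b * ∑ k ∈ range n, X k ω' x) ∂P)) Set.univ) :
    ∃ (Y : ℕ → Ω → T → ℝ) (σ : ℕ → ℝ) (δ C0 : ℝ), 0 < δ ∧ FieldHyp P Y ∧
      LogHyp P Y ν d σ δ C0 cv ∧ (∀ᵐ ω ∂P, ∀ k, Y k ω = X k ω) ∧
      ∀ᵐ ω ∂P, ∀ n, M n ω = mass P ν Y b n Set.univ ω := by
  classical
  -- a measurable set of full measure on which all paths are continuous
  set N : Set Ω := toMeasurable P {ω | ¬ ∀ k, Continuous (X k ω)} with hN
  have hPN : P N = 0 := by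
    rw [hN, measure_toMeasurable]
    exact ae_iff.1 (ae_all_iff.2 hcont)
  have hNm : MeasurableSet N := measurableSet_toMeasurable _ _
  have hNc : ∀ ω, ω ∉ N → ∀ k, Continuous (X k ω) := by
    intro ω hω
    by_contra hcon
    exact hω (subset_toMeasurable P _ hcon)
  set Y : ℕ → Ω → T → ℝ := fun k ω x => if ω ∈ N then 0 else X k ω x with hY
  have haeN : ∀ᵐ ω ∂P, ω ∉ N := by
    rw [ae_iff]
    simpa using hPN
  have hYX : ∀ᵐ ω ∂P, ∀ k, Y k ω = X k ω := by
    filter_upwards [haeN] with ω hω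
    intro k
    funext x
    simp [hY, hω]
  have hYXk : ∀ k, Y k =ᵐ[P] X k := fun k => by
    filter_upwards [hYX] with ω hω
    exact hω k
  have hYm : ∀ k x, Measurable fun ω => Y k ω x := by
    intro k x
    exact Measurable.ite hNm measurable_const (hmeas k x)
  have hint : ∀ s k x, Integrable (fun ω => Real.exp (s * X k ω x)) P := by
    intro s k x
    obtain ⟨B, hB⟩ := hexp s
    have hm : Measurable fun ω => Real.exp (s * X k ω x) :=
      Real.measurable_exp.comp ((hmeas k x).const_mul s)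
    rw [← lintegral_ofReal_ne_top_iff_integrable hm.aestronglyMeasurable
      (Filter.Eventually.of_forall fun ω => (Real.exp_pos _).le)]
    exact ne_top_of_le_ne_top ENNReal.ofReal_ne_top (hB k x)
  have hF : FieldHyp P Y := by
    refine ⟨hYm, ?_, ?_, ?_, ?_, ?_⟩
    · intro k ω
      by_cases hω : ω ∈ N
      · have : Y k ω = fun _ => 0 := by funext x; simp [hY, hω]
        rw [this]; exact continuous_const
      · have : Y k ω = X k ω := by funext x; simp [hY, hω]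
        rw [this]; exact hNc ω hω k
    · exact hind.congr fun k => (hYXk k).symm
    · intro k x
      rw [← hcent k x]
      apply integral_congr_ae
      filter_upwards [hYXk k] with ω hω
      rw [hω]
    · intro s
      obtain ⟨B, hB⟩ := hexp s
      refine ⟨max B 0, fun k x => ?_⟩
      have hae : (fun ω => Real.exp (s * Y k ω x)) =ᵐ[P] fun ω => Real.exp (s * X k ω x) := by
        filter_upwards [hYXk k] with ω hω
        rw [hω]
      refine ⟨(hint s k x).congr hae.symm, ?_⟩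
      rw [integral_congr_ae hae, integral_eq_lintegral_of_nonneg_ae
        (Filter.Eventually.of_forall fun ω => (Real.exp_pos _).le)
        (hint s k x).aestronglyMeasurable]
      apply ENNReal.toReal_le_of_le_ofReal (le_max_right _ _)
      exact (hB k x).trans (ENNReal.ofReal_le_ofReal (le_max_left _ _))
    · obtain ⟨e, he, B, hB⟩ := hmom
      refine ⟨e, he, B, fun x n => ?_⟩
      refine le_trans (le_of_eq ?_) (hB x n)
      refine Finset.sum_congr rfl fun k _ => ?_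
      congr 1
      apply integral_congr_ae
      filter_upwards [hYXk k] with ω hω
      rw [hω]
  have hKX : ∀ n x y, K P Y n x y = ∑ k ∈ range n, ∫ ω, X k ω x * X k ω y ∂P := by
    intro n x y
    unfold K
    refine Finset.sum_congr rfl fun k _ => ?_
    apply integral_congr_ae
    filter_upwards [hYXk k] with ω hω
    rw [hω]
  have hsq : ∀ n x, K P Y n x x = ∑ k ∈ range n, ∫ ω, X k ω x ^ 2 ∂P := by
    intro n x
    rw [hKX]
    refine Finset.sum_congr rfl fun k _ => ?_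
    congr 1
    funext ω
    ring
  obtain ⟨δ, hδ, C, hC1, hC2⟩ := hcorr
  obtain ⟨B, hB0, hB⟩ := hF.absexp 1 zero_le_one
  have hinc : ∀ k, ∫ ω, X k ω o ^ 2 ∂P ≤ 2 * B := by
    intro k
    have e1 : ∫ ω, X k ω o ^ 2 ∂P = ∫ ω, Y k ω o ^ 2 ∂P := by
      apply integral_congr_ae
      filter_upwards [hYXk k] with ω hω
      rw [hω]
    rw [e1]
    calc ∫ ω, Y k ω o ^ 2 ∂P ≤ ∫ ω, 2 * Real.exp (1 * |Y k ω o|) ∂P := by
          apply integral_mono (hF.int_sq k o) ((hB k o).1.const_mul 2)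
          intro ω
          simp only [one_mul]
          have := Real.quadratic_le_exp_of_nonneg (abs_nonneg (Y k ω o))
          have h2 := abs_nonneg (Y k ω o)
          rw [← sq_abs]
          linarith
      _ = 2 * ∫ ω, Real.exp (1 * |Y k ω o|) ∂P := integral_const_mul _ _
      _ ≤ 2 * B := by linarith [(hB k o).2]
  have hL : LogHyp P Y ν d (fun n => ∑ k ∈ range n, ∫ ω, X k ω o ^ 2 ∂P) δ (max C (2 * B)) cv := by
    refine ⟨hd, by simp, ?_, ?_, htop, ?_, ?_, hvol⟩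
    · apply monotone_nat_of_le_succ
      intro n
      rw [Finset.sum_range_succ]
      have : 0 ≤ ∫ ω, X n ω o ^ 2 ∂P := integral_nonneg fun ω => sq_nonneg _
      linarith
    · intro n
      rw [Finset.sum_range_succ]
      have := hinc n
      have h2 := le_max_right C (2 * B)
      linarith
    · intro n x
      rw [hsq]
      exact (hC1 n x).trans (le_max_left _ _)
    · intro n x y hxy hd
      rw [hKX]
      exact (hC2 n x y hxy hd).trans (le_max_left _ _)
  -- comparison of the masses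
  have hmass : ∀ᵐ ω ∂P, ∀ n, M n ω = mass P ν Y b n Set.univ ω := by
    filter_upwards [hYX] with ω hω
    intro n
    rw [hM]
    simp only
    rw [withDensity_apply _ MeasurableSet.univ]
    unfold mass Dn vn S
    congr 1
    funext x
    have e1 : ∑ k ∈ range n, X k ω x = ∑ k ∈ range n, Y k ω x :=
      Finset.sum_congr rfl fun k _ => by rw [hω k]
    have e2 : ∫ ω', Real.exp (b * ∑ k ∈ range n, X k ω' x) ∂P =
        ∫ ω', Real.exp (b * ∑ k ∈ range n, Y k ω' x) ∂P := by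
      apply integral_congr_ae
      filter_upwards [hYX] with ω' hω'
      have : ∑ k ∈ range n, X k ω' x = ∑ k ∈ range n, Y k ω' x :=
        Finset.sum_congr rfl fun k _ => by rw [hω' k]
      rw [this]
    rw [e1, e2]
  exact ⟨Y, _, δ, _, hδ, hF, hL, hYX, hmass⟩

/-- The two-sided tail estimate for almost surely continuous fields. -/
theorem tail_general [CompactSpace T] (o : T) (hd : 0 < d)
    (hvol : ∀ (x : T) (r : ℝ), 0 < r → ν (Metric.closedBall x r) ≤ ee (cv + d * Real.log r))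
    (hcore : HasCore ν d)
    (hmeas : ∀ k x, Measurable fun ω => X k ω x)
    (hcont : ∀ k, ∀ᵐ ω ∂P, Continuous (X k ω))
    (hind : iIndepFun X P)
    (hcent : ∀ k x, ∫ ω, X k ω x ∂P = 0)
    (htop : Tendsto (fun n => ∑ k ∈ range n, ∫ ω, X k ω o ^ 2 ∂P) atTop atTop)
    (hcorr : ∃ δ > 0, ∃ C : ℝ, (∀ n x, |∑ k ∈ range n, ∫ ω, X k ω x ^ 2 ∂P -
        ∑ k ∈ range n, ∫ ω, X k ω o ^ 2 ∂P| ≤ C) ∧
      ∀ n x y, x ≠ y → dist x y ≤ δ → |∑ k ∈ range n, ∫ ω, X k ω x * X k ω y ∂P -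
        min (Real.log (1 / dist x y)) (∑ k ∈ range n, ∫ ω, X k ω o ^ 2 ∂P)| ≤ C)
    (hmom : ∃ e : ℝ, 0 < e ∧ ∃ B : ℝ, ∀ x n,
      ∑ k ∈ range n, (∫ ω, |X k ω x| ^ (3 + e) ∂P) ^ (3 / (3 + e)) ≤ B)
    (hexp : ∀ s : ℝ, ∃ B : ℝ, ∀ k x,
      ∫⁻ ω, ENNReal.ofReal (Real.exp (s * X k ω x)) ∂P ≤ ENNReal.ofReal B)
    {b : ℝ} (hb : 0 < b) (hsub : b ^ 2 / 2 < d)
    (M : ℕ → Ω → ℝ≥0∞) (hM : M = fun n ω => (ν.withDensity fun x => ENNReal.ofReal
      (Real.exp (b * ∑ k ∈ range n, X k ω x) /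
        ∫ ω', Real.exp (b * ∑ k ∈ range n, X k ω' x) ∂P)) Set.univ) :
    ∃ c C : ℝ, 0 < c ∧ 0 < C ∧ ∀ t : ℝ, 1 ≤ t →
      ENNReal.ofReal (c * t ^ (-(2 * d / b ^ 2))) ≤
        P {ω | ENNReal.ofReal t < liminf (fun n => M n ω) atTop} ∧
      P {ω | ENNReal.ofReal t < liminf (fun n => M n ω) atTop} ≤
        ENNReal.ofReal (C * t ^ (-(2 * d / b ^ 2))) := by
  obtain ⟨Y, σ, δ, C0, hδ, hF, hL, -, hmass⟩ := reduce_general o hd hvol hmeas hcont hind hcent
    htop hcorr hmom hexp M hM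
  obtain ⟨c, C, hc, hC, hest⟩ := hF.tail_main hL hδ hb hsub hcore
  refine ⟨c, C, hc, hC, fun t ht => ?_⟩
  have e1 : P {ω | ENNReal.ofReal t < liminf (fun n => M n ω) atTop} =
      P {ω | ENNReal.ofReal t < liminf (fun n => mass P ν Y b n Set.univ ω) atTop} := by
    apply measure_congr
    filter_upwards [hmass] with ω hω
    apply propext
    change ENNReal.ofReal t < liminf (fun n => M n ω) atTop ↔
      ENNReal.ofReal t < liminf (fun n => mass P ν Y b n Set.univ ω) atTop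
    simp_rw [hω]
  rw [e1]
  exact hest t ht

end

end Pool.Agent.Helper55.Chaos
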